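import Pool.Agent.Lib.MP_0d8f69_coT.SideE

/-!
MP_0d8f69_co, theorem T: the distances from a typical point increase along the polygon.
-/

set_option autoImplicit false

namespace Pool.Agent.Lib.MP_0d8f69_coT

open Finset Pool.Agent.Lib.MP_0d8f69_co Pool.Agent.Lib.MP_0d8f69_coI Pool.Agent.Lib.MP_0d8f69_coZ

/-- the points of `S` in cyclic order, starting at `u 0`, counterclockwise (`σ = 1`) or clockwise (`σ = -1`) -/
structure Ch (n : ℕ) (S : Finset ℂ) (σ : ℝ) (u : ℕ → ℂ) : Prop where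
  mem : ∀ s, s < n → u s ∈ S
  sur : ∀ x ∈ S, ∃ s, s < n ∧ u s = x
  pos : ∀ s t t', s < t → t < t' → t' < n → 0 < σ * dt (u s) (u t) (u t')

variable {S T : Finset ℂ} {P : Finset ℝ} {κ β ω : ℝ} {O : ℂ} {ρ r : ℝ} {n : ℕ} {u : ℕ → ℂ}

private theorem CC_of {σ : ℝ} (hσ : σ = 1 ∨ σ = -1) {v w : ℂ} (h : |dp v w| ≤ 9 / 10 * |cr v w|)
    (hs : 0 ≤ σ * cr v w) : CC σ v w := by
  unfold CC
  rcases hσ with rfl | rfl
  · rw [one_mul] at hs ⊢
    rwa [abs_of_nonneg hs] at h
  · have h1 : cr v w ≤ 0 := by linarith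
    rw [abs_of_nonpos h1] at h
    linarith

private theorem dt_cr1 (a b c : ℂ) : dt a b c = cr (b - a) (c - a) := by
  unfold dt cr; simp only [Complex.sub_re, Complex.sub_im]

private theorem dt_cr2 (a b c : ℂ) : dt a b c = cr (b - a) (c - b) := by
  unfold dt cr; simp only [Complex.sub_re, Complex.sub_im]; ring

private theorem dt_cr3 (a b c : ℂ) : dt a b c = cr (c - a) (c - b) := by
  unfold dt cr; simp only [Complex.sub_re, Complex.sub_im]; ring

private theorem cr_neg (v a b : ℂ) : cr v (a - b) = - cr v (b - a) := by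
  unfold cr; simp only [Complex.sub_re, Complex.sub_im]; ring

private theorem dp_neg (v a b : ℂ) : dp v (a - b) = - dp v (b - a) := by
  unfold dp; simp only [Complex.sub_re, Complex.sub_im]; ring

/-- the order of three indices from the orientation -/
private theorem Ch.lt_of {S : Finset ℂ} {σ : ℝ} {n : ℕ} {u : ℕ → ℂ} (hu : Ch n S σ u) {a b : ℕ}
    (han : a < n) (hb1 : 1 ≤ b) (h : 0 < σ * dt (u 0) (u a) (u b)) : a < b := by
  rcases lt_trichotomy a b with hab | hab | hab
  · exact hab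
  · rw [hab, dt_self] at h; simp at h
  · have h1 := hu.pos 0 b a (by omega) hab han
    rw [dt_swap] at h1
    exfalso; linarith

/-- Proof. `p = u 0`, `v = p - O`. By `Geo.next` choose `x ∈ T` (with `- σ`, from `p`), `y ∈ T` (with `σ`, from `p`),
`y' ∈ T` (with `σ`, from `y`); all distances from `p` are `≤ ρ / 100`. `CC σ v (p - x)`, `CC σ v (y - p)`,
`CC σ v (y' - y)` by `Geo.cone` (`p` as base) and `Geo.transfer` for the sign; sums by `CC.add`. `Geo.outer` gives
`σ * dt x p y > 0`, `σ * dt x p y' > 0`, `σ * dt p y y' > 0` (base `p`). Let `y = u b`, `y' = u b'`, `x = u e`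
(`Ch.sur`; `b, b', e ≥ 1` as the points differ from `p`). By `Ch.pos` and these signs (`dt_rot`, `dt_swap`):
`b < b' < e`. For `0 < s < b`, `q = u s`: `σ * dt x p q > 0` (`= σ * dt p q x`, as `s < e`), `σ * dt p q y > 0`,
`σ * dt x p y > 0`, i.e. with `a = p - x`, `c = y - p`: `CC.between` gives `CC σ v (q - p)`. In the same way (from
`σ * dt p q y > 0`, `σ * dt q y y' > 0`, `σ * dt p y y' > 0`) `CC σ v (y - q)`. For `0 < s < t ≤ b` with `q = u s`,
`q' = u t`: if `t < b`, `CC.between` with `a = q - p`, `b = q' - q`, `c = y - q` (signs of `dt p q q'`, `dt q q' y`,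
`dt p q y`) gives `CC σ v (q' - q)`; if `t = b` this is `CC σ v (y - q)`. `CC.dp_pos` and `dist_lt_of_dp` give
`dist p q < dist p q'`.
Last claim: let `q = u s ∈ T`, `400 r ≤ dist p q < ρ / 2500`, `0 < σ * cr v (q - p)`, and suppose `b < s`. Then
`dist q y ≥ ρ / 2000 - ρ / 2500 ≥ 400 r` (`Geo.rr`), so `|dp v (y - q)| ≤ 0.9 |cr v (y - q)|` by `Geo.cone`. If
`σ * cr v (y - q) ≤ 0` then `CC σ v (q - y)` and with `CC σ v (y - p)` we get `dist p y < dist p q`, a contradiction.
So `CC σ v (y - q)`, and `CC σ v (q - p)`, hence `σ * dt p q y > 0` by `Geo.outer`, but `b < s` gives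
`σ * dt p y q > 0` by `Ch.pos`. -/
theorem Geo.chain (g : Geo S T P κ β ω O ρ r) (hβ : 0 < β) {σ : ℝ} (hσ : σ = 1 ∨ σ = -1) (hu : Ch n S σ u)
    (h0 : u 0 ∈ T) :
    ∃ b, 1 ≤ b ∧ b < n ∧ (∀ s t, 1 ≤ s → s < t → t ≤ b → dist (u 0) (u s) < dist (u 0) (u t)) ∧
      ρ / 2000 ≤ dist (u 0) (u b) ∧
      ∀ s, 1 ≤ s → s < n → u s ∈ T → 400 * r ≤ dist (u 0) (u s) → dist (u 0) (u s) < ρ / 2500 →
        0 < σ * cr (u 0 - O) (u s - u 0) → s ≤ b := by
  have hO := g.rho
  have hr0 := g.r0
  have hrr := g.rr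
  obtain ⟨p, hp⟩ : ∃ p, u 0 = p := ⟨_, rfl⟩
  rw [hp] at h0
  have hpS : p ∈ S := g.hom.sub h0
  have hn : 0 < n := by
    obtain ⟨s, hs, -⟩ := hu.sur p hpS
    omega
  have hσ' : -σ = 1 ∨ -σ = -1 := by
    rcases hσ with h | h
    · right; rw [h]
    · left; rw [h]; norm_num
  obtain ⟨x, hxT, hx1, hx2, hx3⟩ := g.next hβ hσ' h0
  obtain ⟨y, hyT, hy1, hy2, hy3⟩ := g.next hβ hσ h0
  obtain ⟨z, hzT, hz1, hz2, hz3⟩ := g.next hβ hσ hyT
  obtain ⟨e, he, hue⟩ := hu.sur x (g.hom.sub hxT)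
  obtain ⟨b, hb, hub⟩ := hu.sur y (g.hom.sub hyT)
  obtain ⟨c, hc, huc⟩ := hu.sur z (g.hom.sub hzT)
  have hpz : dist p z ≤ ρ / 100 := by
    have := dist_triangle p y z
    linarith
  have hpp : dist p p ≤ ρ / 50 := by rw [dist_self]; positivity
  have hdx : dist p x ≤ ρ / 50 := by linarith
  have hdy : dist p y ≤ ρ / 50 := by linarith
  have hdz : dist p z ≤ ρ / 50 := by linarith
  have hv : p - O ≠ 0 := by
    intro h
    have h1 := (g.rad p h0).1
    rw [h, norm_zero] at h1
    linarith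
  have hpx : p ≠ x := by
    intro h; rw [← h, dist_self] at hx1; linarith
  have hpy : p ≠ y := by
    intro h; rw [← h, dist_self] at hy1; linarith
  have hyz : y ≠ z := by
    intro h; rw [← h, dist_self] at hz1; linarith
  have cpy : CC σ (p - O) (y - p) :=
    CC_of hσ (g.cone p h0 p h0 y hyT hpp hdy (by linarith)) hy3.le
  have cxp : CC σ (p - O) (p - x) := by
    refine CC_of hσ (g.cone p h0 x hxT p h0 hdx hpp (by rw [dist_comm]; linarith)) ?_
    rw [cr_neg]
    linarith
  have cyz : CC σ (p - O) (z - y) := by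
    have h1 := g.cone p h0 y hyT z hzT hdy hdz (by linarith)
    exact CC_of hσ h1 (g.transfer h0 (by linarith) h1 hσ hz3).le
  have cpz : CC σ (p - O) (z - p) := by
    have h1 := CC.add cpy cyz
    have e1 : y - p + (z - y) = z - p := by ring
    rwa [e1] at h1
  have o1 : 0 < σ * dt x p y := g.outer hσ h0 hxT h0 hyT hdx hpp hdy hpx.symm hpy cxp cpy
  have hpz' : p ≠ z := by
    intro h
    have o3 : 0 < σ * dt p y z := g.outer hσ h0 h0 hyT hzT hpp hdy hdz hpy hyz cpy cyz
    rw [← h, dt_self''] at o3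
    simp at o3
  have o2 : 0 < σ * dt x p z := g.outer hσ h0 hxT h0 hzT hdx hpp hdz hpx.symm hpz' cxp cpz
  have o3 : 0 < σ * dt p y z := g.outer hσ h0 h0 hyT hzT hpp hdy hdz hpy hyz cpy cyz
  have hb1 : 1 ≤ b := by
    rcases Nat.eq_zero_or_pos b with h | h
    · exfalso; rw [h, hp] at hub; exact hpy hub
    · exact h
  have hc1 : 1 ≤ c := by
    rcases Nat.eq_zero_or_pos c with h | h
    · exfalso; rw [h, hp] at huc; exact hpz' huc
    · exact h
  have he1 : 1 ≤ e := by
    rcases Nat.eq_zero_or_pos e with h | h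
    · exfalso; rw [h, hp] at hue; exact hpx hue
    · exact h
  have hbe : b < e := hu.lt_of hb he1 (by rw [hp, hub, hue, dt_rot]; exact o1)
  have hbc : b < c := hu.lt_of hb hc1 (by rw [hp, hub, huc]; exact o3)
  -- the points between
  have cq : ∀ s, 1 ≤ s → s < b → CC σ (p - O) (u s - p) := by
    intro s s1 s2
    have h1 := hu.pos 0 s e (by omega) (by omega) he
    have h2 := hu.pos 0 s b (by omega) s2 hb
    rw [hp, hue] at h1
    rw [hp, hub] at h2
    rw [dt_rot, dt_cr2] at h1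
    rw [dt_cr1] at h2
    refine CC.between hσ cxp cpy h1 h2 ?_
    rw [← dt_cr2]; exact o1
  have cy : ∀ s, 1 ≤ s → s < b → CC σ (p - O) (y - u s) := by
    intro s s1 s2
    have h1 := hu.pos 0 s b (by omega) s2 hb
    have h2 := hu.pos s b c s2 hbc hc
    rw [hp, hub] at h1
    rw [hub, huc] at h2
    rw [dt_cr3] at h1
    rw [dt_cr2] at h2
    refine CC.between hσ cpy cyz h1 h2 ?_
    rw [← dt_cr2]; exact o3
  have nq : ∀ s, 1 ≤ s → s < b → u s - p ≠ 0 := by
    intro s s1 s2 h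
    have h1 := hu.pos 0 s b (by omega) s2 hb
    rw [hp, sub_eq_zero.1 h, dt_self'] at h1
    simp at h1
  refine ⟨b, hb1, hb, ?_, ?_, ?_⟩
  · intro s t s1 s2 s3
    rw [hp]
    have hsb : s < b := by omega
    refine dist_lt_of_dp (CC.dp_pos hσ hv (nq s s1 hsb) ?_ (cq s s1 hsb) ?_)
    · intro h
      have h1 := hu.pos 0 s t (by omega) s2 (by omega)
      rw [sub_eq_zero.1 h, dt_self] at h1
      simp at h1
    · rcases Nat.lt_or_ge t b with ht | ht
      · have h1 := hu.pos 0 s t (by omega) s2 (by omega)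
        have h2 := hu.pos s t b s2 ht hb
        have h3 := hu.pos 0 s b (by omega) hsb hb
        rw [hp, dt_cr2] at h1
        rw [hub, dt_cr1] at h2
        rw [hp, hub, dt_cr2] at h3
        exact CC.between hσ (cq s s1 hsb) (cy s s1 hsb) h1 h2 h3
      · have e1 : t = b := by omega
        rw [e1, hub]
        exact cy s s1 hsb
  · rw [hp, hub]; exact hy1.le
  · intro s s1 s2 s3 s4 s5 s6
    rw [hp] at s4 s5 s6
    by_contra hcon
    have hbs : b < s := by omega
    have hqy : ρ / 10 ^ 4 ≤ dist (u s) y := by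
      have h1 := dist_triangle p (u s) y
      have e1 : ρ / 2000 - ρ / 2500 = ρ / 10 ^ 4 := by ring
      linarith
    have h400 : 400 * r ≤ dist (u s) y := by
      have e1 : ρ / 10 ^ 5 ≤ ρ / 10 ^ 4 := by
        apply div_le_div_of_nonneg_left hO.le <;> norm_num
      linarith
    have hds : dist p (u s) ≤ ρ / 50 := by linarith
    have hcone := g.cone p h0 (u s) s3 y hyT hds hdy h400
    have hqy0 : u s ≠ y := by
      intro h
      rw [h, dist_self] at hqy
      have : 0 < ρ / 10 ^ 4 := by positivity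
      linarith
    have cqp : CC σ (p - O) (u s - p) :=
      CC_of hσ (g.cone p h0 p h0 (u s) s3 hpp hds s4) s6.le
    rcases le_or_gt (σ * cr (p - O) (y - u s)) 0 with h | h
    · have c1 : CC σ (p - O) (u s - y) := by
        refine CC_of hσ ?_ ?_
        · rw [dp_neg, cr_neg, abs_neg, abs_neg]; exact hcone
        · rw [cr_neg]; linarith
      have h1 := dist_lt_of_dp (CC.dp_pos hσ hv (sub_ne_zero.2 hpy.symm) (sub_ne_zero.2 hqy0) cpy c1)
      have h2 : ρ / 2500 < ρ / 2000 := by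
        apply div_lt_div_of_pos_left hO <;> norm_num
      linarith
    · have c1 : CC σ (p - O) (y - u s) := CC_of hσ hcone h.le
      have hps : p ≠ u s := by
        intro h'
        rw [← h', dist_self] at s4
        linarith
      have h1 : 0 < σ * dt p (u s) y := g.outer hσ h0 h0 s3 hyT hpp hds hdy hps hqy0 cqp c1
      have h2 := hu.pos 0 b s (by omega) hbs s2
      rw [hp, hub, dt_swap] at h2
      linarith

end Pool.Agent.Lib.MP_0d8f69_coT
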