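import Pool.Agent.Lib.MP_0d8f69_coT.HomF

/-!
MP_0d8f69_co, theorem T: the typical points are close to a circle.
-/

set_option autoImplicit false

namespace Pool.Agent.Lib.MP_0d8f69_coT

open Finset Pool.Agent.Lib.MP_0d8f69_co Pool.Agent.Lib.MP_0d8f69_coI Pool.Agent.Lib.MP_0d8f69_coZ

variable {S T : Finset ℂ} {P : Finset ℝ} {κ : ℝ}

private theorem cirE_cardT (h : Hom S T P κ) : (S.card : ℝ) - κ * S.card ≤ (T.card : ℝ) := by
  have h1 := Finset.card_sdiff_add_card_eq_card h.sub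
  have h2 : ((S \ T).card : ℝ) + (T.card : ℝ) = (S.card : ℝ) := by exact_mod_cast h1
  have h3 := h.cT
  linarith

private theorem cirE_near2 (h : Hom S T P κ) (hκ1 : κ ≤ 1 / 10 ^ 6) (hn : 100 ≤ S.card) {M : ℝ}
    (hM : ∀ D ∈ P, D ≤ M) {x y : ℂ} (hx : x ∈ T) (hy : y ∈ T) : dist x y ≤ 2 * M := by
  classical
  by_contra hc
  rw [not_le] at hc
  have hn' : (100 : ℝ) ≤ S.card := by exact_mod_cast hn
  have h1 := h.unp x hx
  have h2 := h.unp y hy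
  have h3 : S ⊆ ((S.filter (fun z => z ≠ x ∧ dist x z ∉ P)) ∪
      (S.filter (fun z => z ≠ y ∧ dist y z ∉ P))) ∪ {x, y} := by
    intro z hz
    by_contra hz'
    simp only [mem_union, mem_filter, mem_insert, mem_singleton, not_or, not_and, not_not] at hz'
    obtain ⟨⟨ha, hb⟩, hzx, hzy⟩ := hz'
    have hA := hM _ (ha hz hzx)
    have hB := hM _ (hb hz hzy)
    have h9 := dist_triangle x z y
    rw [dist_comm z y] at h9
    linarith
  have h4 := Finset.card_le_card h3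
  have h5 := Finset.card_union_le ((S.filter (fun z => z ≠ x ∧ dist x z ∉ P)) ∪
      (S.filter (fun z => z ≠ y ∧ dist y z ∉ P))) ({x, y} : Finset ℂ)
  have h6 := Finset.card_union_le (S.filter (fun z => z ≠ x ∧ dist x z ∉ P))
    (S.filter (fun z => z ≠ y ∧ dist y z ∉ P))
  have h7 : ({x, y} : Finset ℂ).card ≤ 2 := Finset.card_le_two
  have h8 : (S.card : ℝ) ≤ ((S.filter (fun z => z ≠ x ∧ dist x z ∉ P)).card : ℝ) +
      ((S.filter (fun z => z ≠ y ∧ dist y z ∉ P)).card : ℝ) + 2 := by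
    have h10 : S.card ≤ (S.filter (fun z => z ≠ x ∧ dist x z ∉ P)).card +
      (S.filter (fun z => z ≠ y ∧ dist y z ∉ P)).card + 2 := by omega
    exact_mod_cast h10
  have h11 : κ * (S.card : ℝ) ≤ 1 / 10 ^ 6 * S.card := mul_le_mul_of_nonneg_right hκ1 (by linarith)
  linarith

private theorem cirE_sum_sq (T : Finset ℂ) (O x : ℂ) (hO : ∑ y ∈ T, (y - O) = 0) :
    ∑ y ∈ T, dist x y ^ 2 = T.card * ‖x - O‖ ^ 2 + ∑ y ∈ T, ‖y - O‖ ^ 2 := by
  have hre : ∑ y ∈ T, (y.re - O.re) = 0 := by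
    have h1 := congrArg Complex.re hO
    rw [Complex.re_sum] at h1
    simpa only [Complex.sub_re, Complex.zero_re] using h1
  have him : ∑ y ∈ T, (y.im - O.im) = 0 := by
    have h1 := congrArg Complex.im hO
    rw [Complex.im_sum] at h1
    simpa only [Complex.sub_im, Complex.zero_im] using h1
  have h1 : ∀ y ∈ T, dist x y ^ 2 = ‖x - O‖ ^ 2 + ‖y - O‖ ^ 2 -
      2 * (x.re - O.re) * (y.re - O.re) - 2 * (x.im - O.im) * (y.im - O.im) := by
    intro y _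
    rw [Complex.dist_eq, ← Complex.normSq_eq_norm_sq, ← Complex.normSq_eq_norm_sq,
      ← Complex.normSq_eq_norm_sq]
    simp only [Complex.normSq_apply, Complex.sub_re, Complex.sub_im]
    ring
  rw [Finset.sum_congr rfl h1, Finset.sum_sub_distrib, Finset.sum_sub_distrib,
    Finset.sum_add_distrib, ← Finset.mul_sum, ← Finset.mul_sum, hre, him, Finset.sum_const,
    nsmul_eq_mul]
  ring

private theorem cirE_pair (h : Hom S T P κ) (hκ0 : 0 < κ) (hκ1 : κ ≤ 1 / 10 ^ 6) (hn : 100 ≤ S.card)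
    {M : ℝ} (hM : M ∈ P) : ∃ x ∈ T, ∃ y ∈ T, dist x y = M := by
  classical
  by_contra hc
  have hn' : (100 : ℝ) ≤ S.card := by exact_mod_cast hn
  have hκn : κ * (S.card : ℝ) ≤ 1 / 10 ^ 6 * S.card := mul_le_mul_of_nonneg_right hκ1 (by linarith)
  have hp := h.pop M hM
  have hcT := cirE_cardT h
  have hspl : ∑ p ∈ S, |(kd S M p : ℝ) - 2| =
      ∑ p ∈ S \ T, |(kd S M p : ℝ) - 2| + ∑ p ∈ T, |(kd S M p : ℝ) - 2| :=
    (Finset.sum_sdiff h.sub).symm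
  have h0 : 0 ≤ ∑ p ∈ S \ T, |(kd S M p : ℝ) - 2| := Finset.sum_nonneg fun p _ => abs_nonneg _
  have h0' : 0 ≤ ∑ p ∈ T, |(kd S M p : ℝ) - 2| := Finset.sum_nonneg fun p _ => abs_nonneg _
  have h1 : 2 * (T.card : ℝ) - ∑ p ∈ T, |(kd S M p : ℝ) - 2| ≤ ∑ p ∈ T, (kd S M p : ℝ) := by
    have h2 : ∑ p ∈ T, ((2 : ℝ) - |(kd S M p : ℝ) - 2|) ≤ ∑ p ∈ T, (kd S M p : ℝ) := by
      refine Finset.sum_le_sum fun p _ => ?_
      have h3 := neg_abs_le ((kd S M p : ℝ) - 2)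
      linarith
    rw [Finset.sum_sub_distrib, Finset.sum_const, nsmul_eq_mul] at h2
    linarith
  have h4 : ∑ p ∈ S \ T, (kd S M p : ℝ) ≤
      2 * ((S \ T).card : ℝ) + ∑ p ∈ S \ T, |(kd S M p : ℝ) - 2| := by
    have h2 : ∑ p ∈ S \ T, (kd S M p : ℝ) ≤ ∑ p ∈ S \ T, ((2 : ℝ) + |(kd S M p : ℝ) - 2|) := by
      refine Finset.sum_le_sum fun p _ => ?_
      have h3 := le_abs_self ((kd S M p : ℝ) - 2)
      linarith
    rw [Finset.sum_add_distrib, Finset.sum_const, nsmul_eq_mul] at h2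
    linarith
  have h5 : ∑ p ∈ T, kd S M p ≤ ∑ p ∈ S \ T, kd S M p := by
    have e1 : ∀ p ∈ T, kd S M p = ((S \ T).filter (fun q => dist p q = M)).card := by
      intro p hpT
      unfold kd
      congr 1
      ext q
      rw [mem_filter, mem_filter, mem_sdiff]
      constructor
      · rintro ⟨hq, _, hd⟩
        exact ⟨⟨hq, fun hqT => hc ⟨p, hpT, q, hqT, hd⟩⟩, hd⟩
      · rintro ⟨⟨hq, hqT⟩, hd⟩
        exact ⟨hq, fun he => hqT (he ▸ hpT), hd⟩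
    rw [Finset.sum_congr rfl e1]
    have e2 : ∑ p ∈ T, ((S \ T).filter (fun q => dist p q = M)).card =
        ∑ q ∈ S \ T, (T.filter (fun p => dist p q = M)).card := by
      simp only [Finset.card_filter]
      exact Finset.sum_comm
    rw [e2]
    refine Finset.sum_le_sum fun q hq => ?_
    rw [mem_sdiff] at hq
    unfold kd
    refine Finset.card_le_card ?_
    intro p hp
    rw [mem_filter] at hp
    rw [mem_filter]
    refine ⟨h.sub hp.1, ?_, ?_⟩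
    · rintro rfl
      exact hq.2 hp.1
    · rw [dist_comm]
      exact hp.2
  have h6 : ∑ p ∈ T, (kd S M p : ℝ) ≤ ∑ p ∈ S \ T, (kd S M p : ℝ) := by exact_mod_cast h5
  have h7 := h.cT
  linarith

private theorem cirE_dev (h : Hom S T P κ) (hκ0 : 0 < κ) (hκ1 : κ ≤ 1 / 10 ^ 6) (hn : 100 ≤ S.card)
    {M : ℝ} (hM0 : 0 < M) (hM : ∀ D ∈ P, D ≤ M) :
    ∃ C : ℝ, ∀ x ∈ T, |∑ y ∈ T, dist x y ^ 2 - C| ≤ 12 * (κ * S.card) * M ^ 2 := by
  classical
  refine ⟨2 * ∑ D ∈ P, (min D (2 * M)) ^ 2, fun x hx => ?_⟩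
  have hf : ∀ t : ℝ, 0 ≤ t → |(min t (2 * M)) ^ 2| ≤ 4 * M ^ 2 := by
    intro t ht
    have h1 : 0 ≤ min t (2 * M) := le_min ht (by linarith)
    have h2 : min t (2 * M) ≤ 2 * M := min_le_right _ _
    rw [abs_of_nonneg (sq_nonneg _)]
    nlinarith
  have h1 := h.sum_f hx (f := fun t => (min t (2 * M)) ^ 2) (M := 4 * M ^ 2) hf
  have hsub : T.erase x ⊆ S.erase x := Finset.erase_subset_erase x h.sub
  have hd : S.erase x \ T.erase x = S \ T := by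
    ext z
    rw [mem_sdiff, mem_erase, mem_erase, mem_sdiff]
    constructor
    · rintro ⟨⟨hzx, hzS⟩, hz⟩
      exact ⟨hzS, fun hzT => hz ⟨hzx, hzT⟩⟩
    · rintro ⟨hzS, hzT⟩
      exact ⟨⟨fun he => hzT (he ▸ hx), hzS⟩, fun hz => hzT hz.2⟩
  have h2 : ∑ y ∈ S.erase x, (min (dist x y) (2 * M)) ^ 2 =
      ∑ y ∈ S \ T, (min (dist x y) (2 * M)) ^ 2 + ∑ y ∈ T.erase x, (min (dist x y) (2 * M)) ^ 2 := by
    rw [← Finset.sum_sdiff hsub, hd]
  have h3 : ∑ y ∈ T.erase x, (min (dist x y) (2 * M)) ^ 2 = ∑ y ∈ T, dist x y ^ 2 := by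
    rw [← Finset.add_sum_erase T (fun y => dist x y ^ 2) hx]
    simp only [dist_self]
    rw [zero_pow two_ne_zero, zero_add]
    refine Finset.sum_congr rfl fun y hy => ?_
    rw [min_eq_left (cirE_near2 h hκ1 hn hM hx (Finset.mem_of_mem_erase hy))]
  have h4 : 0 ≤ ∑ y ∈ S \ T, (min (dist x y) (2 * M)) ^ 2 := Finset.sum_nonneg fun y _ => sq_nonneg _
  have h5 : ∑ y ∈ S \ T, (min (dist x y) (2 * M)) ^ 2 ≤ ((S \ T).card : ℝ) * (4 * M ^ 2) := by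
    have h6 : ∑ y ∈ S \ T, (min (dist x y) (2 * M)) ^ 2 ≤ ∑ y ∈ S \ T, 4 * M ^ 2 := by
      refine Finset.sum_le_sum fun y _ => ?_
      exact le_trans (le_abs_self _) (hf _ dist_nonneg)
    rwa [Finset.sum_const, nsmul_eq_mul] at h6
  have h7 : ((S \ T).card : ℝ) * (4 * M ^ 2) ≤ κ * S.card * (4 * M ^ 2) :=
    mul_le_mul_of_nonneg_right h.cT (by positivity)
  rw [h2, h3, abs_le] at h1
  rw [abs_le]
  obtain ⟨ha, hb⟩ := h1
  constructor <;> nlinarith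

/-- Proof. `n = S.card`. `T` is not empty and `P` is not empty (for `x ∈ T`, `n - 1 ≤ 2 P.card + 2 κ n`). Let `M` be
the largest element of `P`. For `x, y ∈ T`: `dist x y ≤ 2 M`, since at most `κ n` points of `S` have distance `> M`
from `x` (such a distance is unpopular), the same for `y`, and `2 κ n + 2 < n`. Let `f t = min(t, 2 M) ^ 2` and
`C = 2 ∑ D ∈ P, D ^ 2 = 2 ∑ D ∈ P, f D`. By `sum_f`, for `x ∈ T`:
`|∑ y ∈ T, dist x y ^ 2 - C| ≤ 8 κ n M ^ 2 + κ n * 4 M ^ 2 ≤ 12 κ n M ^ 2`. Let `O` be the barycentre of `T` and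
`ρ ^ 2` the mean of `‖y - O‖ ^ 2` over `y ∈ T`. Then `∑ y ∈ T, dist x y ^ 2 = T.card (‖x - O‖ ^ 2 + ρ ^ 2)`, so the
numbers `T.card (‖x - O‖ ^ 2 + ρ ^ 2)` are within `12 κ n M ^ 2` of `C`, and so is their mean `2 T.card ρ ^ 2`. Hence
`|‖x - O‖ ^ 2 - ρ ^ 2| ≤ 24 κ n M ^ 2 / T.card ≤ 25 κ M ^ 2`. By `Hom.pop` for `M` the number of ordered pairs at
distance `M` is at least `2 n - κ n`, those with first point in `S \ T` are at most `2 κ n + κ n`, the same for the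
second point, so there are `x, y ∈ T` at distance `M`. Then `M ≤ ‖x - O‖ + ‖y - O‖ ≤ 2 √(ρ ^ 2 + 25 κ M ^ 2)`, so
`M ^ 2 ≤ 4 ρ ^ 2 + 100 κ M ^ 2`, which gives `M ≤ 2.01 ρ`, `ρ > 0` and `25 κ M ^ 2 ≤ 300 κ ρ ^ 2`. -/
theorem exists_cir (h : Hom S T P κ) (hκ0 : 0 < κ) (hκ1 : κ ≤ 1 / 10 ^ 6) (hn : 100 ≤ S.card) :
    ∃ (O : ℂ) (ρ M : ℝ), Cir S T P κ O ρ M := by
  classical
  have hn' : (100 : ℝ) ≤ S.card := by exact_mod_cast hn
  have hκn : κ * (S.card : ℝ) ≤ 1 / 10 ^ 6 * S.card := mul_le_mul_of_nonneg_right hκ1 (by linarith)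
  have hcT := cirE_cardT h
  have hTpos : (0 : ℝ) < T.card := by linarith
  have hTne : T.Nonempty := by
    rw [← Finset.card_pos]
    exact_mod_cast hTpos
  have hPne : P.Nonempty := by
    obtain ⟨x, hx⟩ := hTne
    by_contra hP
    rw [Finset.not_nonempty_iff_eq_empty] at hP
    have h1 := h.unp x hx
    have h2 : S.filter (fun y => y ≠ x ∧ dist x y ∉ P) = S.erase x := by
      ext z
      rw [mem_filter, mem_erase, hP]
      constructor
      · rintro ⟨ha, hb, _⟩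
        exact ⟨hb, ha⟩
      · rintro ⟨ha, hb⟩
        exact ⟨hb, ha, Finset.notMem_empty _⟩
    have h3 := Finset.card_erase_add_one (h.sub hx)
    rw [h2] at h1
    have h4 : ((S.erase x).card : ℝ) + 1 = (S.card : ℝ) := by exact_mod_cast h3
    linarith
  obtain ⟨M, hMP, hMmax⟩ : ∃ M ∈ P, ∀ D ∈ P, D ≤ M := ⟨P.max' hPne, P.max'_mem hPne, P.le_max'⟩
  have hM0 := h.P0 M hMP
  obtain ⟨C, hC⟩ := cirE_dev h hκ0 hκ1 hn hM0 hMmax
  obtain ⟨x₀, hx₀, y₀, hy₀, hxy⟩ := cirE_pair h hκ0 hκ1 hn hMP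
  obtain ⟨O, hO⟩ : ∃ O : ℂ, ∑ y ∈ T, (y - O) = 0 := by
    refine ⟨(∑ y ∈ T, y) / T.card, ?_⟩
    have h1 : (T.card : ℂ) ≠ 0 := by
      have h2 : T.card ≠ 0 := hTne.card_pos.ne'
      exact_mod_cast h2
    rw [Finset.sum_sub_distrib, Finset.sum_const, nsmul_eq_mul]
    field_simp
    ring
  obtain ⟨s, hs⟩ : ∃ s : ℝ, ∑ y ∈ T, ‖y - O‖ ^ 2 = T.card * s := by
    refine ⟨(∑ y ∈ T, ‖y - O‖ ^ 2) / T.card, ?_⟩
    field_simp
  have hs0 : 0 ≤ s := by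
    have h1 : 0 ≤ ∑ y ∈ T, ‖y - O‖ ^ 2 := Finset.sum_nonneg fun y _ => sq_nonneg _
    rw [hs] at h1
    exact (mul_nonneg_iff_of_pos_left hTpos).1 h1
  have hsum : ∀ x ∈ T, |(T.card : ℝ) * (‖x - O‖ ^ 2 + s) - C| ≤ 12 * (κ * S.card) * M ^ 2 := by
    intro x hx
    have h1 := hC x hx
    rw [cirE_sum_sq T O x hO, hs] at h1
    rwa [mul_add]
  have hmean : |2 * (T.card : ℝ) * s - C| ≤ 12 * (κ * S.card) * M ^ 2 := by
    have h1 : ∑ x ∈ T, ((T.card : ℝ) * (‖x - O‖ ^ 2 + s) - C) = T.card * (2 * (T.card : ℝ) * s - C) := by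
      rw [Finset.sum_sub_distrib, ← Finset.mul_sum, Finset.sum_add_distrib, hs, Finset.sum_const,
        Finset.sum_const, nsmul_eq_mul, nsmul_eq_mul]
      ring
    have h2 : |∑ x ∈ T, ((T.card : ℝ) * (‖x - O‖ ^ 2 + s) - C)| ≤
        ∑ x ∈ T, 12 * (κ * S.card) * M ^ 2 :=
      le_trans (Finset.abs_sum_le_sum_abs _ _) (Finset.sum_le_sum hsum)
    rw [h1, Finset.sum_const, nsmul_eq_mul, abs_mul, abs_of_pos hTpos] at h2
    exact le_of_mul_le_mul_left h2 hTpos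
  have hrad : ∀ x ∈ T, |‖x - O‖ ^ 2 - s| ≤ 25 * κ * M ^ 2 := by
    intro x hx
    have h1 := hsum x hx
    have h2 : |(T.card : ℝ) * (‖x - O‖ ^ 2 - s)| ≤ 24 * (κ * S.card) * M ^ 2 := by
      rw [abs_le] at h1 hmean ⊢
      constructor <;> nlinarith
    rw [abs_mul, abs_of_pos hTpos] at h2
    have h3 : 24 * (κ * S.card) * M ^ 2 ≤ T.card * (25 * κ * M ^ 2) := by
      have h4 : 24 * (S.card : ℝ) ≤ 25 * T.card := by linarith
      have h5 : 0 ≤ κ * M ^ 2 := by positivity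
      nlinarith
    exact le_of_mul_le_mul_left (h2.trans h3) hTpos
  have hκM : 0 < κ * M ^ 2 := by positivity
  have hM2 : M ^ 2 ≤ 4 * s + 100 * κ * M ^ 2 := by
    have h1 := hrad x₀ hx₀
    have h2 := hrad y₀ hy₀
    have h3 : M ≤ ‖x₀ - O‖ + ‖y₀ - O‖ := by
      rw [← hxy, ← dist_eq_norm, ← dist_eq_norm, dist_comm y₀ O]
      exact dist_triangle _ _ _
    rw [abs_le] at h1 h2
    have h4 := norm_nonneg (x₀ - O)
    have h5 := norm_nonneg (y₀ - O)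
    nlinarith [sq_nonneg (‖x₀ - O‖ - ‖y₀ - O‖)]
  have hκM2 : 100 * κ * M ^ 2 ≤ 1 / 10 ^ 4 * M ^ 2 := by
    have h1 : 100 * κ ≤ 1 / 10 ^ 4 := by
      have : (1 : ℝ) / 10 ^ 4 = 100 * (1 / 10 ^ 6) := by norm_num
      rw [this]
      linarith
    exact mul_le_mul_of_nonneg_right h1 (sq_nonneg M)
  have hM3 : M ^ 2 ≤ 404 / 100 * s := by nlinarith
  have hspos : 0 < s := by
    have : 0 < M ^ 2 := by positivity
    linarith
  have hsq : Real.sqrt s ^ 2 = s := Real.sq_sqrt hs0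
  refine ⟨O, Real.sqrt s, M, ⟨h, Real.sqrt_pos.2 hspos, hO, ?_, ?_, hMP, hMmax, ?_, ?_⟩⟩
  · intro x hx
    rw [hsq]
    refine (hrad x hx).trans ?_
    have h1 : κ * M ^ 2 ≤ κ * (404 / 100 * s) := mul_le_mul_of_nonneg_left hM3 hκ0.le
    nlinarith
  · rw [hsq, hs]
  · have h1 := Real.sqrt_nonneg s
    refine abs_le_of_sq_le_sq' ?_ (by positivity) |>.2
    rw [mul_pow, hsq]
    nlinarith
  · exact ⟨x₀, hx₀, y₀, hy₀, hxy⟩

end Pool.Agent.Lib.MP_0d8f69_coT
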