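import Mathlib

/-!
MP_0d8f69_co, theorem T: the values at the vertices are almost all equal (local version).
-/

set_option autoImplicit false

namespace Pool.Agent.Lib.MP_0d8f69_coT

open Finset

/-- Local version of `classes` (`MP_0d8f69_coZ/Cls.lean`, from which most of the proof can be copied).

Proof: let `W D` be the set of the `x ∈ VG` with `c x.1 x.2 = D`; `(W D).card ≤ n` by `hinj`. The sum over `D ∈ P` of
`n - (W D).card` is `P.card * n - VG.card ≤ 2 t h n`. Poor `D`: `n - (W D).card > η n`; there are at most `2 t h / η`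
poor `D`. So at most `t h n + (2 t h / η) n ≤ (1 / 40) h n` pairs `(i, s)`, `s ≤ h`, are not in `VG` with rich
distance (bad pairs). Take one pair `x0 ∈ VG` with rich distance, `v1 = V x0.1`, `v2 = V (x0.1 + x0.2)`: by
`hpair` all but `η n` of the vertices `i` have `V i = v1` or `V i = v2` (the first components of `W D0`). Now there are
`i` and `1 ≤ s < s' ≤ h` such that `(i, s)`, `(i, s')`, `(i + s, s' - s)` are not bad and `V i, V (i + s), V (i + s')`
are in `{v1, v2}`: the number of the triples `(i, s, s')` is `n h (h - 1) / 2 ≥ n h ^ 2 / 3`, and each of the first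
three conditions excludes at most `(1 / 40) n h * h` triples, each of the last three at most `η n h ^ 2 / 2`
(`η ≤ 1 / 20`). Two of the three values are equal, so there is a pair `y ∈ VG` with rich distance `D` and
`V y.1 = V (y.1 + y.2) = v`. By `hpair`, `V i = v` for all the first components `i` of `W D`, i.e. for all but `η n`
of the vertices. -/
theorem classesT {n : ℕ} [NeZero n] {c : ZMod n → ℕ → ℝ} {V : ZMod n → ℝ} {P : Finset ℝ}
    {VG : Finset (ZMod n × ℕ)} {h : ℕ} {t η : ℝ}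
    (hVG : VG ⊆ (Finset.univ : Finset (ZMod n)) ×ˢ Finset.Icc 1 h)
    (hP : ∀ x ∈ VG, c x.1 x.2 ∈ P)
    (hinj : ∀ i s s', (i, s) ∈ VG → (i, s') ∈ VG → c i s = c i s' → s = s')
    (hpair : ∀ x ∈ VG, ∀ y ∈ VG, c x.1 x.2 = c y.1 y.2 →
      (V x.1 = V y.1 ∧ V (x.1 + (x.2 : ZMod n)) = V (y.1 + (y.2 : ZMod n))) ∨
        (V x.1 = V (y.1 + (y.2 : ZMod n)) ∧ V (x.1 + (x.2 : ZMod n)) = V y.1))
    (hPc : (P.card : ℝ) ≤ (1 + t) * h) (hh3 : 3 ≤ h)
    (hbad : (((((Finset.univ : Finset (ZMod n)) ×ˢ Finset.Icc 1 h) \ VG).card : ℕ) : ℝ) ≤ t * h * n)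
    (ht0 : 0 < t) (hη0 : 0 < η) (hη1 : η ≤ 1 / 20) (htη : t ≤ η / 100) :
    ∃ v, (((Finset.univ : Finset (ZMod n)).filter (fun i => V i ≠ v)).card : ℝ) ≤ η * n := by
  classical
  have hn0 : (0 : ℝ) < n := by exact_mod_cast Nat.pos_of_ne_zero (NeZero.ne n)
  have hh0 : (0 : ℝ) < h := by exact_mod_cast (by omega : 0 < h)
  have hhn : (0 : ℝ) < h * n := mul_pos hh0 hn0
  -- fibres
  let W : ℝ → Finset (ZMod n × ℕ) := fun D => VG.filter (fun x => c x.1 x.2 = D)
  have hWcard : ∀ D, (W D).card = ((W D).image Prod.fst).card := by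
    intro D
    rw [Finset.card_image_of_injOn]
    intro x hx y hy hxy
    rw [Finset.mem_coe] at hx hy
    have hx' := mem_filter.1 hx
    have hy' := mem_filter.1 hy
    obtain ⟨i, s⟩ := x
    obtain ⟨j, s'⟩ := y
    simp only at hxy hx' hy'
    subst hxy
    have := hinj i s s' hx'.1 hy'.1 (by rw [hx'.2, hy'.2])
    rw [this]
  have hcu : (Finset.univ : Finset (ZMod n)).card = n := by rw [Finset.card_univ, ZMod.card]
  have hWn : ∀ D, (W D).card ≤ n := by
    intro D
    rw [hWcard D]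
    calc _ ≤ (Finset.univ : Finset (ZMod n)).card := Finset.card_le_card (Finset.subset_univ _)
      _ = n := hcu
  have hsumW : ∑ D ∈ P, (W D).card = VG.card :=
    (Finset.card_eq_sum_card_fiberwise (f := fun x : ZMod n × ℕ => c x.1 x.2) fun x hx =>
      Finset.mem_coe.2 (hP x (Finset.mem_coe.1 hx))).symm
  have hprod : ((Finset.univ : Finset (ZMod n)) ×ˢ Finset.Icc 1 h).card = n * h := by
    rw [Finset.card_product, hcu, Nat.card_Icc, Nat.add_sub_cancel]
  have hVGc : (n : ℝ) * h - t * h * n ≤ VG.card := by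
    have h1 := Finset.card_sdiff_add_card_eq_card hVG
    rw [hprod] at h1
    have h2 : (((((Finset.univ : Finset (ZMod n)) ×ˢ Finset.Icc 1 h) \ VG).card : ℕ) : ℝ) + VG.card = n * h := by
      exact_mod_cast h1
    linarith
  have hdef : ∑ D ∈ P, ((n : ℝ) - (W D).card) ≤ 2 * t * h * n := by
    rw [Finset.sum_sub_distrib, Finset.sum_const, nsmul_eq_mul]
    have h1 : ∑ D ∈ P, ((W D).card : ℝ) = VG.card := by exact_mod_cast hsumW
    rw [h1]
    have h2 : (P.card : ℝ) * n ≤ (1 + t) * h * n := mul_le_mul_of_nonneg_right hPc hn0.le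
    nlinarith
  -- poor distances
  set PO := P.filter (fun D => ¬ (n : ℝ) - (W D).card ≤ η * n) with hPO
  have hPOc : (PO.card : ℝ) ≤ h / 50 := by
    have h1 : η * n * (PO.card : ℝ) ≤ η * n * (h / 50) := by
      calc η * n * (PO.card : ℝ) = ∑ D ∈ PO, η * n := by rw [Finset.sum_const, nsmul_eq_mul]; ring
        _ ≤ ∑ D ∈ PO, ((n : ℝ) - (W D).card) := by
            refine Finset.sum_le_sum fun D hD => ?_
            exact (not_le.1 (mem_filter.1 hD).2).le
        _ ≤ ∑ D ∈ P, ((n : ℝ) - (W D).card) := by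
            refine Finset.sum_le_sum_of_subset_of_nonneg (Finset.filter_subset _ _) fun D _ _ => ?_
            have : ((W D).card : ℝ) ≤ n := by exact_mod_cast hWn D
            linarith
        _ ≤ 2 * t * h * n := hdef
        _ = t * (2 * (h * n)) := by ring
        _ ≤ η / 100 * (2 * (h * n)) := mul_le_mul_of_nonneg_right htη (by positivity)
        _ = η * n * (h / 50) := by ring
    exact le_of_mul_le_mul_left h1 (mul_pos hη0 hn0)
  -- good pairs: in `VG` with a rich distance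
  set NR := ((Finset.univ : Finset (ZMod n)) ×ˢ Finset.Icc 1 h).filter
    (fun x => ¬ (x ∈ VG ∧ c x.1 x.2 ∉ PO)) with hNR
  have hNRc : (NR.card : ℝ) ≤ h * n / 40 := by
    have h1 : NR ⊆ (((Finset.univ : Finset (ZMod n)) ×ˢ Finset.Icc 1 h) \ VG) ∪ PO.biUnion W := by
      intro x hx
      rw [hNR, mem_filter] at hx
      rw [mem_union, mem_sdiff]
      by_cases h2 : x ∈ VG
      · right
        rw [Finset.mem_biUnion]
        have h3 : c x.1 x.2 ∈ PO := by
          by_contra h4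
          exact hx.2 ⟨h2, h4⟩
        exact ⟨_, h3, mem_filter.2 ⟨h2, rfl⟩⟩
      · exact Or.inl ⟨hx.1, h2⟩
    have h2 := (Finset.card_le_card h1).trans (Finset.card_union_le _ _)
    have h3 : (PO.biUnion W).card ≤ PO.card * n :=
      Finset.card_biUnion_le_card_mul _ _ _ fun D _ => hWn D
    have h4 : (NR.card : ℝ) ≤ ((((Finset.univ : Finset (ZMod n)) ×ˢ Finset.Icc 1 h) \ VG).card : ℕ) +
        (PO.card : ℝ) * n := by
      exact_mod_cast h2.trans (Nat.add_le_add_left h3 _)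
    have h5 : (PO.card : ℝ) * n ≤ h / 50 * n := mul_le_mul_of_nonneg_right hPOc hn0.le
    have h6 : t * h * n ≤ 1 / 2000 * (h * n) := by
      calc t * h * n = t * (h * n) := by ring
        _ ≤ 1 / 2000 * (h * n) := mul_le_mul_of_nonneg_right (by linarith) hhn.le
    linarith
  -- a good pair
  obtain ⟨x0, hx0, hx0'⟩ : ∃ x0 ∈ VG, c x0.1 x0.2 ∉ PO := by
    by_contra hcon
    push Not at hcon
    have h1 : NR = (Finset.univ : Finset (ZMod n)) ×ˢ Finset.Icc 1 h := by
      rw [hNR, Finset.filter_eq_self]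
      rintro x _ ⟨h2, h3⟩
      exact h3 (hcon x h2)
    rw [h1, hprod] at hNRc
    push_cast at hNRc
    linarith
  -- every rich fibre misses at most `η n` vertices
  have hrich : ∀ D ∈ P, D ∉ PO → (((Finset.univ : Finset (ZMod n)).filter
      (fun i => i ∉ (W D).image Prod.fst)).card : ℝ) ≤ η * n := by
    intro D hD hDPO
    have h1 : (n : ℝ) - (W D).card ≤ η * n := by
      by_contra h2
      exact hDPO (mem_filter.2 ⟨hD, h2⟩)
    have h2 : (Finset.univ : Finset (ZMod n)).filter (fun i => i ∉ (W D).image Prod.fst) =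
        Finset.univ \ (W D).image Prod.fst := by
      ext i
      simp only [mem_filter, mem_sdiff, Finset.mem_univ, true_and]
    have h3 := Finset.card_sdiff_add_card_eq_card (Finset.subset_univ ((W D).image Prod.fst))
    rw [hcu, ← hWcard D] at h3
    rw [h2]
    have h4 : (((Finset.univ : Finset (ZMod n)) \ (W D).image Prod.fst).card : ℝ) + (W D).card = n := by
      exact_mod_cast h3
    linarith
  set v1 := V x0.1 with hv1
  set v2 := V (x0.1 + (x0.2 : ZMod n)) with hv2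
  -- all but `η n` vertices have the value `v1` or `v2`
  set B := (Finset.univ : Finset (ZMod n)).filter (fun i => V i ≠ v1 ∧ V i ≠ v2) with hB
  have htwo : (B.card : ℝ) ≤ η * n := by
    refine le_trans ?_ (hrich _ (hP x0 hx0) hx0')
    refine Nat.cast_le.2 (Finset.card_le_card ?_)
    intro i hi
    rw [hB, mem_filter] at hi
    rw [mem_filter]
    refine ⟨Finset.mem_univ _, fun h1 => ?_⟩
    obtain ⟨y, hy, rfl⟩ := Finset.mem_image.1 h1
    have hy' := mem_filter.1 hy
    rcases hpair y hy'.1 x0 hx0 hy'.2 with h2 | h2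
    · exact hi.2.1 h2.1
    · exact hi.2.2 h2.1
  -- a pair with equal values at the ends is enough
  have hfin : ∀ y ∈ VG, c y.1 y.2 ∉ PO → V y.1 = V (y.1 + (y.2 : ZMod n)) →
      ∃ v, (((Finset.univ : Finset (ZMod n)).filter (fun i => V i ≠ v)).card : ℝ) ≤ η * n := by
    intro y hy hyPO hyV
    refine ⟨V y.1, le_trans ?_ (hrich _ (hP y hy) hyPO)⟩
    refine Nat.cast_le.2 (Finset.card_le_card ?_)
    intro i hi
    rw [mem_filter] at hi ⊢
    refine ⟨Finset.mem_univ _, fun h1 => ?_⟩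
    obtain ⟨x, hx, rfl⟩ := Finset.mem_image.1 h1
    have hx' := mem_filter.1 hx
    rcases hpair x hx'.1 y hy hx'.2 with h2 | h2
    · exact hi.2 h2.1
    · exact hi.2 (h2.1.trans hyV.symm)
  by_contra hcon
  have hsep : ∀ x : ZMod n × ℕ, 1 ≤ x.2 → x.2 ≤ h → x ∉ NR → V x.1 ≠ V (x.1 + (x.2 : ZMod n)) := by
    intro x hx1 hx2 hxN hV
    have h1 : x ∈ VG ∧ c x.1 x.2 ∉ PO := by
      by_contra h2
      exact hxN (mem_filter.2 ⟨mem_product.2 ⟨Finset.mem_univ _, mem_Icc.2 ⟨hx1, hx2⟩⟩, h2⟩)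
    exact hcon (hfin x h1.1 h1.2 hV)
  -- triples
  set S := ((Icc 1 h) ×ˢ (Icc 1 h)).filter (fun p : ℕ × ℕ => p.1 < p.2) with hS
  have hmS : ∀ p : ℕ × ℕ, p ∈ S ↔ ((1 ≤ p.1 ∧ p.1 ≤ h) ∧ (1 ≤ p.2 ∧ p.2 ≤ h)) ∧ p.1 < p.2 := by
    intro p
    rw [hS, mem_filter, mem_product, mem_Icc, mem_Icc]
  have hSc : (h : ℝ) * h ≤ 3 * S.card := by
    have h1 : (Icc 1 h).offDiag ⊆ S ∪ S.image Prod.swap := by
      rintro ⟨a, b⟩ hab
      rw [mem_offDiag, mem_Icc, mem_Icc] at hab
      obtain ⟨h1, h2, h3⟩ := hab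
      simp only at h1 h2 h3
      rw [mem_union]
      rcases lt_or_gt_of_ne h3 with h4 | h4
      · left
        rw [hmS]
        exact ⟨⟨h1, h2⟩, h4⟩
      · right
        refine Finset.mem_image.2 ⟨(b, a), ?_, rfl⟩
        rw [hmS]
        exact ⟨⟨h2, h1⟩, h4⟩
    have h2 := (Finset.card_le_card h1).trans (Finset.card_union_le _ _)
    have h3 : (S.image Prod.swap).card ≤ S.card := Finset.card_image_le
    rw [Finset.offDiag_card, Nat.card_Icc, Nat.add_sub_cancel] at h2
    have h4 : h * h ≤ 3 * S.card := by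
      have h5 : 3 * h ≤ h * h := Nat.mul_le_mul_right h hh3
      omega
    exact_mod_cast h4
  set T := (Finset.univ : Finset (ZMod n)) ×ˢ S with hT
  have hTc : (T.card : ℝ) = n * S.card := by
    rw [hT, Finset.card_product, hcu]
    push_cast
    ring
  set E1 := T.filter (fun x => (x.1, x.2.1) ∈ NR) with hE1
  set E2 := T.filter (fun x => (x.1, x.2.2) ∈ NR) with hE2
  set E3 := T.filter (fun x => (x.1 + (x.2.1 : ZMod n), x.2.2 - x.2.1) ∈ NR) with hE3
  set E4 := T.filter (fun x => x.1 ∈ B) with hE4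
  set E5 := T.filter (fun x => x.1 + (x.2.1 : ZMod n) ∈ B) with hE5
  set E6 := T.filter (fun x => x.1 + (x.2.2 : ZMod n) ∈ B) with hE6
  have hmT : ∀ x : ZMod n × (ℕ × ℕ), x ∈ T ↔ x.2 ∈ S := by
    intro x
    rw [hT, mem_product]
    exact ⟨fun h => h.2, fun h => ⟨Finset.mem_univ _, h⟩⟩
  have hcover : T ⊆ (E1 ∪ (E2 ∪ E3)) ∪ (E4 ∪ (E5 ∪ E6)) := by
    rintro ⟨i, s, s'⟩ hx
    by_contra hno
    have n1 : (i, s) ∉ NR := fun hh =>
      hno (mem_union_left _ (mem_union_left _ (mem_filter.2 ⟨hx, hh⟩)))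
    have n2 : (i, s') ∉ NR := fun hh =>
      hno (mem_union_left _ (mem_union_right _ (mem_union_left _ (mem_filter.2 ⟨hx, hh⟩))))
    have n3 : (i + (s : ZMod n), s' - s) ∉ NR := fun hh =>
      hno (mem_union_left _ (mem_union_right _ (mem_union_right _ (mem_filter.2 ⟨hx, hh⟩))))
    have n4 : i ∉ B := fun hh =>
      hno (mem_union_right _ (mem_union_left _ (mem_filter.2 ⟨hx, hh⟩)))
    have n5 : i + (s : ZMod n) ∉ B := fun hh =>
      hno (mem_union_right _ (mem_union_right _ (mem_union_left _ (mem_filter.2 ⟨hx, hh⟩))))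
    have n6 : i + (s' : ZMod n) ∉ B := fun hh =>
      hno (mem_union_right _ (mem_union_right _ (mem_union_right _ (mem_filter.2 ⟨hx, hh⟩))))
    have hs := (hmS _).1 ((hmT _).1 hx)
    simp only at hs
    have k1 := hsep (i, s) hs.1.1.1 hs.1.1.2 n1
    have k2 := hsep (i, s') hs.1.2.1 hs.1.2.2 n2
    have k3 := hsep (i + (s : ZMod n), s' - s) (by simp only; omega) (by simp only; omega) n3
    simp only at k1 k2 k3
    have e : i + (s : ZMod n) + ((s' - s : ℕ) : ZMod n) = i + (s' : ZMod n) := by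
      rw [add_assoc, ← Nat.cast_add, Nat.add_sub_cancel' hs.2.le]
    rw [e] at k3
    have hBm : ∀ j, j ∉ B → V j = v1 ∨ V j = v2 := by
      intro j hj
      by_contra h1
      rw [not_or] at h1
      exact hj (mem_filter.2 ⟨Finset.mem_univ _, h1⟩)
    rcases hBm _ n4 with a1 | a1 <;> rcases hBm _ n5 with a2 | a2 <;> rcases hBm _ n6 with a3 | a3
    · exact k1 (a1.trans a2.symm)
    · exact k1 (a1.trans a2.symm)
    · exact k2 (a1.trans a3.symm)
    · exact k3 (a2.trans a3.symm)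
    · exact k3 (a2.trans a3.symm)
    · exact k2 (a1.trans a3.symm)
    · exact k1 (a1.trans a2.symm)
    · exact k1 (a1.trans a2.symm)
  have hNRh : (NR ×ˢ Icc 1 h).card = NR.card * h := by
    rw [Finset.card_product, Nat.card_Icc, Nat.add_sub_cancel]
  have c1 : E1.card ≤ NR.card * h := by
    rw [← hNRh]
    refine Finset.card_le_card_of_injOn (fun x => ((x.1, x.2.1), x.2.2)) ?_ ?_
    · intro x hx
      have hx' := mem_filter.1 (Finset.mem_coe.1 hx)
      have hs := (hmS _).1 ((hmT _).1 hx'.1)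
      exact Finset.mem_coe.2 (mem_product.2 ⟨hx'.2, mem_Icc.2 hs.1.2⟩)
    · rintro ⟨i, s, s'⟩ _ ⟨j, r, r'⟩ _ hxy
      simp only [Prod.mk.injEq] at hxy ⊢
      exact ⟨hxy.1.1, hxy.1.2, hxy.2⟩
  have c2 : E2.card ≤ NR.card * h := by
    rw [← hNRh]
    refine Finset.card_le_card_of_injOn (fun x => ((x.1, x.2.2), x.2.1)) ?_ ?_
    · intro x hx
      have hx' := mem_filter.1 (Finset.mem_coe.1 hx)
      have hs := (hmS _).1 ((hmT _).1 hx'.1)
      exact Finset.mem_coe.2 (mem_product.2 ⟨hx'.2, mem_Icc.2 hs.1.1⟩)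
    · rintro ⟨i, s, s'⟩ _ ⟨j, r, r'⟩ _ hxy
      simp only [Prod.mk.injEq] at hxy ⊢
      exact ⟨hxy.1.1, hxy.2, hxy.1.2⟩
  have c3 : E3.card ≤ NR.card * h := by
    rw [← hNRh]
    refine Finset.card_le_card_of_injOn
      (fun x => ((x.1 + (x.2.1 : ZMod n), x.2.2 - x.2.1), x.2.1)) ?_ ?_
    · intro x hx
      have hx' := mem_filter.1 (Finset.mem_coe.1 hx)
      have hs := (hmS _).1 ((hmT _).1 hx'.1)
      exact Finset.mem_coe.2 (mem_product.2 ⟨hx'.2, mem_Icc.2 hs.1.1⟩)
    · rintro ⟨i, s, s'⟩ hx ⟨j, r, r'⟩ hy hxy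
      have hx' := mem_filter.1 (Finset.mem_coe.1 hx)
      have hs := (hmS _).1 ((hmT _).1 hx'.1)
      have hy' := mem_filter.1 (Finset.mem_coe.1 hy)
      have hr := (hmS _).1 ((hmT _).1 hy'.1)
      simp only [Prod.mk.injEq] at hxy hs hr ⊢
      obtain ⟨⟨e1, e2⟩, e3⟩ := hxy
      subst e3
      exact ⟨add_right_cancel e1, rfl, by omega⟩
  have hBS : (B ×ˢ S).card = B.card * S.card := Finset.card_product _ _
  have c4 : E4.card ≤ B.card * S.card := by
    rw [← hBS]
    refine Finset.card_le_card fun x hx => ?_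
    have hx' := mem_filter.1 hx
    exact mem_product.2 ⟨hx'.2, (hmT _).1 hx'.1⟩
  have c5 : E5.card ≤ B.card * S.card := by
    rw [← hBS]
    refine Finset.card_le_card_of_injOn (fun x => (x.1 + (x.2.1 : ZMod n), x.2)) ?_ ?_
    · intro x hx
      have hx' := mem_filter.1 (Finset.mem_coe.1 hx)
      exact Finset.mem_coe.2 (mem_product.2 ⟨hx'.2, (hmT x).1 hx'.1⟩)
    · rintro ⟨i, s⟩ _ ⟨j, r⟩ _ hxy
      simp only [Prod.mk.injEq] at hxy ⊢
      obtain ⟨e1, e2⟩ := hxy
      subst e2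
      exact ⟨add_right_cancel e1, rfl⟩
  have c6 : E6.card ≤ B.card * S.card := by
    rw [← hBS]
    refine Finset.card_le_card_of_injOn (fun x => (x.1 + (x.2.2 : ZMod n), x.2)) ?_ ?_
    · intro x hx
      have hx' := mem_filter.1 (Finset.mem_coe.1 hx)
      exact Finset.mem_coe.2 (mem_product.2 ⟨hx'.2, (hmT x).1 hx'.1⟩)
    · rintro ⟨i, s⟩ _ ⟨j, r⟩ _ hxy
      simp only [Prod.mk.injEq] at hxy ⊢
      obtain ⟨e1, e2⟩ := hxy
      subst e2
      exact ⟨add_right_cancel e1, rfl⟩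
  have hall : T.card ≤ 3 * (NR.card * h) + 3 * (B.card * S.card) := by
    have u0 := Finset.card_le_card hcover
    have u1 := Finset.card_union_le (E1 ∪ (E2 ∪ E3)) (E4 ∪ (E5 ∪ E6))
    have u2 := Finset.card_union_le E1 (E2 ∪ E3)
    have u3 := Finset.card_union_le E2 E3
    have u4 := Finset.card_union_le E4 (E5 ∪ E6)
    have u5 := Finset.card_union_le E5 E6
    omega
  have hall' : (T.card : ℝ) ≤ 3 * (NR.card * h) + 3 * (B.card * S.card) := by exact_mod_cast hall
  rw [hTc] at hall'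
  have w1 : (NR.card : ℝ) * h ≤ h * n / 40 * h := mul_le_mul_of_nonneg_right hNRc hh0.le
  have w2 : (B.card : ℝ) * S.card ≤ 1 / 20 * n * S.card := by
    refine mul_le_mul_of_nonneg_right (htwo.trans ?_) (Nat.cast_nonneg _)
    exact mul_le_mul_of_nonneg_right hη1 hn0.le
  have w3 : (n : ℝ) * (h * h) ≤ n * (3 * S.card) := mul_le_mul_of_nonneg_left hSc hn0.le
  have w4 : 0 < (n : ℝ) * (h * h) := by positivity
  nlinarith

end Pool.Agent.Lib.MP_0d8f69_coT
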