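import Pool.Agent.Lib.MP_0d8f69_coT.HomD

/-!
MP_0d8f69_co, theorem T: the cones `CC`.
-/

set_option autoImplicit false

namespace Pool.Agent.Lib.MP_0d8f69_coT

open Finset Pool.Agent.Lib.MP_0d8f69_co Pool.Agent.Lib.MP_0d8f69_coI Pool.Agent.Lib.MP_0d8f69_coZ

/-- Lagrange identity -/
theorem dp_cr (v a b : ℂ) : (v.re ^ 2 + v.im ^ 2) * dp a b = dp v a * dp v b + cr v a * cr v b := by
  unfold dp cr; ring

theorem cr_cr (v a b : ℂ) : (v.re ^ 2 + v.im ^ 2) * cr a b = dp v a * cr v b - cr v a * dp v b := by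
  unfold dp cr; ring

theorem sq_norm_re_im (z : ℂ) : ‖z‖ ^ 2 = z.re ^ 2 + z.im ^ 2 := by
  rw [Complex.sq_norm, Complex.normSq_apply]
  ring

theorem cr_sq_dp_sq (v a : ℂ) :
    cr v a ^ 2 + dp v a ^ 2 = (v.re ^ 2 + v.im ^ 2) * (a.re ^ 2 + a.im ^ 2) := by
  unfold dp cr; ring

theorem re_im_sq_pos {v : ℂ} (hv : v ≠ 0) : 0 < v.re ^ 2 + v.im ^ 2 := by
  rw [← sq_norm_re_im]
  have := norm_pos_iff.2 hv
  positivity

theorem CC.add {σ : ℝ} {v a b : ℂ} (ha : CC σ v a) (hb : CC σ v b) : CC σ v (a + b) := by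
  unfold CC at *
  have e1 : dp v (a + b) = dp v a + dp v b := by
    unfold dp
    rw [Complex.add_re, Complex.add_im]
    ring
  have e2 : cr v (a + b) = cr v a + cr v b := by
    unfold cr
    rw [Complex.add_re, Complex.add_im]
    ring
  rw [e1, e2]
  have := abs_add_le (dp v a) (dp v b)
  linarith

theorem CC.cr_pos {σ : ℝ} (hσ : σ = 1 ∨ σ = -1) {v a : ℂ} (hv : v ≠ 0) (ha0 : a ≠ 0)
    (ha : CC σ v a) : 0 < σ * cr v a := by
  unfold CC at ha
  have h0 := abs_nonneg (dp v a)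
  have h1 : 0 ≤ σ * cr v a := by linarith
  rcases h1.lt_or_eq with h2 | h2
  · exact h2
  · exfalso
    rw [← h2, mul_zero] at ha
    have h3 : dp v a = 0 := abs_eq_zero.1 (le_antisymm ha h0)
    have h4 : cr v a = 0 := by
      rcases hσ with rfl | rfl
      · linarith
      · linarith
    have h5 := cr_sq_dp_sq v a
    rw [h3, h4] at h5
    have h6 := mul_pos (re_im_sq_pos hv) (re_im_sq_pos ha0)
    linarith

/-- Proof: `dp_cr`, `|dp v a| ≤ 0.9 σ cr v a`; `cr v a ≠ 0` since otherwise `dp v a = 0` and `a = 0`. -/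
theorem CC.dp_pos {σ : ℝ} (hσ : σ = 1 ∨ σ = -1) {v a b : ℂ} (hv : v ≠ 0) (ha0 : a ≠ 0) (hb0 : b ≠ 0)
    (ha : CC σ v a) (hb : CC σ v b) : 0 < dp a b := by
  have h1 := ha.cr_pos hσ hv ha0
  have h2 := hb.cr_pos hσ hv hb0
  unfold CC at ha hb
  have h3 := dp_cr v a b
  have h4 := mul_pos h1 h2
  have h5 : σ * cr v a * (σ * cr v b) = cr v a * cr v b := by
    rcases hσ with rfl | rfl <;> ring
  have h6 : |dp v a * dp v b| ≤ 9 / 10 * (σ * cr v a) * (9 / 10 * (σ * cr v b)) := by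
    rw [abs_mul]
    exact mul_le_mul ha hb (abs_nonneg _) (by linarith)
  have h7 := neg_abs_le (dp v a * dp v b)
  have h8 : 0 < (v.re ^ 2 + v.im ^ 2) * dp a b := by
    rw [h3, ← h5]
    nlinarith
  exact (mul_pos_iff_of_pos_left (re_im_sq_pos hv)).1 h8

/-- Proof: `cr a c • b = cr b c • a + cr a b • c`, a combination with positive coefficients times `σ`. -/
theorem CC.between {σ : ℝ} (hσ : σ = 1 ∨ σ = -1) {v a b c : ℂ} (ha : CC σ v a) (hc : CC σ v c)
    (hab : 0 < σ * cr a b) (hbc : 0 < σ * cr b c) (hac : 0 < σ * cr a c) : CC σ v b := by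
  unfold CC at *
  have hσ2 : σ * σ = 1 := by
    rcases hσ with rfl | rfl <;> norm_num
  have e1 : σ * cr a c * dp v b = σ * cr b c * dp v a + σ * cr a b * dp v c := by
    unfold cr dp
    ring
  have e2 : σ * cr a c * (σ * cr v b) = σ * cr b c * (σ * cr v a) + σ * cr a b * (σ * cr v c) := by
    unfold cr
    ring
  have h1 : |σ * cr a c * dp v b| = σ * cr a c * |dp v b| := by
    rw [abs_mul, abs_of_pos hac]
  have h2 := abs_add_le (σ * cr b c * dp v a) (σ * cr a b * dp v c)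
  rw [← e1, h1, abs_mul (σ * cr b c), abs_mul (σ * cr a b), abs_of_pos hbc, abs_of_pos hab] at h2
  have h3 := mul_le_mul_of_nonneg_left ha hbc.le
  have h4 := mul_le_mul_of_nonneg_left hc hab.le
  have h5 : σ * cr a c * |dp v b| ≤ σ * cr a c * (9 / 10 * (σ * cr v b)) := by
    calc σ * cr a c * |dp v b| ≤ σ * cr b c * |dp v a| + σ * cr a b * |dp v c| := h2
      _ ≤ σ * cr b c * (9 / 10 * (σ * cr v a)) + σ * cr a b * (9 / 10 * (σ * cr v c)) :=
        add_le_add h3 h4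
      _ = 9 / 10 * (σ * cr b c * (σ * cr v a) + σ * cr a b * (σ * cr v c)) := by ring
      _ = σ * cr a c * (9 / 10 * (σ * cr v b)) := by rw [← e2]; ring
  exact le_of_mul_le_mul_left h5 hac

/-- Proof: with `X = σ * cr v ·`, `Y = dp v ·` the hypotheses are `X b * Y a > X a * Y b` and `X c * Y b > X b * Y c`
(`cr_cr`), `|Y a| ≤ 0.9 X a`, `|Y c| ≤ 0.9 X c`, `X a, X c > 0`. If `X b > 0` then
`- 0.9 ≤ Y c / X c < Y b / X b < Y a / X a ≤ 0.9`; if `X b ≤ 0` then `|Y b| ≤ 0.9 |X b|` in the same way. -/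
theorem cone_mid {σ : ℝ} (hσ : σ = 1 ∨ σ = -1) {v a b c : ℂ} (hv : v ≠ 0) (ha : CC σ v a) (hc : CC σ v c)
    (hab : 0 < σ * cr a b) (hbc : 0 < σ * cr b c) : |dp v b| ≤ 9 / 10 * |cr v b| := by
  have ha0 : a ≠ 0 := by
    rintro rfl
    unfold cr at hab
    simp at hab
  have hc0 : c ≠ 0 := by
    rintro rfl
    unfold cr at hbc
    simp at hbc
  have h1 := ha.cr_pos hσ hv ha0
  have h2 := hc.cr_pos hσ hv hc0
  unfold CC at ha hc
  have hN := re_im_sq_pos hv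
  have habs : |σ * cr v b| = |cr v b| := by
    rcases hσ with rfl | rfl
    · rw [one_mul]
    · rw [neg_one_mul, abs_neg]
  have k1 : σ * cr v a * dp v b < dp v a * (σ * cr v b) := by
    have e := cr_cr v a b
    have := mul_pos hN hab
    have e2 : (v.re ^ 2 + v.im ^ 2) * (σ * cr a b) = dp v a * (σ * cr v b) - σ * cr v a * dp v b := by
      calc (v.re ^ 2 + v.im ^ 2) * (σ * cr a b) = σ * ((v.re ^ 2 + v.im ^ 2) * cr a b) := by ring
        _ = _ := by rw [e]; ring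
    linarith
  have k2 : dp v c * (σ * cr v b) < σ * cr v c * dp v b := by
    have e := cr_cr v b c
    have := mul_pos hN hbc
    have e2 : (v.re ^ 2 + v.im ^ 2) * (σ * cr b c) = dp v b * (σ * cr v c) - σ * cr v b * dp v c := by
      calc (v.re ^ 2 + v.im ^ 2) * (σ * cr b c) = σ * ((v.re ^ 2 + v.im ^ 2) * cr b c) := by ring
        _ = _ := by rw [e]; ring
    linarith
  have k3 : dp v a * (σ * cr v b) ≤ σ * cr v a * (9 / 10 * |cr v b|) := by
    calc dp v a * (σ * cr v b) ≤ |dp v a * (σ * cr v b)| := le_abs_self _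
      _ = |dp v a| * |cr v b| := by rw [abs_mul, habs]
      _ ≤ 9 / 10 * (σ * cr v a) * |cr v b| := mul_le_mul_of_nonneg_right ha (abs_nonneg _)
      _ = σ * cr v a * (9 / 10 * |cr v b|) := by ring
  have k4 : - (σ * cr v c * (9 / 10 * |cr v b|)) ≤ dp v c * (σ * cr v b) := by
    have : |dp v c * (σ * cr v b)| ≤ σ * cr v c * (9 / 10 * |cr v b|) := by
      calc |dp v c * (σ * cr v b)| = |dp v c| * |cr v b| := by rw [abs_mul, habs]
        _ ≤ 9 / 10 * (σ * cr v c) * |cr v b| := mul_le_mul_of_nonneg_right hc (abs_nonneg _)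
        _ = σ * cr v c * (9 / 10 * |cr v b|) := by ring
    have h3 := neg_abs_le (dp v c * (σ * cr v b))
    linarith
  rw [abs_le]
  constructor
  · refine le_of_mul_le_mul_left ?_ h2
    linarith
  · refine le_of_mul_le_mul_left ?_ h1
    linarith

/-- Proof: `dist p q' ^ 2 = dist p q ^ 2 + 2 dp (q - p) (q' - q) + dist q q' ^ 2`. -/
theorem dist_lt_of_dp {p q q' : ℂ} (h : 0 < dp (q - p) (q' - q)) : dist p q < dist p q' := by
  have h1 : dist p q ^ 2 < dist p q' ^ 2 := by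
    rw [dist_eq_norm, dist_eq_norm, sq_norm_re_im, sq_norm_re_im]
    unfold dp at h
    simp only [Complex.sub_re, Complex.sub_im] at h ⊢
    nlinarith [sq_nonneg (q'.re - q.re), sq_nonneg (q'.im - q.im)]
  exact lt_of_pow_lt_pow_left₀ 2 dist_nonneg h1

variable {S T : Finset ℂ} {P : Finset ℝ} {κ β ω : ℝ} {O : ℂ} {ρ r : ℝ}

theorem Geo.sep (g : Geo S T P κ β ω O ρ r) {p q w : ℂ} (hp : p ∈ T) (hpq : dist p q ≤ ρ / 20)
    (hw : |dp (p - O) w| ≤ 9 / 10 * |cr (p - O) w|) (hw0 : w ≠ 0) :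
    |cr (q - p) w| < |cr (p - O) w| := by
  have hN := re_im_sq_pos hw0
  have hρ := g.rho
  obtain ⟨hr, -⟩ := g.rad p hp
  have e1 := cr_sq_dp_sq (p - O) w
  have e2 := cr_sq_dp_sq (q - p) w
  rw [← sq_norm_re_im] at e1 e2
  have h1 : (999 / 1000 * ρ) ^ 2 ≤ ‖p - O‖ ^ 2 := pow_le_pow_left₀ (by positivity) hr 2
  have h2 : ‖q - p‖ ^ 2 ≤ (ρ / 20) ^ 2 := by
    refine pow_le_pow_left₀ (norm_nonneg _) ?_ 2
    rw [← dist_eq_norm, dist_comm]
    exact hpq
  have h3 : dp (p - O) w ^ 2 ≤ (9 / 10) ^ 2 * cr (p - O) w ^ 2 := by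
    have := pow_le_pow_left₀ (abs_nonneg _) hw 2
    rw [mul_pow, sq_abs, sq_abs] at this
    exact this
  have h4 : cr (q - p) w ^ 2 ≤ (ρ / 20) ^ 2 * (w.re ^ 2 + w.im ^ 2) := by
    have := mul_le_mul_of_nonneg_right h2 hN.le
    nlinarith [sq_nonneg (dp (q - p) w)]
  have h5 : (999 / 1000 * ρ) ^ 2 * (w.re ^ 2 + w.im ^ 2) ≤ 2 * cr (p - O) w ^ 2 := by
    have := mul_le_mul_of_nonneg_right h1 hN.le
    nlinarith [sq_nonneg (cr (p - O) w)]
  have h6 : 0 < ρ ^ 2 * (w.re ^ 2 + w.im ^ 2) := by positivity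
  have h7 : cr (q - p) w ^ 2 < cr (p - O) w ^ 2 := by nlinarith
  exact sq_lt_sq.1 h7

/-- Proof: `w ≠ 0`, `|cr (p - O) w| ≥ ‖p - O‖ ‖w‖ / 2` by `hw` and `dp_cr`, and
`|cr (q - O) w - cr (p - O) w| ≤ dist p q * ‖w‖ ≤ ρ / 20 * ‖w‖`. -/
theorem Geo.transfer (g : Geo S T P κ β ω O ρ r) {p q w : ℂ} (hp : p ∈ T) (hpq : dist p q ≤ ρ / 20)
    (hw : |dp (p - O) w| ≤ 9 / 10 * |cr (p - O) w|) {σ : ℝ} (hσ : σ = 1 ∨ σ = -1)
    (h : 0 < σ * cr (q - O) w) : 0 < σ * cr (p - O) w := by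
  have hw0 : w ≠ 0 := by
    rintro rfl
    unfold cr at h
    simp at h
  have h1 := g.sep hp hpq hw hw0
  have e : cr (q - O) w = cr (p - O) w + cr (q - p) w := by
    unfold cr
    simp only [Complex.sub_re, Complex.sub_im]
    ring
  rw [e] at h
  have h2 := abs_lt.1 h1
  rcases hσ with rfl | rfl
  · rw [one_mul] at h ⊢
    by_contra hcon
    push Not at hcon
    rw [abs_of_nonpos hcon] at h2
    linarith
  · by_contra hcon
    have h3 : 0 ≤ cr (p - O) w := by linarith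
    rw [abs_of_nonneg h3] at h2
    linarith

/-- Proof: as `Geo.transfer`, in the other direction (`w ≠ 0` since `0 < σ * cr (p - O) w`). -/
theorem Geo.transfer' (g : Geo S T P κ β ω O ρ r) {p q w : ℂ} (hp : p ∈ T) (hpq : dist p q ≤ ρ / 20)
    (hw : |dp (p - O) w| ≤ 9 / 10 * |cr (p - O) w|) {σ : ℝ} (hσ : σ = 1 ∨ σ = -1)
    (h : 0 < σ * cr (p - O) w) : 0 < σ * cr (q - O) w := by
  have hw0 : w ≠ 0 := by
    rintro rfl
    unfold cr at h
    simp at h
  have h1 := g.sep hp hpq hw hw0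
  have e : cr (q - O) w = cr (p - O) w + cr (q - p) w := by
    unfold cr
    simp only [Complex.sub_re, Complex.sub_im]
    ring
  rw [e]
  have h2 := abs_lt.1 h1
  rcases hσ with rfl | rfl
  · rw [one_mul] at h ⊢
    rw [abs_of_pos h] at h2
    linarith
  · have h3 : cr (p - O) w < 0 := by linarith
    rw [abs_of_neg h3] at h2
    linarith

end Pool.Agent.Lib.MP_0d8f69_coT
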