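import Pool.Agent.Lib.MP_0d8f69_coT.HomF

/-!
MP_0d8f69_co, theorem T: the directions between close typical points.
-/

set_option autoImplicit false

namespace Pool.Agent.Lib.MP_0d8f69_coT

open Finset Pool.Agent.Lib.MP_0d8f69_co Pool.Agent.Lib.MP_0d8f69_coI Pool.Agent.Lib.MP_0d8f69_coZ

variable {S T : Finset ℂ} {P : Finset ℝ} {κ : ℝ} {O : ℂ} {ρ M μ r : ℝ}

private theorem coneE_dp_add (a b c : ℂ) : dp a (b + c) = dp a b + dp a c := by
  simp only [dp, Complex.add_re, Complex.add_im]; ring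

private theorem coneE_dp_self (a : ℂ) : dp a a = ‖a‖ ^ 2 := by
  rw [← Complex.normSq_eq_norm_sq, Complex.normSq_apply, dp]

private theorem coneE_dp_cr_sq (a b : ℂ) : dp a b ^ 2 + cr a b ^ 2 = dp a a * dp b b := by
  simp only [dp, cr]; ring

private theorem coneE_dp_le {e a : ℂ} (he : dp e e = 1) : |dp e a| ≤ ‖a‖ := by
  have h1 := coneE_dp_cr_sq e a
  rw [he, one_mul, coneE_dp_self] at h1
  exact abs_le_of_sq_le_sq (by nlinarith [sq_nonneg (cr e a)]) (norm_nonneg a)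

/-- one side of the estimate -/
private theorem coneE_side {e v w : ℂ} {r ρ : ℝ} (hρ : 0 < ρ) (hr : 0 ≤ r) (he : dp e e = 1)
    (h1 : dp e w ≤ 2 * r) (h2 : 764 / 1000 * ρ ≤ dp e v) (h3 : dp v v ≤ 1002001 / 1000000 * ρ ^ 2)
    (h0 : 0 ≤ dp v w) : dp v w ≤ 263 / 100 * (r * ρ) + 847 / 1000 * |cr v w| := by
  have hid : dp v v * dp e w = dp e v * dp v w + cr v e * cr v w := by
    simp only [dp, cr]; ring
  have hcs : dp v e ^ 2 + cr v e ^ 2 = dp v v * dp e e := coneE_dp_cr_sq v e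
  have hcomm : dp v e = dp e v := by simp only [dp]; ring
  rw [hcomm, he, mul_one] at hcs
  have hsq : cr v e ^ 2 ≤ (647 / 1000 * ρ) ^ 2 := by
    have : (764 / 1000 * ρ) ^ 2 ≤ dp e v ^ 2 := pow_le_pow_left₀ (by positivity) h2 2
    nlinarith [sq_nonneg ρ]
  have hcr : |cr v e| ≤ 647 / 1000 * ρ := abs_le_of_sq_le_sq hsq (by positivity)
  have hvv : 0 ≤ dp v v := by rw [coneE_dp_self]; positivity
  have h5 : dp v v * dp e w ≤ 1002001 / 1000000 * ρ ^ 2 * (2 * r) := by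
    calc dp v v * dp e w ≤ dp v v * (2 * r) := mul_le_mul_of_nonneg_left h1 hvv
      _ ≤ 1002001 / 1000000 * ρ ^ 2 * (2 * r) := mul_le_mul_of_nonneg_right h3 (by linarith)
  have h6 : -(647 / 1000 * ρ * |cr v w|) ≤ cr v e * cr v w := by
    have h7 : |cr v e * cr v w| ≤ 647 / 1000 * ρ * |cr v w| := by
      rw [abs_mul]; exact mul_le_mul_of_nonneg_right hcr (abs_nonneg _)
    linarith [neg_abs_le (cr v e * cr v w)]
  have h8 : 764 / 1000 * ρ * dp v w ≤ dp e v * dp v w := mul_le_mul_of_nonneg_right h2 h0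
  have h9 : ρ * (764 / 1000 * dp v w) ≤ ρ * (2004002 / 1000000 * (r * ρ) + 647 / 1000 * |cr v w|) := by
    nlinarith
  have h10 := le_of_mul_le_mul_left h9 hρ
  have h11 : 0 ≤ r * ρ := by positivity
  have h12 := abs_nonneg (cr v w)
  linarith

/-- the last step -/
private theorem coneE_end {v w : ℂ} {r ρ : ℝ} (hρ : 0 < ρ) (hr : 0 ≤ r)
    (h1 : (999 / 1000 * ρ) ^ 2 ≤ dp v v) (h2 : 400 * r ≤ ‖w‖)
    (h3 : |dp v w| ≤ 263 / 100 * (r * ρ) + 847 / 1000 * |cr v w|) :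
    |dp v w| ≤ 9 / 10 * |cr v w| := by
  have h4 : (400 * r) ^ 2 ≤ dp w w := by
    rw [coneE_dp_self]; exact pow_le_pow_left₀ (by linarith) h2 2
  have h5 : (999 / 1000 * ρ) ^ 2 * (400 * r) ^ 2 ≤ dp v v * dp w w :=
    mul_le_mul h1 h4 (by positivity) (le_trans (by positivity) h1)
  have h6 : (999 / 1000 * ρ * (400 * r)) ^ 2 ≤ (|dp v w| + |cr v w|) ^ 2 := by
    have := coneE_dp_cr_sq v w
    have h7 : (|dp v w| + |cr v w|) ^ 2 = dp v w ^ 2 + cr v w ^ 2 + 2 * (|dp v w| * |cr v w|) := by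
      rw [add_sq, sq_abs, sq_abs]; ring
    have h8 : 0 ≤ |dp v w| * |cr v w| := by positivity
    rw [mul_pow, h7]; linarith
  have h9 : 999 / 1000 * ρ * (400 * r) ≤ |dp v w| + |cr v w| :=
    (le_abs_self _).trans (abs_le_of_sq_le_sq h6 (by positivity))
  have h12 := abs_nonneg (cr v w)
  linarith

private theorem coneE_exists (h : Rad S T P κ O ρ M μ r) (hκ1 : κ ≤ 1 / 10 ^ 8) (hr : r ≤ ρ / 10 ^ 6)
    (hM : 157 / 100 * ρ ≤ M) {x : ℂ} (hx : x ∈ T) : ∃ e : ℂ, dp e e = 1 ∧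
      (∀ z ∈ T, dp e (z - x) ≤ 2 * r) ∧ 784 / 1000 * ρ ≤ dp e (x - O) := by
  obtain ⟨y, hy, hD⟩ := h.far x hx
  have hρ := h.cir.rho
  have hr0 := h.r0
  have hD0 : 156 / 100 * ρ ≤ dist x y := by
    have : r ≤ ρ / 100 := hr.trans (by rw [div_le_div_iff₀ (by positivity) (by positivity)]; nlinarith)
    linarith
  have hDp : 0 < dist x y := by nlinarith
  set D := dist x y with hDdef
  have hff : dp (x - y) (x - y) = D ^ 2 := by
    rw [coneE_dp_self, hDdef, dist_eq_norm]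
  let e : ℂ := ⟨(x - y).re / D, (x - y).im / D⟩
  have heD : ∀ a : ℂ, dp e a = dp (x - y) a / D := by
    intro a
    simp only [dp, e]
    field_simp
  have hee : dp e e = 1 := by
    have h1 : dp e e = dp (x - y) (x - y) / (D * D) := by
      simp only [dp, e]
      field_simp
    rw [h1, hff]
    field_simp
  have hexy : dp e (x - y) = D := by
    rw [heD, hff]; field_simp
  refine ⟨e, hee, ?_, ?_⟩
  · intro z hz
    have h1 : dp e (z - y) ≤ ‖z - y‖ := (le_abs_self _).trans (coneE_dp_le hee)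
    have h2 : dp e (z - y) = dp e (z - x) + dp e (x - y) := by
      rw [← coneE_dp_add]; congr 1; ring
    have h3 := h.top z hz y hy
    rw [dist_eq_norm] at h3
    linarith
  · have h1 := abs_le.1 (h.cir.rad x hx)
    have h2 := abs_le.1 (h.cir.rad y hy)
    have h3 : 2 * dp (x - y) (x - O) = ‖x - O‖ ^ 2 - ‖y - O‖ ^ 2 + D ^ 2 := by
      rw [← hff, ← coneE_dp_self, ← coneE_dp_self]
      simp only [dp, Complex.sub_re, Complex.sub_im]; ring
    have h4 : κ * ρ ^ 2 ≤ 1 / 10 ^ 8 * ρ ^ 2 := mul_le_mul_of_nonneg_right hκ1 (sq_nonneg ρ)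
    rw [heD, le_div_iff₀ hDp]
    have h5 : 1569999 / 1000000 * ρ ≤ D := by
      have : r ≤ ρ / 1000000 := by simpa using hr.trans_eq (by norm_num)
      linarith
    have h6 : 1569999 / 1000000 * ρ * (D - 1568 / 1000 * ρ) ≤ D * (D - 1568 / 1000 * ρ) :=
      mul_le_mul_of_nonneg_right h5 (by linarith)
    have h7 : 1569999 / 1000000 * ρ * (1999 / 1000000 * ρ) ≤ 1569999 / 1000000 * ρ * (D - 1568 / 1000 * ρ) :=
      mul_le_mul_of_nonneg_left (by linarith) (by positivity)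
    nlinarith [sq_nonneg ρ]

/-- Proof. Let `v = p - O`. Let `y' ∈ T` with `M - r ≤ dist x y'` (`Rad.far`) and `e = (x - y') / ‖x - y'‖`. For all
`x' ∈ T`: `M + r ≥ dist x' y' ≥ dp e (x' - y') = dist x y' + dp e (x' - x)`, so `dp e (x' - x) ≤ 2 r`. Moreover
`dp e (x - O) = (‖x - O‖ ^ 2 - ‖y' - O‖ ^ 2 + dist x y' ^ 2) / (2 dist x y') ≥ dist x y' / 2 - 300 κ ρ ^ 2 / dist x y'
≥ 0.784 ρ`, so `dp e v ≥ 0.764 ρ` (`‖v - (x - O)‖ = dist p x ≤ ρ / 50`), and `‖v‖ ≤ 1.001 ρ`, so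
`|cr v e| ≤ 0.647 ρ` (`cr v e ^ 2 = ‖v‖ ^ 2 - dp v e ^ 2`). Put `w = y - x`. As
`‖v‖ ^ 2 dp e w = dp v e * dp v w + cr v e * cr v w`, `dp e w ≤ 2 r` gives, if `dp v w ≥ 0`:
`dp v w ≤ 2.63 r ρ + 0.847 |cr v w|`. The same construction at `y` instead of `x` (`dp e (x - y) ≤ 2 r`) gives the
same bound for `- dp v w` if `dp v w ≤ 0`. So `|dp v w| ≤ 2.63 r ρ + 0.847 |cr v w|`. Finally
`0.999 ρ * 400 r ≤ ‖v‖ ‖w‖ ≤ |dp v w| + |cr v w|`, so `r ρ ≤ (|dp v w| + |cr v w|) / 399`, and this gives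
`|dp v w| ≤ 0.9 |cr v w|`. -/
theorem cone (h : Rad S T P κ O ρ M μ r) (hκ0 : 0 < κ) (hκ1 : κ ≤ 1 / 10 ^ 8) (hr : r ≤ ρ / 10 ^ 6)
    (hM : 157 / 100 * ρ ≤ M) {p x y : ℂ} (hp : p ∈ T) (hx : x ∈ T) (hy : y ∈ T) (hpx : dist p x ≤ ρ / 50)
    (hpy : dist p y ≤ ρ / 50) (hxy : 400 * r ≤ dist x y) :
    |dp (p - O) (y - x)| ≤ 9 / 10 * |cr (p - O) (y - x)| := by
  have hρ := h.cir.rho
  have hr0 := h.r0
  have h4 : κ * ρ ^ 2 ≤ 1 / 10 ^ 8 * ρ ^ 2 := mul_le_mul_of_nonneg_right hκ1 (sq_nonneg ρ)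
  have hv := abs_le.1 (h.cir.rad p hp)
  rw [← coneE_dp_self] at hv
  have hv1 : dp (p - O) (p - O) ≤ 1002001 / 1000000 * ρ ^ 2 := by nlinarith [sq_nonneg ρ]
  have hv2 : (999 / 1000 * ρ) ^ 2 ≤ dp (p - O) (p - O) := by nlinarith [sq_nonneg ρ]
  have hgen : ∀ z ∈ T, dist p z ≤ ρ / 50 → ∃ e : ℂ, dp e e = 1 ∧ (∀ z' ∈ T, dp e (z' - z) ≤ 2 * r) ∧
      764 / 1000 * ρ ≤ dp e (p - O) := by
    intro z hz hpz
    obtain ⟨e, he1, he2, he3⟩ := coneE_exists h hκ1 hr hM hz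
    refine ⟨e, he1, he2, ?_⟩
    have h5 : dp e (p - O) = dp e (z - O) + dp e (p - z) := by
      rw [← coneE_dp_add]; congr 1; ring
    have h6 : |dp e (p - z)| ≤ ‖p - z‖ := coneE_dp_le he1
    rw [dist_eq_norm] at hpz
    have h7 := neg_abs_le (dp e (p - z))
    linarith
  refine coneE_end hρ hr0.le hv2 (by rw [dist_comm, dist_eq_norm] at hxy; exact hxy) ?_
  rcases le_total 0 (dp (p - O) (y - x)) with hs | hs
  · obtain ⟨e, he1, he2, he3⟩ := hgen x hx hpx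
    rw [abs_of_nonneg hs]
    exact coneE_side hρ hr0.le he1 (he2 y hy) he3 hv1 hs
  · obtain ⟨e, he1, he2, he3⟩ := hgen y hy hpy
    have h8 : dp (p - O) (x - y) = - dp (p - O) (y - x) := by
      simp only [dp, Complex.sub_re, Complex.sub_im]; ring
    have h9 : cr (p - O) (x - y) = - cr (p - O) (y - x) := by
      simp only [cr, Complex.sub_re, Complex.sub_im]; ring
    have h10 := coneE_side hρ hr0.le he1 (he2 x hx) he3 hv1 (by rw [h8]; linarith)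
    rw [h8, h9, abs_neg] at h10
    rw [abs_of_nonpos hs]
    exact h10

end Pool.Agent.Lib.MP_0d8f69_coT
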