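import Mathlib

/-!
MP_0d8f69_co, theorem T: a covering argument.
-/

set_option autoImplicit false

namespace Pool.Agent.Lib.MP_0d8f69_coT

open Finset

private theorem grid_floor {a b s : ℝ} (hs : 0 < s) (h : ⌊a / s⌋ = ⌊b / s⌋) : |a - b| ≤ s := by
  have h1 := Int.floor_le (a / s)
  have h2 := Int.lt_floor_add_one (a / s)
  have h3 := Int.floor_le (b / s)
  have h4 := Int.lt_floor_add_one (b / s)
  rw [h] at h1 h2
  have h5 : a / s - b / s ≤ 1 := by linarith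
  have h6 : -1 ≤ a / s - b / s := by linarith
  rw [← sub_div] at h5 h6
  rw [div_le_one hs] at h5
  rw [le_div_iff₀ hs] at h6
  rw [abs_le]
  constructor <;> linarith

private theorem grid_mem {a R s : ℝ} (hs : 0 < s) (h : |a| ≤ R) :
    ⌊a / s⌋ ∈ Finset.Icc ⌊-(R / s)⌋ ⌊R / s⌋ := by
  rw [abs_le] at h
  rw [Finset.mem_Icc]
  constructor
  · apply Int.floor_le_floor
    rw [← neg_div]
    exact div_le_div_of_nonneg_right h.1 hs.le
  · apply Int.floor_le_floor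
    exact div_le_div_of_nonneg_right h.2 hs.le

/-- Proof: map `y ∈ A` to `(⌊(y.re - c.re) / s⌋, ⌊(y.im - c.im) / s⌋) ∈ ℤ × ℤ`. The image is in the square of the
integers between `-R / s - 1` and `R / s`, which has at most `(2 R / s + 2) ^ 2` elements; two points of the same
fibre are at distance `≤ √2 s ≤ 3 s / 2`, so every fibre has at most `m` elements
(`Finset.card_le_mul_card_image`). -/
theorem grid {A : Finset ℂ} {c : ℂ} {R s m : ℝ} (hs : 0 < s) (hR : 0 ≤ R) (hm : 0 ≤ m)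
    (hA : ∀ y ∈ A, dist y c ≤ R)
    (hf : ∀ x ∈ A, ((A.filter (fun y => dist x y ≤ 3 / 2 * s)).card : ℝ) ≤ m) :
    (A.card : ℝ) ≤ (2 * R / s + 2) ^ 2 * m := by
  classical
  let f : ℂ → ℤ × ℤ := fun y => (⌊(y.re - c.re) / s⌋, ⌊(y.im - c.im) / s⌋)
  have himg : A.image f ⊆ Finset.Icc ⌊-(R / s)⌋ ⌊R / s⌋ ×ˢ Finset.Icc ⌊-(R / s)⌋ ⌊R / s⌋ := by
    intro z hz
    obtain ⟨y, hy, rfl⟩ := Finset.mem_image.1 hz
    have h1 := hA y hy
    rw [Complex.dist_eq] at h1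
    have h2 : |y.re - c.re| ≤ R := by
      have := Complex.abs_re_le_norm (y - c)
      rw [Complex.sub_re] at this
      linarith
    have h3 : |y.im - c.im| ≤ R := by
      have := Complex.abs_im_le_norm (y - c)
      rw [Complex.sub_im] at this
      linarith
    exact Finset.mem_product.2 ⟨grid_mem hs h2, grid_mem hs h3⟩
  have hcard : ((A.image f).card : ℝ) ≤ (2 * R / s + 2) ^ 2 := by
    have h1 : ((A.image f).card : ℝ) ≤ ((Finset.Icc ⌊-(R / s)⌋ ⌊R / s⌋).card : ℝ) *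
        ((Finset.Icc ⌊-(R / s)⌋ ⌊R / s⌋).card : ℝ) := by
      rw [← Nat.cast_mul, ← Finset.card_product]
      exact_mod_cast Finset.card_le_card himg
    have h0 : 0 ≤ R / s := div_nonneg hR hs.le
    have h2 : ((Finset.Icc ⌊-(R / s)⌋ ⌊R / s⌋).card : ℝ) ≤ 2 * R / s + 2 := by
      rw [Int.card_Icc]
      have h3 : ⌊-(R / s)⌋ ≤ ⌊R / s⌋ := Int.floor_le_floor (by linarith)
      have h4 : (((⌊R / s⌋ + 1 - ⌊-(R / s)⌋).toNat : ℕ) : ℤ) = ⌊R / s⌋ + 1 - ⌊-(R / s)⌋ :=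
        Int.toNat_of_nonneg (by omega)
      have h5 : (((⌊R / s⌋ + 1 - ⌊-(R / s)⌋).toNat : ℕ) : ℝ) =
          (⌊R / s⌋ : ℝ) + 1 - (⌊-(R / s)⌋ : ℝ) := by
        exact_mod_cast congrArg (fun z : ℤ => (z : ℝ)) h4
      rw [h5]
      have h6 := Int.floor_le (R / s)
      have h7 := Int.lt_floor_add_one (-(R / s))
      have h8 : 2 * R / s = R / s + R / s := by ring
      rw [h8]
      linarith
    have h9 : (0 : ℝ) ≤ ((Finset.Icc ⌊-(R / s)⌋ ⌊R / s⌋).card : ℝ) := Nat.cast_nonneg _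
    calc ((A.image f).card : ℝ) ≤ _ := h1
      _ ≤ (2 * R / s + 2) * (2 * R / s + 2) := mul_le_mul h2 h2 h9 (h9.trans h2)
      _ = (2 * R / s + 2) ^ 2 := by ring
  have hfib : ∀ z ∈ A.image f, (A.filter (fun y => f y = z)).card ≤ ⌊m⌋₊ := by
    intro z hz
    obtain ⟨x, hx, rfl⟩ := Finset.mem_image.1 hz
    apply Nat.le_floor
    refine le_trans ?_ (hf x hx)
    rw [Nat.cast_le]
    apply Finset.card_le_card
    intro y hy
    rw [Finset.mem_filter] at hy ⊢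
    refine ⟨hy.1, ?_⟩
    have h1 : ⌊(y.re - c.re) / s⌋ = ⌊(x.re - c.re) / s⌋ := congrArg Prod.fst hy.2
    have h2 : ⌊(y.im - c.im) / s⌋ = ⌊(x.im - c.im) / s⌋ := congrArg Prod.snd hy.2
    have h3 := grid_floor hs h1
    have h4 := grid_floor hs h2
    rw [Complex.dist_eq_re_im]
    rw [Real.sqrt_le_left (by positivity)]
    have e1 : (x.re - y.re) ^ 2 ≤ s ^ 2 := by
      rw [sq_le_sq, abs_of_pos hs]
      have : x.re - y.re = -((y.re - c.re) - (x.re - c.re)) := by ring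
      rw [this, abs_neg]
      exact h3
    have e2 : (x.im - y.im) ^ 2 ≤ s ^ 2 := by
      rw [sq_le_sq, abs_of_pos hs]
      have : x.im - y.im = -((y.im - c.im) - (x.im - c.im)) := by ring
      rw [this, abs_neg]
      exact h4
    nlinarith [sq_nonneg s]
  have h10 := Finset.card_le_mul_card_image A ⌊m⌋₊ hfib
  have h11 : (A.card : ℝ) ≤ (⌊m⌋₊ : ℝ) * ((A.image f).card : ℝ) := by exact_mod_cast h10
  calc (A.card : ℝ) ≤ (⌊m⌋₊ : ℝ) * ((A.image f).card : ℝ) := h11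
    _ ≤ m * (2 * R / s + 2) ^ 2 :=
      mul_le_mul (Nat.floor_le hm) hcard (Nat.cast_nonneg _) hm
    _ = (2 * R / s + 2) ^ 2 * m := by ring

end Pool.Agent.Lib.MP_0d8f69_coT
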