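import Pool.Agent.Lib.MP_0d8f69_coT.HomF

/-!
MP_0d8f69_co, theorem T: lower bound for the largest popular distance.
-/

set_option autoImplicit false

namespace Pool.Agent.Lib.MP_0d8f69_coT

open Finset Pool.Agent.Lib.MP_0d8f69_co Pool.Agent.Lib.MP_0d8f69_coI Pool.Agent.Lib.MP_0d8f69_coZ

variable {S T : Finset ℂ} {P : Finset ℝ} {κ : ℝ} {O : ℂ} {ρ M μ r : ℝ}

private theorem MgeE_sq (z : ℂ) : ‖z‖ ^ 2 = z.re ^ 2 + z.im ^ 2 := by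
  rw [Complex.sq_norm, Complex.normSq_apply]
  ring

private theorem MgeE_dp (x y O : ℂ) :
    2 * dp (x - O) (y - O) = ‖x - O‖ ^ 2 + ‖y - O‖ ^ 2 - dist x y ^ 2 := by
  rw [dist_eq_norm, MgeE_sq, MgeE_sq, MgeE_sq, dp]
  simp only [Complex.sub_re, Complex.sub_im]
  ring

private theorem MgeE_bar {T : Finset ℂ} {O : ℂ} (h : ∑ y ∈ T, (y - O) = 0) (x : ℂ) :
    ∑ y ∈ T, dp (x - O) (y - O) = 0 := by
  have h1 : ∑ y ∈ T, (y - O).re = 0 := by rw [← Complex.re_sum, h, Complex.zero_re]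
  have h2 : ∑ y ∈ T, (y - O).im = 0 := by rw [← Complex.im_sum, h, Complex.zero_im]
  simp only [dp]
  rw [Finset.sum_add_distrib, ← Finset.mul_sum, ← Finset.mul_sum, h1, h2]
  ring

private theorem MgeE_two (T : Finset ℂ) (O : ℂ) :
    (∑ x ∈ T, ‖x - O‖ ^ 2) ^ 2 ≤ 2 * ∑ x ∈ T, ∑ y ∈ T, dp (x - O) (y - O) ^ 2 := by
  set a : ℝ := ∑ x ∈ T, (x - O).re ^ 2 with ha
  set b : ℝ := ∑ x ∈ T, (x - O).re * (x - O).im with hb
  set d : ℝ := ∑ x ∈ T, (x - O).im ^ 2 with hd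
  have h1 : ∑ x ∈ T, ‖x - O‖ ^ 2 = a + d := by
    rw [ha, hd, ← Finset.sum_add_distrib]
    exact Finset.sum_congr rfl fun x _ => MgeE_sq _
  have h2 : ∑ x ∈ T, ∑ y ∈ T, dp (x - O) (y - O) ^ 2 = a * a + 2 * (b * b) + d * d := by
    have e1 : a * a = ∑ x ∈ T, ∑ y ∈ T, (x - O).re ^ 2 * (y - O).re ^ 2 := by
      rw [ha, Finset.sum_mul_sum]
    have e2 : b * b = ∑ x ∈ T, ∑ y ∈ T, ((x - O).re * (x - O).im) * ((y - O).re * (y - O).im) := by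
      rw [hb, Finset.sum_mul_sum]
    have e3 : d * d = ∑ x ∈ T, ∑ y ∈ T, (x - O).im ^ 2 * (y - O).im ^ 2 := by
      rw [hd, Finset.sum_mul_sum]
    rw [e1, e2, e3, Finset.mul_sum, ← Finset.sum_add_distrib, ← Finset.sum_add_distrib]
    refine Finset.sum_congr rfl fun x _ => ?_
    rw [Finset.mul_sum, ← Finset.sum_add_distrib, ← Finset.sum_add_distrib]
    refine Finset.sum_congr rfl fun y _ => ?_
    rw [dp]
    ring
  rw [h1, h2]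
  nlinarith [sq_nonneg (a - d), sq_nonneg b]

/-- Proof. Put `v x = x - O`. By `Cir.bar`, `∑ y ∈ T, dp (v x) (v y) = 0` for every `x`. For `x, y ∈ T`,
`dp (v x) (v y) = (‖v x‖ ^ 2 + ‖v y‖ ^ 2 - dist x y ^ 2) / 2 ≥ (1 - 300 κ) ρ ^ 2 - (M + r) ^ 2 / 2 =: - c ρ ^ 2`.
If `c < 0` all the `dp` are positive, a contradiction (`T` is nonempty by `Cir.M4`). Otherwise
`∑ y, |dp (v x) (v y)| ≤ 2 c ρ ^ 2 T.card` (as `|t| ≤ t + 2 c ρ ^ 2`), and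
`dp (v x) (v y) ^ 2 ≤ (1 + 300 κ) ρ ^ 2 |dp (v x) (v y)|`. On the other hand
`∑ x, ∑ y, dp (v x) (v y) ^ 2 = a ^ 2 + 2 b ^ 2 + d ^ 2 ≥ (a + d) ^ 2 / 2 = (T.card ρ ^ 2) ^ 2 / 2`, where
`a = ∑ (v x).re ^ 2`, `b = ∑ (v x).re (v x).im`, `d = ∑ (v x).im ^ 2` (`Cir.avg`). So
`1 / 2 ≤ 2 c (1 + 300 κ)`, `c ≥ 0.2499`, `(M + r) ^ 2 ≥ 2.499 ρ ^ 2`, `M + r ≥ 1.58 ρ`. -/
theorem M_ge (h : Rad S T P κ O ρ M μ r) (hκ0 : 0 < κ) (hκ1 : κ ≤ 1 / 10 ^ 8) (hr : r ≤ ρ / 10 ^ 6) :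
    157 / 100 * ρ ≤ M := by
  by_contra hcon
  push Not at hcon
  have hρ := h.cir.rho
  have hM0 : 0 < M := h.cir.hom.P0 M h.cir.M1
  have hr0 := h.r0
  obtain ⟨x0, hx0, -⟩ := h.cir.M4
  have hTc : (1 : ℝ) ≤ T.card := by exact_mod_cast Finset.card_pos.2 ⟨x0, hx0⟩
  have hρ2 : 0 < ρ ^ 2 := by positivity
  have hMr : (M + r) ^ 2 ≤ 2465 / 1000 * ρ ^ 2 := by
    have h1 : M + r ≤ 157001 / 100000 * ρ := by linarith
    have h2 : (M + r) ^ 2 ≤ (157001 / 100000 * ρ) ^ 2 := pow_le_pow_left₀ (by linarith) h1 2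
    nlinarith
  have hk : 300 * κ * ρ ^ 2 ≤ 3 / 10 ^ 6 * ρ ^ 2 := mul_le_mul_of_nonneg_right (by linarith) hρ2.le
  have hrad : ∀ x ∈ T, ‖x - O‖ ^ 2 ≤ (1 + 3 / 10 ^ 6) * ρ ^ 2 ∧ (1 - 3 / 10 ^ 6) * ρ ^ 2 ≤ ‖x - O‖ ^ 2 := by
    intro x hx
    have h1 := abs_le.1 (h.cir.rad x hx)
    exact ⟨by linarith [h1.2], by linarith [h1.1]⟩
  have hlow : ∀ x ∈ T, ∀ y ∈ T, -(233 / 1000 * ρ ^ 2) ≤ dp (x - O) (y - O) := by
    intro x hx y hy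
    have h1 := MgeE_dp x y O
    have h2 := (hrad x hx).2
    have h3 := (hrad y hy).2
    have h4 : dist x y ^ 2 ≤ (M + r) ^ 2 := pow_le_pow_left₀ dist_nonneg (h.top x hx y hy) 2
    nlinarith
  have habs : ∀ x ∈ T, ∀ y ∈ T, |dp (x - O) (y - O)| ≤ dp (x - O) (y - O) + 2 * (233 / 1000 * ρ ^ 2) := by
    intro x hx y hy
    have h1 := hlow x hx y hy
    rw [abs_le]
    constructor <;> linarith
  have hup : ∀ x ∈ T, ∀ y ∈ T, |dp (x - O) (y - O)| ≤ (1 + 3 / 10 ^ 6) * ρ ^ 2 := by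
    intro x hx y hy
    have h1 := MgeE_sq (x - O)
    have h2 := MgeE_sq (y - O)
    have h3 := (hrad x hx).1
    have h4 := (hrad y hy).1
    rw [abs_le, dp]
    constructor
    · nlinarith [sq_nonneg ((x - O).re + (y - O).re), sq_nonneg ((x - O).im + (y - O).im)]
    · nlinarith [sq_nonneg ((x - O).re - (y - O).re), sq_nonneg ((x - O).im - (y - O).im)]
  have hsum : ∀ x ∈ T, ∑ y ∈ T, dp (x - O) (y - O) ^ 2 ≤
      (1 + 3 / 10 ^ 6) * ρ ^ 2 * (2 * (233 / 1000 * ρ ^ 2) * T.card) := by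
    intro x hx
    have h1 : ∀ y ∈ T, dp (x - O) (y - O) ^ 2 ≤
        (1 + 3 / 10 ^ 6) * ρ ^ 2 * (dp (x - O) (y - O) + 2 * (233 / 1000 * ρ ^ 2)) := by
      intro y hy
      have h2 : dp (x - O) (y - O) ^ 2 = |dp (x - O) (y - O)| * |dp (x - O) (y - O)| := by
        rw [abs_mul_abs_self]
        ring
      rw [h2]
      exact mul_le_mul (hup x hx y hy) (habs x hx y hy) (abs_nonneg _) (by positivity)
    refine (Finset.sum_le_sum h1).trans (le_of_eq ?_)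
    rw [← Finset.mul_sum, Finset.sum_add_distrib, MgeE_bar h.cir.bar, Finset.sum_const, nsmul_eq_mul]
    ring
  have hall := MgeE_two T O
  rw [h.cir.avg] at hall
  have h5 : ∑ x ∈ T, ∑ y ∈ T, dp (x - O) (y - O) ^ 2 ≤
      (T.card : ℝ) * ((1 + 3 / 10 ^ 6) * ρ ^ 2 * (2 * (233 / 1000 * ρ ^ 2) * T.card)) := by
    refine (Finset.sum_le_sum hsum).trans (le_of_eq ?_)
    rw [Finset.sum_const, nsmul_eq_mul]
  have h6 : 0 < ((T.card : ℝ) * ρ ^ 2) ^ 2 := by positivity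
  have h7 : (T.card : ℝ) * ((1 + 3 / 10 ^ 6) * ρ ^ 2 * (2 * (233 / 1000 * ρ ^ 2) * T.card)) =
      ((1 + 3 / 10 ^ 6) * (466 / 1000)) * ((T.card : ℝ) * ρ ^ 2) ^ 2 := by ring
  rw [h7] at h5
  nlinarith

end Pool.Agent.Lib.MP_0d8f69_coT
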