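import Pool.Agent.Lib.MP_0d8f69_coT.HomF

/-!
MP_0d8f69_co, theorem T: the largest distances.
-/

set_option autoImplicit false

namespace Pool.Agent.Lib.MP_0d8f69_coT

open Finset Pool.Agent.Lib.MP_0d8f69_co Pool.Agent.Lib.MP_0d8f69_coI Pool.Agent.Lib.MP_0d8f69_coZ

variable {S T : Finset ℂ} {P : Finset ℝ} {κ : ℝ} {O : ℂ} {ρ M : ℝ}

/-- Proof. `n = S.card`, `P.card ≥ (n - 1 - 2 κ n) / 2 ≥ n / 4` (from `cnt_ge`/`cnt_le` with `R = M`, or `Hom.typ` and
`Hom.unp` for one `x ∈ T`). Let `r` be the smallest `D ∈ P` with `μ n ≤ NP P D` (it exists since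
`NP P M = P.card`); then `NP P s < μ n` for `s < r`.
`top`: if `dist x y > M + r`, then the at least `2 μ n - 3 κ n > κ n` points `y' ∈ T` with `dist y y' ≤ r` have
`dist x y' > M`, so their distance from `x` is not popular, a contradiction to `Hom.unp`.
`far`: let `x0, y0 ∈ T` with `dist x0 y0 = M` (`Cir.M4`). At least `2 μ n - 3 κ n` points `y'` of `T` have
`dist y0 y' ≤ r`, hence `dist x0 y' ≥ M - r` (at most one of them is `x0`); by `cntf_le` there are at least
`μ n - 3 κ n - 1` popular distances `≥ M - r`, and then by `cntfT_ge` every `x ∈ T` has a `y ∈ T` with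
`dist x y ≥ M - r`, as `2 (μ n - 3 κ n - 1) - 3 κ n > 0`. -/
theorem exists_rad (h : Cir S T P κ O ρ M) (hκ0 : 0 < κ) {μ : ℝ} (hμ1 : μ ≤ 1 / 10) (hκ1 : 100 * κ ≤ μ)
    (hn : 100 ≤ κ * S.card) : ∃ r : ℝ, Rad S T P κ O ρ M μ r := by
  have hom : Hom S T P κ := h.hom
  obtain ⟨x0, hx0, y0, hy0, hM⟩ := h.M4
  have hnn : (0 : ℝ) ≤ (S.card : ℝ) := Nat.cast_nonneg _
  have hn0 : (0 : ℝ) < (S.card : ℝ) := by
    rcases hnn.lt_or_eq with h1 | h1
    · exact h1
    · rw [← h1, mul_zero] at hn
      linarith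
  have hμn : 100 * (κ * S.card) ≤ μ * S.card := by
    have := mul_le_mul_of_nonneg_right hκ1 hnn
    linarith
  have hμn10 : μ * S.card ≤ 1 / 10 * S.card := mul_le_mul_of_nonneg_right hμ1 hnn
  have hMpos : 0 < M := hom.P0 M h.M1
  have hPc : (S.card : ℝ) - 1 - 2 * (κ * S.card) ≤ 2 * (P.card : ℝ) := by
    have h1 := hom.cntf_le hx0 0
    have e1 : (S.erase x0).filter (fun y => (0 : ℝ) ≤ dist x0 y) = S.erase x0 :=
      Finset.filter_true_of_mem (fun y _ => dist_nonneg)
    have e2 : P.filter (fun D => (0 : ℝ) ≤ D) = P :=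
      Finset.filter_true_of_mem (fun D hD => (hom.P0 D hD).le)
    rw [e1, e2] at h1
    have h2 : ((S.erase x0).card : ℝ) + 1 = (S.card : ℝ) := by
      exact_mod_cast Finset.card_erase_add_one (hom.sub hx0)
    linarith
  have hNM : μ * S.card ≤ NP P M := by
    have e2 : P.filter (fun D => D ≤ M) = P := Finset.filter_true_of_mem (fun D hD => h.M2 D hD)
    have e3 : NP P M = (P.card : ℝ) := by
      unfold NP
      rw [e2]
    rw [e3]
    linarith
  have hne : (P.filter (fun D => μ * S.card ≤ NP P D)).Nonempty :=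
    ⟨M, Finset.mem_filter.mpr ⟨h.M1, hNM⟩⟩
  obtain ⟨r, hrm, hrmin⟩ := Finset.exists_min_image (P.filter (fun D => μ * S.card ≤ NP P D)) (fun D => D) hne
  rw [Finset.mem_filter] at hrm
  obtain ⟨hrP, hrlow⟩ := hrm
  have hr0 : 0 < r := hom.P0 r hrP
  have hball : ∀ y ∈ T, 2 * (μ * S.card) - 3 * (κ * S.card) ≤
      (((T.erase y).filter (fun z => dist y z ≤ r)).card : ℝ) := by
    intro y hy
    have h1 := hom.cntT_ge hy r
    linarith
  refine ⟨r, ⟨h, hr0, hrlow, ?_, ?_, ?_⟩⟩
  · intro s hs
    by_contra hcon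
    have hcon' : μ * S.card ≤ NP P s := not_lt.mp hcon
    have hpos : (0 : ℝ) < ((P.filter (fun D => D ≤ s)).card : ℝ) := by
      have h1 : μ * S.card ≤ ((P.filter (fun D => D ≤ s)).card : ℝ) := hcon'
      linarith
    have hne2 : (P.filter (fun D => D ≤ s)).Nonempty := by
      rw [← Finset.card_pos]
      exact_mod_cast hpos
    obtain ⟨D, hD, hDmax⟩ := Finset.exists_max_image (P.filter (fun D => D ≤ s)) (fun D => D) hne2
    rw [Finset.mem_filter] at hD
    have h2 : NP P s ≤ NP P D := by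
      unfold NP
      have h3 : P.filter (fun D' => D' ≤ s) ⊆ P.filter (fun D' => D' ≤ D) := by
        intro D' hD'
        have h4 := hDmax D' hD'
        rw [Finset.mem_filter] at hD' ⊢
        exact ⟨hD'.1, h4⟩
      exact_mod_cast Finset.card_le_card h3
    have h5 := hrmin D (Finset.mem_filter.mpr ⟨hD.1, hcon'.trans h2⟩)
    have h6 : r ≤ D := h5
    linarith [hD.2]
  · intro x hx y hy
    by_contra hcon
    have hcon' : M + r < dist x y := not_le.mp hcon
    have h1 := hball y hy
    have h2 := hom.unp x hx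
    have h3 : (T.erase y).filter (fun z => dist y z ≤ r) ⊆ S.filter (fun z => z ≠ x ∧ dist x z ∉ P) := by
      intro z hz
      rw [Finset.mem_filter, Finset.mem_erase] at hz
      have h4 : M < dist x z := by
        have h5 := dist_triangle x z y
        rw [dist_comm z y] at h5
        linarith [hz.2]
      rw [Finset.mem_filter]
      refine ⟨hom.sub hz.1.2, ?_, ?_⟩
      · rintro rfl
        rw [dist_self] at h4
        linarith
      · intro h5
        linarith [h.M2 _ h5]
    have h4 : (((T.erase y).filter (fun z => dist y z ≤ r)).card : ℝ) ≤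
        ((S.filter (fun z => z ≠ x ∧ dist x z ∉ P)).card : ℝ) := by
      exact_mod_cast Finset.card_le_card h3
    linarith
  · intro x hx
    have h1 := hball y0 hy0
    have h2 := hom.cntf_le hx0 (M - r)
    have h3 : ((T.erase y0).filter (fun z => dist y0 z ≤ r)).erase x0 ⊆
        (S.erase x0).filter (fun z => M - r ≤ dist x0 z) := by
      intro z hz
      rw [Finset.mem_erase, Finset.mem_filter, Finset.mem_erase] at hz
      rw [Finset.mem_filter, Finset.mem_erase]
      refine ⟨⟨hz.1, hom.sub hz.2.1.2⟩, ?_⟩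
      have h5 := dist_triangle x0 z y0
      rw [dist_comm z y0, hM] at h5
      linarith [hz.2.2]
    have h4 : (((T.erase y0).filter (fun z => dist y0 z ≤ r)).card : ℝ) - 1 ≤
        (((S.erase x0).filter (fun z => M - r ≤ dist x0 z)).card : ℝ) := by
      have h5 := Finset.card_le_card h3
      have h6 := Finset.pred_card_le_card_erase (s := (T.erase y0).filter (fun z => dist y0 z ≤ r)) (a := x0)
      have h7 : ((T.erase y0).filter (fun z => dist y0 z ≤ r)).card ≤
          ((S.erase x0).filter (fun z => M - r ≤ dist x0 z)).card + 1 := by omega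
      have h8 : (((T.erase y0).filter (fun z => dist y0 z ≤ r)).card : ℝ) ≤
          (((S.erase x0).filter (fun z => M - r ≤ dist x0 z)).card : ℝ) + 1 := by exact_mod_cast h7
      linarith
    have h5 := hom.cntfT_ge hx (M - r)
    have h6 : (0 : ℝ) < (((T.erase x).filter (fun z => M - r ≤ dist x z)).card : ℝ) := by
      linarith
    have h7 : ((T.erase x).filter (fun z => M - r ≤ dist x z)).Nonempty := by
      rw [← Finset.card_pos]
      exact_mod_cast h6
    obtain ⟨z, hz⟩ := h7
    rw [Finset.mem_filter, Finset.mem_erase] at hz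
    exact ⟨z, hz.1.2, hz.2⟩

end Pool.Agent.Lib.MP_0d8f69_coT
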