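import Pool.Agent.Lib.MP_0d8f69_coT.CirE
import Pool.Agent.Lib.MP_0d8f69_coT.RadE
import Pool.Agent.Lib.MP_0d8f69_coT.MgeE
import Pool.Agent.Lib.MP_0d8f69_coT.ConeE
import Pool.Agent.Lib.MP_0d8f69_coT.Grid

/-!
MP_0d8f69_co, theorem T: the geometric structure.
-/

set_option autoImplicit false

namespace Pool.Agent.Lib.MP_0d8f69_coT

open Finset Pool.Agent.Lib.MP_0d8f69_co Pool.Agent.Lib.MP_0d8f69_coI Pool.Agent.Lib.MP_0d8f69_coZ

variable {S T : Finset ℂ} {P : Finset ℝ} {κ : ℝ}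

private theorem geoE_cardT (h : Hom S T P κ) : (S.card : ℝ) - κ * S.card ≤ (T.card : ℝ) := by
  have h1 := Finset.card_sdiff_add_card_eq_card h.sub
  have h2 : ((S \ T).card : ℝ) + (T.card : ℝ) = (S.card : ℝ) := by exact_mod_cast h1
  have h3 := h.cT
  linarith

private theorem geoE_ball (h : Hom S T P κ) {x : ℂ} (hx : x ∈ T) (R : ℝ) :
    ((T.filter (fun y => dist x y ≤ R)).card : ℝ) ≤ 1 + 2 * NP P R + 2 * κ * S.card := by
  classical
  have h1 := h.cntT_le hx R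
  have h2 : T.filter (fun y => dist x y ≤ R) ⊆ insert x ((T.erase x).filter (fun y => dist x y ≤ R)) := by
    intro y hy
    rw [Finset.mem_filter] at hy
    by_cases hyx : y = x
    · rw [hyx]
      exact Finset.mem_insert_self _ _
    · exact Finset.mem_insert_of_mem
        (Finset.mem_filter.2 ⟨Finset.mem_erase.2 ⟨hyx, hy.1⟩, hy.2⟩)
  have h3 := (Finset.card_le_card h2).trans (Finset.card_insert_le _ _)
  have h4 : ((T.filter (fun y => dist x y ≤ R)).card : ℝ) ≤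
      (((T.erase x).filter (fun y => dist x y ≤ R)).card : ℝ) + 1 := by exact_mod_cast h3
  linarith

/-- Proof. `exists_cir`, `exists_rad` with `μ = 1 / 10 ^ 47`. `n = S.card ≥ 10 ^ 52`. For `s < r` and `x ∈ T` the
number of `y ∈ T` with `dist x y ≤ s` is at most `1 + 2 NP P s + 2 κ n ≤ 3 μ n` (`cntT_le`, `Rad.high`).
(1) `r ≤ ρ / 10 ^ 10`: otherwise `grid` with `A = T`, `c = O`, `R = 1.01 ρ`, `s = ρ / (2 * 10 ^ 10)`, `m = 3 μ n` gives
`T.card ≤ (4.04 * 10 ^ 10 + 2) ^ 2 * 3 μ n < n / 2`, but `T.card ≥ (1 - κ) n`.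
(2) `few`: `grid` with `A = {y ∈ T : dist x y < 400 r}`, `c = x`, `R = 400 r`, `s = r / 2`, `m = 3 μ n`:
`A.card ≤ 1602 ^ 2 * 3 μ n ≤ n / 10 ^ 40`.
(3) `many`: otherwise for `x ∈ T` the number of `y ∈ T` with `dist x y ≤ ρ / 3000` is at most
`1 + 2 n / 10 ^ 9 + 2 κ n ≤ 3 n / 10 ^ 9`, and `grid` with `A = T`, `c = O`, `R = 1.01 ρ`, `s = ρ / 4500` gives
`T.card ≤ 9092 ^ 2 * 3 n / 10 ^ 9 < n / 2`.
(4) `rad` from `Cir.rad`, `cone` from `M_ge` and `cone`. -/
theorem exists_geo (h : Hom S T P κ) (hκ0 : 0 < κ) (hκ1 : κ ≤ 1 / 10 ^ 50) (hn : 100 ≤ κ * S.card) :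
    ∃ (O : ℂ) (ρ r : ℝ), Geo S T P κ (1 / 10 ^ 40) (1 / 10 ^ 9) O ρ r := by
  classical
  have hN0 : (0 : ℝ) ≤ (S.card : ℝ) := Nat.cast_nonneg _
  have hκN : κ * (S.card : ℝ) ≤ 1 / 10 ^ 50 * S.card := mul_le_mul_of_nonneg_right hκ1 hN0
  have hN : (10 : ℝ) ^ 52 ≤ (S.card : ℝ) := by
    have h1 : (100 : ℝ) ≤ 1 / 10 ^ 50 * S.card := hn.trans hκN
    have h2 : (10 : ℝ) ^ 52 = 100 * 10 ^ 50 := by norm_num
    have h3 : (S.card : ℝ) = (1 / 10 ^ 50 * S.card) * 10 ^ 50 := by field_simp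
    rw [h2, h3]
    exact mul_le_mul_of_nonneg_right h1 (by positivity)
  have hS100 : 100 ≤ S.card := by
    have h1 : (100 : ℝ) ≤ (S.card : ℝ) := le_trans (by norm_num) hN
    exact_mod_cast h1
  have hκ6 : κ ≤ 1 / 10 ^ 6 := hκ1.trans (by norm_num)
  have hκ8 : κ ≤ 1 / 10 ^ 8 := hκ1.trans (by norm_num)
  obtain ⟨O, ρ, M, hcir⟩ := exists_cir h hκ0 hκ6 hS100
  have hκμ : 100 * κ ≤ 1 / 10 ^ 47 := by
    have h1 : (100 : ℝ) * (1 / 10 ^ 50) ≤ 1 / 10 ^ 47 := by norm_num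
    linarith
  obtain ⟨r, hrad⟩ := exists_rad hcir hκ0 (μ := 1 / 10 ^ 47) (by norm_num) hκμ hn
  have hρ := hcir.rho
  have hr0 := hrad.r0
  have hcT := geoE_cardT h
  have hT2 : (S.card : ℝ) / 2 < (T.card : ℝ) := by
    have h1 : 1 / 10 ^ 50 * (S.card : ℝ) ≤ 1 / 10 * S.card :=
      mul_le_mul_of_nonneg_right (by norm_num) hN0
    have h2 : (0 : ℝ) < (S.card : ℝ) := lt_of_lt_of_le (by norm_num) hN
    linarith
  -- small balls
  have hball : ∀ s < r, ∀ x ∈ T, ((T.filter (fun y => dist x y ≤ s)).card : ℝ) ≤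
      3 * (1 / 10 ^ 47) * S.card := by
    intro s hs x hx
    have h1 := geoE_ball h hx s
    have h2 := hrad.high s hs
    have h3 : 100 * (κ * (S.card : ℝ)) ≤ 1 / 10 ^ 47 * S.card := by
      have := mul_le_mul_of_nonneg_right hκμ hN0
      linarith
    nlinarith
  -- the radii
  have hradO : ∀ x ∈ T, 999 / 1000 * ρ ≤ ‖x - O‖ ∧ ‖x - O‖ ≤ 1001 / 1000 * ρ := by
    intro x hx
    have h1 := hcir.rad x hx
    have h2 : 300 * κ * ρ ^ 2 ≤ 1 / 10 ^ 4 * ρ ^ 2 := by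
      refine mul_le_mul_of_nonneg_right ?_ (sq_nonneg ρ)
      have h3 : 300 * κ ≤ 300 * (1 / 10 ^ 8) := by linarith
      exact h3.trans (by norm_num)
    rw [abs_le] at h1
    have h4 := norm_nonneg (x - O)
    constructor
    · refine le_of_sq_le_sq ?_ h4
      nlinarith
    · refine le_of_sq_le_sq ?_ (by positivity)
      nlinarith
  have hdO : ∀ y ∈ T, dist y O ≤ 101 / 100 * ρ := by
    intro y hy
    rw [dist_eq_norm]
    have := (hradO y hy).2
    linarith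
  -- (1)
  have hr10 : r ≤ ρ / 10 ^ 10 := by
    by_contra hc
    rw [not_le] at hc
    have h1 := grid (A := T) (c := O) (R := 101 / 100 * ρ) (s := ρ / (2 * 10 ^ 10))
      (m := 3 * (1 / 10 ^ 47) * S.card) (by positivity) (by positivity) (by positivity) hdO
      (fun x hx => hball _ (by
        have h2 : 3 / 2 * (ρ / (2 * 10 ^ 10)) = 3 / 4 * (ρ / 10 ^ 10) := by ring
        rw [h2]
        have h3 : 0 < ρ / 10 ^ 10 := by positivity
        linarith) x hx)
    have h4 : 2 * (101 / 100 * ρ) / (ρ / (2 * 10 ^ 10)) = 404 / 100 * 10 ^ 10 := by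
      field_simp
      norm_num
    rw [h4] at h1
    have h5 : (404 / 100 * 10 ^ 10 + 2 : ℝ) ^ 2 * (3 * (1 / 10 ^ 47) * (S.card : ℝ)) ≤ 1 / 2 * S.card := by
      rw [← mul_assoc]
      refine mul_le_mul_of_nonneg_right ?_ hN0
      norm_num
    linarith
  have hr6 : r ≤ ρ / 10 ^ 6 := by
    refine hr10.trans ?_
    exact div_le_div_of_nonneg_left hρ.le (by positivity) (by norm_num)
  have hM := M_ge hrad hκ0 hκ8 hr6
  refine ⟨O, ρ, r, ⟨h, hκ1.trans (by norm_num), by norm_num, ?_, hρ, hcir.bar, hradO, hr0, ?_, ?_, ?_, ?_⟩⟩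
  · have h1 : (1 : ℝ) ≤ 1 / 10 ^ 40 * 10 ^ 52 := by norm_num
    exact h1.trans (mul_le_mul_of_nonneg_left hN (by positivity))
  · have h1 : ρ / 10 ^ 10 = ρ / 10 ^ 5 * (1 / 10 ^ 5) := by ring
    have h2 : 0 < ρ / 10 ^ 5 := by positivity
    rw [h1] at hr10
    nlinarith
  · intro x hx
    have h1 := grid (A := T.filter (fun y => dist x y < 400 * r)) (c := x) (R := 400 * r) (s := r / 2)
      (m := 3 * (1 / 10 ^ 47) * S.card) (by positivity) (by positivity) (by positivity)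
      (fun y hy => by
        rw [dist_comm]
        exact (Finset.mem_filter.1 hy).2.le)
      (fun z hz => by
        refine le_trans ?_ (hball (3 / 2 * (r / 2)) (by linarith) z (Finset.mem_filter.1 hz).1)
        rw [Nat.cast_le]
        exact Finset.card_le_card (Finset.filter_subset_filter _ (Finset.filter_subset _ _)))
    have h4 : 2 * (400 * r) / (r / 2) = 1600 := by
      field_simp
      norm_num
    rw [h4] at h1
    refine h1.trans ?_
    rw [← mul_assoc]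
    refine mul_le_mul_of_nonneg_right ?_ hN0
    norm_num
  · intro p hp x hx y hy hpx hpy hxy
    exact cone hrad hκ0 hκ8 hr6 hM hp hx hy hpx hpy hxy
  · by_contra hc
    rw [not_le] at hc
    have h1 := grid (A := T) (c := O) (R := 101 / 100 * ρ) (s := ρ / 4500)
      (m := 3 * (1 / 10 ^ 9) * S.card) (by positivity) (by positivity) (by positivity) hdO
      (fun x hx => by
        have h2 : 3 / 2 * (ρ / 4500) = ρ / 3000 := by ring
        rw [h2]
        have h3 := geoE_ball h hx (ρ / 3000)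
        have h4 : 1 / 10 ^ 50 * (S.card : ℝ) ≤ 1 / 10 ^ 10 * S.card :=
          mul_le_mul_of_nonneg_right (by norm_num) hN0
        have h5 : (1 : ℝ) / 10 ^ 10 * S.card = 1 / 10 * (1 / 10 ^ 9 * S.card) := by ring
        nlinarith)
    have h4 : 2 * (101 / 100 * ρ) / (ρ / 4500) = 9090 := by
      field_simp
      norm_num
    rw [h4] at h1
    have h5 : (9090 + 2 : ℝ) ^ 2 * (3 * (1 / 10 ^ 9) * (S.card : ℝ)) ≤ 1 / 2 * S.card := by
      rw [← mul_assoc]
      refine mul_le_mul_of_nonneg_right ?_ hN0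
      norm_num
    linarith

end Pool.Agent.Lib.MP_0d8f69_coT
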