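import Pool.Agent.Lib.MP_0d8f69_coZ.Fin

/-!
MP_0d8f69_co, theorem T: one rigid motion maps almost every vertex to the next one (local version).
-/

set_option autoImplicit false

namespace Pool.Agent.Lib.MP_0d8f69_coT

open Finset Pool.Agent.Lib.MP_0d8f69_co Pool.Agent.Lib.MP_0d8f69_coI Pool.Agent.Lib.MP_0d8f69_coZ

variable {n : ℕ} [NeZero n] {z : ZMod n → ℂ}

/-- the near bad partners -/
private noncomputable def bdh (z : ZMod n → ℂ) (h : ℕ) (x : ZMod n) : Finset (ZMod n) :=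
  open Classical in
  (Finset.univ : Finset (ZMod n)).filter (fun y => dist (z x) (z y) ≠ dist (z (x + 1)) (z (y + 1)) ∧
    ∃ s ∈ Finset.Icc 1 h, y = x + (s : ZMod n) ∨ x = y + (s : ZMod n))

private theorem mem_bdh {h : ℕ} {x y : ZMod n} : y ∈ bdh z h x ↔
    dist (z x) (z y) ≠ dist (z (x + 1)) (z (y + 1)) ∧
    ∃ s ∈ Finset.Icc 1 h, y = x + (s : ZMod n) ∨ x = y + (s : ZMod n) := by
  unfold bdh
  simp only [mem_filter, mem_univ, true_and]

private theorem card_bdh_le (h : ℕ) (x : ZMod n) : (bdh z h x).card ≤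
    ((Finset.Icc 1 h).filter (fun s : ℕ => cz z x s ≠ cz z (x + 1) s)).card +
    ((Finset.Icc 1 h).filter (fun s : ℕ => cz z (x - (s : ZMod n)) s ≠ cz z (x - (s : ZMod n) + 1) s)).card := by
  classical
  have hsub : bdh z h x ⊆
      ((Finset.Icc 1 h).filter (fun s : ℕ => cz z x s ≠ cz z (x + 1) s)).image (fun s : ℕ => x + (s : ZMod n)) ∪
      ((Finset.Icc 1 h).filter (fun s : ℕ => cz z (x - (s : ZMod n)) s ≠ cz z (x - (s : ZMod n) + 1) s)).image
        (fun s : ℕ => x - (s : ZMod n)) := by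
    intro y hy
    obtain ⟨hd, s, hs, hy⟩ := mem_bdh.1 hy
    rw [mem_union, mem_image, mem_image]
    rcases hy with hy | hy
    · left
      refine ⟨s, ?_, hy.symm⟩
      rw [mem_filter]
      refine ⟨hs, ?_⟩
      unfold cz
      rw [hy] at hd
      have e : x + (s : ZMod n) + 1 = x + 1 + (s : ZMod n) := by ring
      rw [e] at hd
      exact hd
    · right
      have hyx : y = x - (s : ZMod n) := by rw [hy]; ring
      refine ⟨s, ?_, hyx.symm⟩
      rw [mem_filter]
      refine ⟨hs, ?_⟩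
      rw [← hyx]
      unfold cz
      have e : y + 1 + (s : ZMod n) = x + 1 := by rw [hy]; ring
      rw [e, ← hy, dist_comm (z y), dist_comm (z (y + 1))]
      exact hd
  refine (Finset.card_le_card hsub).trans ((Finset.card_union_le _ _).trans ?_)
  exact Nat.add_le_add Finset.card_image_le Finset.card_image_le

private theorem sum_bdh (h : ℕ) : ∑ x : ZMod n, (bdh z h x).card ≤
    2 * (((Finset.univ : Finset (ZMod n)) ×ˢ Finset.Icc 1 h).filter
      (fun x : ZMod n × ℕ => cz z x.1 x.2 ≠ cz z (x.1 + 1) x.2)).card := by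
  classical
  have hS : (((Finset.univ : Finset (ZMod n)) ×ˢ Finset.Icc 1 h).filter
      (fun x : ZMod n × ℕ => cz z x.1 x.2 ≠ cz z (x.1 + 1) x.2)).card =
      ∑ x : ZMod n, ((Finset.Icc 1 h).filter (fun s : ℕ => cz z x s ≠ cz z (x + 1) s)).card := by
    rw [Finset.card_filter, Finset.sum_product]
    refine Finset.sum_congr rfl fun x _ => ?_
    rw [Finset.card_filter]
  have hb : ∑ x : ZMod n, ((Finset.Icc 1 h).filter
      (fun s : ℕ => cz z (x - (s : ZMod n)) s ≠ cz z (x - (s : ZMod n) + 1) s)).card =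
      ∑ x : ZMod n, ((Finset.Icc 1 h).filter (fun s : ℕ => cz z x s ≠ cz z (x + 1) s)).card := by
    simp only [Finset.card_filter]
    rw [Finset.sum_comm]
    rw [Finset.sum_comm (s := (Finset.univ : Finset (ZMod n))) (t := Finset.Icc 1 h)
      (f := fun x s => if cz z x s ≠ cz z (x + 1) s then 1 else 0)]
    refine Finset.sum_congr rfl fun s _ => ?_
    exact (Equiv.subRight (s : ZMod n)).sum_comp (fun x => if cz z x s ≠ cz z (x + 1) s then 1 else 0)
  calc ∑ x : ZMod n, (bdh z h x).card ≤ ∑ x : ZMod n,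
        (((Finset.Icc 1 h).filter (fun s : ℕ => cz z x s ≠ cz z (x + 1) s)).card +
        ((Finset.Icc 1 h).filter
          (fun s : ℕ => cz z (x - (s : ZMod n)) s ≠ cz z (x - (s : ZMod n) + 1) s)).card) :=
        Finset.sum_le_sum fun x _ => card_bdh_le h x
    _ = 2 * _ := by rw [Finset.sum_add_distrib, hb, hS]; ring

private theorem card_heavy {h : ℕ} {τ : ℝ} (hτ : 0 < τ)
    (hSB : ((((Finset.univ : Finset (ZMod n)) ×ˢ Finset.Icc 1 h).filter
      (fun x : ZMod n × ℕ => cz z x.1 x.2 ≠ cz z (x.1 + 1) x.2)).card : ℝ) ≤ τ ^ 2 * n ^ 2) :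
    (((Finset.univ : Finset (ZMod n)).filter (fun x => ¬ ((bdh z h x).card : ℝ) ≤ τ * n)).card : ℝ) ≤
      2 * τ * n := by
  have hn0 : (0 : ℝ) < n := by exact_mod_cast Nat.pos_of_ne_zero (NeZero.ne n)
  have h1 : ((∑ x : ZMod n, (bdh z h x).card : ℕ) : ℝ) ≤ 2 * (τ ^ 2 * n ^ 2) := by
    have := sum_bdh (z := z) h
    have h2 : ((∑ x : ZMod n, (bdh z h x).card : ℕ) : ℝ) ≤ 2 * ((((Finset.univ : Finset (ZMod n)) ×ˢ
      Finset.Icc 1 h).filter (fun x : ZMod n × ℕ => cz z x.1 x.2 ≠ cz z (x.1 + 1) x.2)).card : ℝ) := by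
      exact_mod_cast this
    linarith
  have h2 : τ * n * (((Finset.univ : Finset (ZMod n)).filter (fun x => ¬ ((bdh z h x).card : ℝ) ≤ τ * n)).card : ℝ)
      ≤ τ * n * (2 * τ * n) := by
    calc τ * n * (((Finset.univ : Finset (ZMod n)).filter (fun x => ¬ ((bdh z h x).card : ℝ) ≤ τ * n)).card : ℝ)
          = ∑ x ∈ (Finset.univ : Finset (ZMod n)).filter (fun x => ¬ ((bdh z h x).card : ℝ) ≤ τ * n), τ * n := by
          rw [Finset.sum_const, nsmul_eq_mul]; ring
      _ ≤ ∑ x ∈ (Finset.univ : Finset (ZMod n)).filter (fun x => ¬ ((bdh z h x).card : ℝ) ≤ τ * n),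
            ((bdh z h x).card : ℝ) := by
          refine Finset.sum_le_sum fun x hx => ?_
          exact (not_le.1 (mem_filter.1 hx).2).le
      _ ≤ ∑ x : ZMod n, ((bdh z h x).card : ℝ) :=
          Finset.sum_le_sum_of_subset_of_nonneg (Finset.filter_subset _ _) fun _ _ _ => Nat.cast_nonneg _
      _ = ((∑ x : ZMod n, (bdh z h x).card : ℕ) : ℝ) := by rw [Nat.cast_sum]
      _ ≤ 2 * (τ ^ 2 * n ^ 2) := h1
      _ = τ * n * (2 * τ * n) := by ring
  exact le_of_mul_le_mul_left h2 (mul_pos hτ hn0)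

/-- the windows -/
private def Iw (n L k : ℕ) : Finset (ZMod n) := (Finset.range L).image (fun j : ℕ => ((k * L + j : ℕ) : ZMod n))

omit [NeZero n] in
private theorem card_Iw {L : ℕ} (k : ℕ) (hL : L ≤ n) : (Iw n L k).card = L := by
  unfold Iw
  rw [Finset.card_image_of_injOn, Finset.card_range]
  intro i hi j hj hij
  have hi' : i < L := by simpa using hi
  have hj' : j < L := by simpa using hj
  simp only at hij
  push_cast at hij
  have h1 : ((i : ℕ) : ZMod n) = ((j : ℕ) : ZMod n) := add_left_cancel hij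
  have h2 := congrArg ZMod.val h1
  rw [ZMod.val_natCast_of_lt (by omega), ZMod.val_natCast_of_lt (by omega)] at h2
  exact h2

omit [NeZero n] in
private theorem near_Iw {L k h : ℕ} (hL : 2 * L ≤ h) {x y : ZMod n} (hx : x ∈ Iw n L k)
    (hy : y ∈ Iw n L k ∨ y ∈ Iw n L (k + 1)) (hxy : y ≠ x) :
    ∃ s ∈ Finset.Icc 1 h, y = x + (s : ZMod n) ∨ x = y + (s : ZMod n) := by
  unfold Iw at hx hy
  simp only [mem_image, mem_range] at hx hy
  obtain ⟨i, hi, rfl⟩ := hx
  obtain ⟨j, hj, rfl⟩ : ∃ j, j < 2 * L ∧ ((k * L + j : ℕ) : ZMod n) = y := by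
    rcases hy with ⟨j, hj, e⟩ | ⟨j, hj, e⟩
    · exact ⟨j, by omega, e⟩
    · refine ⟨L + j, by omega, ?_⟩
      rw [← e]
      congr 1
      ring
  rcases lt_trichotomy i j with hij | hij | hij
  · refine ⟨j - i, mem_Icc.2 ⟨by omega, by omega⟩, Or.inl ?_⟩
    rw [← Nat.cast_add]
    congr 1
    omega
  · exact absurd (by rw [hij]) hxy
  · refine ⟨i - j, mem_Icc.2 ⟨by omega, by omega⟩, Or.inr ?_⟩
    rw [← Nat.cast_add]
    congr 1
    omega

/-- the set of the exceptions -/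
private noncomputable def Ex (z : ZMod n → ℂ) (α β : ℂ) : Finset (ZMod n) :=
  (Finset.univ : Finset (ZMod n)).filter (fun y => z (y + 1) ≠ α * z y + β)

private theorem not_mem_Ex {α β : ℂ} {y : ZMod n} (h : y ∉ Ex z α β) : z (y + 1) = α * z y + β := by
  by_contra hc
  exact h (by unfold Ex; rw [mem_filter]; exact ⟨mem_univ _, hc⟩)

/-- two good points of a window control the exceptions -/
private theorem step_card (hz : Zp n z) {L h k k' : ℕ} (hL : 2 * L ≤ h) {α β : ℂ} {τ : ℝ} {x1 x2 : ZMod n}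
    (hk : k' = k ∨ k' = k + 1)
    (hx1 : x1 ∈ Iw n L k) (hx2 : x2 ∈ Iw n L k) (h21 : x2 ≠ x1)
    (e1 : z (x1 + 1) = α * z x1 + β) (e2 : z (x2 + 1) = α * z x2 + β)
    (hnb : x2 ∉ bdh z h x1) (hb1 : ((bdh z h x1).card : ℝ) ≤ τ * n) (hb2 : ((bdh z h x2).card : ℝ) ≤ τ * n) :
    ((Ex z α β ∩ Iw n L k').card : ℝ) ≤ 2 * τ * n := by
  classical
  have dd : ∀ {x y : ZMod n}, x ∈ Iw n L k → (y ∈ Iw n L k ∨ y ∈ Iw n L (k + 1)) → y ≠ x → y ∉ bdh z h x →
      dist (z x) (z y) = dist (z (x + 1)) (z (y + 1)) := by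
    intro x y hx hy hne hnb
    by_contra hc
    exact hnb (mem_bdh.2 ⟨hc, near_Iw hL hx hy hne⟩)
  have d12 := dd hx1 (Or.inl hx2) h21 hnb
  have hz21 : z x2 - z x1 ≠ 0 := sub_ne_zero.2 fun e => h21 (hz.inj e)
  have hsub : Ex z α β ∩ Iw n L k' ⊆ bdh z h x1 ∪ bdh z h x2 := by
    intro y hy
    rw [mem_inter] at hy
    obtain ⟨hyE, hyI⟩ := hy
    have hyI' : y ∈ Iw n L k ∨ y ∈ Iw n L (k + 1) := by
      rcases hk with rfl | rfl
      · exact Or.inl hyI
      · exact Or.inr hyI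
    by_contra hcon
    rw [mem_union, not_or] at hcon
    have hyE' : z (y + 1) ≠ α * z y + β := by
      unfold Ex at hyE
      exact (mem_filter.1 hyE).2
    apply hyE'
    by_cases hy1 : y = x1
    · rw [hy1]; exact e1
    · by_cases hy2 : y = x2
      · rw [hy2]; exact e2
      · have d1 := dd hx1 hyI' hy1 hcon.1
        have d2 := dd hx2 hyI' hy2 hcon.2
        have ht := hz.tri h21.symm hy1 hy2 d12 d1 d2
        rw [e1, e2] at ht
        apply mul_right_cancel₀ hz21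
        linear_combination ht
  have h1 := (Finset.card_le_card hsub).trans (Finset.card_union_le _ _)
  have h2 : ((Ex z α β ∩ Iw n L k').card : ℝ) ≤ (bdh z h x1).card + (bdh z h x2).card := by
    exact_mod_cast h1
  linarith

/-- Local version of `Zp.motion` (`MP_0d8f69_coZ/Rig.lean`): only the distances `|z i - z (i + s)|`, `s ≤ h`, are
almost always invariant under the shift.

Proof: call `y` a bad partner of `x` if `y = x + s` or `x = y + s` with `1 ≤ s ≤ h` and
`dist (z x) (z y) ≠ dist (z (x + 1)) (z (y + 1))`; `bd x` is the set of the bad partners. The sum of the `(bd x).card`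
is at most `2 τ ^ 2 n ^ 2`, so at most `2 τ n` of the `x` have more than `τ n` bad partners (call these `x` heavy).
Let `L = h / 4` and `I k = {k L + j : 0 ≤ j < L}` (in `ZMod n`), `k = 0, 1, ..., n / L`; these cover `ZMod n`. Two
elements of `I k ∪ I (k + 1)` are at cyclic distance `< 2 L ≤ h`. In `I 0` choose `x1` not heavy and `x2 ≠ x1` not
heavy and not a bad partner of `x1` (possible since `L > 6 τ n + 2`), and let `α, β` be as in `Zp.motion`
(`z (x + 1) = α z x + β` for `x = x1, x2`, `‖α‖ = 1`). Let `E = {y : z (y + 1) ≠ α z y + β}`. By `Zp.tri`, every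
`y ∈ I 0 ∪ I 1` which is not a bad partner of `x1` or `x2` is not in `E`, so `(E ∩ I 0).card ≤ 2 τ n`. Induction:
if `(E ∩ I k).card ≤ 2 τ n`, choose `x1 ≠ x2` in `I k`, not in `E`, not heavy, `x2` not a bad partner of `x1`
(possible: `L > 2 τ n + 2 τ n + τ n + 1`); again `Zp.tri` gives `(E ∩ I (k + 1)).card ≤ 2 τ n`. Hence
`E.card ≤ (n / L + 1) * 2 τ n` and `L ≥ h / 5`. -/
theorem motionT (hz : Zp n z) {h : ℕ} {τ : ℝ} (hτ : 0 < τ) (hh : 2 * h ≤ n) (hbig : 40 * τ * n + 40 ≤ h)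
    (hSB : ((((Finset.univ : Finset (ZMod n)) ×ˢ Finset.Icc 1 h).filter
      (fun x : ZMod n × ℕ => cz z x.1 x.2 ≠ cz z (x.1 + 1) x.2)).card : ℝ) ≤ τ ^ 2 * n ^ 2) :
    ∃ α β : ℂ, ‖α‖ = 1 ∧
      (((Finset.univ : Finset (ZMod n)).filter (fun y => z (y + 1) ≠ α * z y + β)).card : ℝ) * h ≤
        20 * τ * n ^ 2 := by
  classical
  have hn0 : 0 < n := Nat.pos_of_ne_zero (NeZero.ne n)
  have hnr : (0 : ℝ) < n := by exact_mod_cast hn0
  have hhR : 2 * (h : ℝ) ≤ n := by exact_mod_cast hh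
  have hτn : 0 < τ * n := mul_pos hτ hnr
  have h40 : 40 ≤ h := by
    have : (40 : ℝ) ≤ h := by nlinarith
    exact_mod_cast this
  set L := h / 4 with hLdef
  have hL4 : 4 * L ≤ h := by omega
  have hL5 : h ≤ 5 * L := by omega
  have hL2 : 2 * L ≤ h := by omega
  have hLn : L ≤ n := by omega
  have hLpos : 0 < L := by omega
  have hL5R : (h : ℝ) ≤ 5 * L := by exact_mod_cast hL5
  have hLR : 8 * (τ * n) + 8 ≤ L := by nlinarith
  have hheavy := card_heavy hτ hSB
  set HV := (Finset.univ : Finset (ZMod n)).filter (fun x => ¬ ((bdh z h x).card : ℝ) ≤ τ * n) with hHV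
  have nHV : ∀ x : ZMod n, x ∉ HV → ((bdh z h x).card : ℝ) ≤ τ * n := by
    intro x hx
    by_contra hc
    exact hx (by rw [hHV, mem_filter]; exact ⟨mem_univ _, hc⟩)
  -- choose two points of a window
  have pick : ∀ (k : ℕ) (E : Finset (ZMod n)), ((E ∩ Iw n L k).card : ℝ) ≤ 2 * τ * n →
      ∃ x1 x2 : ZMod n, x1 ∈ Iw n L k ∧ x2 ∈ Iw n L k ∧ x2 ≠ x1 ∧ x1 ∉ E ∧ x2 ∉ E ∧ x1 ∉ HV ∧ x2 ∉ HV ∧
        x2 ∉ bdh z h x1 := by
    intro k E hE
    obtain ⟨x1, hx1, hx1'⟩ : ∃ x1 ∈ Iw n L k, x1 ∉ (E ∩ Iw n L k) ∪ HV := by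
      by_contra hcon
      push Not at hcon
      have h1 : Iw n L k ⊆ (E ∩ Iw n L k) ∪ HV := hcon
      have h2 := (Finset.card_le_card h1).trans (Finset.card_union_le _ _)
      rw [card_Iw k hLn] at h2
      have h3 : (L : ℝ) ≤ (E ∩ Iw n L k).card + HV.card := by exact_mod_cast h2
      linarith
    rw [mem_union, not_or, mem_inter, not_and_or] at hx1'
    have hx1E : x1 ∉ E := by
      rcases hx1'.1 with w | w
      · exact w
      · exact absurd hx1 w
    have hb1 := nHV x1 hx1'.2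
    obtain ⟨x2, hx2, hx2'⟩ : ∃ x2 ∈ Iw n L k, x2 ∉ ((E ∩ Iw n L k) ∪ HV) ∪ (bdh z h x1 ∪ {x1}) := by
      by_contra hcon
      push Not at hcon
      have h1 : Iw n L k ⊆ ((E ∩ Iw n L k) ∪ HV) ∪ (bdh z h x1 ∪ {x1}) := hcon
      have h2 := (Finset.card_le_card h1).trans (Finset.card_union_le _ _)
      have h3 := Finset.card_union_le (E ∩ Iw n L k) HV
      have h4 := Finset.card_union_le (bdh z h x1) {x1}
      rw [Finset.card_singleton] at h4
      rw [card_Iw k hLn] at h2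
      have h5 : L ≤ (E ∩ Iw n L k).card + HV.card + ((bdh z h x1).card + 1) := by omega
      have h6 : (L : ℝ) ≤ (E ∩ Iw n L k).card + HV.card + ((bdh z h x1).card + 1) := by exact_mod_cast h5
      linarith
    rw [mem_union, mem_union, mem_union, mem_singleton, not_or, not_or, not_or, mem_inter, not_and_or] at hx2'
    have hx2E : x2 ∉ E := by
      rcases hx2'.1.1 with w | w
      · exact w
      · exact absurd hx2 w
    exact ⟨x1, x2, hx1, hx2, hx2'.2.2, hx1E, hx2E, hx1'.2, hx2'.1.2, hx2'.2.1⟩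
  obtain ⟨x1, x2, hx1, hx2, h21, -, -, hv1, hv2, hnb⟩ := pick 0 ∅ (by
    rw [Finset.empty_inter, Finset.card_empty, Nat.cast_zero]
    nlinarith)
  have d12 : dist (z x1) (z x2) = dist (z (x1 + 1)) (z (x2 + 1)) := by
    by_contra hc
    exact hnb (mem_bdh.2 ⟨hc, near_Iw hL2 hx1 (Or.inl hx2) h21⟩)
  have hz21 : z x2 - z x1 ≠ 0 := sub_ne_zero.2 fun e => h21 (hz.inj e)
  set α : ℂ := (z (x2 + 1) - z (x1 + 1)) / (z x2 - z x1) with hα
  have hαm : α * (z x2 - z x1) = z (x2 + 1) - z (x1 + 1) := by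
    rw [hα]; exact div_mul_cancel₀ _ hz21
  set β : ℂ := z (x1 + 1) - α * z x1 with hβ
  have e1 : z (x1 + 1) = α * z x1 + β := by rw [hβ]; ring
  have e2 : z (x2 + 1) = α * z x2 + β := by
    rw [hβ]
    linear_combination (-1 : ℂ) * hαm
  refine ⟨α, β, ?_, ?_⟩
  · rw [hα, norm_div, ← dist_eq_norm, ← dist_eq_norm, dist_comm (z (x2 + 1)), dist_comm (z x2), ← d12]
    exact div_self (dist_ne_zero.2 fun e => h21 (hz.inj e).symm)
  · have hind : ∀ k : ℕ, ((Ex z α β ∩ Iw n L k).card : ℝ) ≤ 2 * τ * n := by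
      intro k
      induction k with
      | zero => exact step_card hz hL2 (Or.inl rfl) hx1 hx2 h21 e1 e2 hnb (nHV _ hv1) (nHV _ hv2)
      | succ k ih =>
        obtain ⟨y1, y2, hy1, hy2, h21', hE1, hE2, hw1, hw2, hnb'⟩ := pick k (Ex z α β) ih
        exact step_card hz hL2 (Or.inr rfl) hy1 hy2 h21' (not_mem_Ex hE1) (not_mem_Ex hE2) hnb' (nHV _ hw1)
          (nHV _ hw2)
    have hcov : Ex z α β ⊆ (Finset.range (n / L + 1)).biUnion (fun k => Ex z α β ∩ Iw n L k) := by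
      intro y hy
      rw [mem_biUnion]
      refine ⟨y.val / L, ?_, ?_⟩
      · rw [mem_range]
        have h1 := ZMod.val_lt y
        have h2 : y.val / L ≤ n / L := Nat.div_le_div_right h1.le
        omega
      · rw [mem_inter]
        refine ⟨hy, ?_⟩
        unfold Iw
        rw [mem_image]
        refine ⟨y.val % L, ?_, ?_⟩
        · rw [mem_range]
          exact Nat.mod_lt _ hLpos
        · have h1 : y.val / L * L + y.val % L = y.val := Nat.div_add_mod' _ _
          rw [h1, ZMod.natCast_zmod_val]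
    have hcard : ((Ex z α β).card : ℝ) ≤ ((n / L + 1 : ℕ) : ℝ) * (2 * τ * n) := by
      have h1 := (Finset.card_le_card hcov).trans Finset.card_biUnion_le
      have h2 : ((Ex z α β).card : ℝ) ≤ ∑ k ∈ Finset.range (n / L + 1), ((Ex z α β ∩ Iw n L k).card : ℝ) := by
        exact_mod_cast h1
      refine h2.trans ?_
      calc ∑ k ∈ Finset.range (n / L + 1), ((Ex z α β ∩ Iw n L k).card : ℝ)
          ≤ ∑ k ∈ Finset.range (n / L + 1), 2 * τ * n := Finset.sum_le_sum fun k _ => hind k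
        _ = ((n / L + 1 : ℕ) : ℝ) * (2 * τ * n) := by
            rw [Finset.sum_const, Finset.card_range, nsmul_eq_mul]
    change ((Ex z α β).card : ℝ) * h ≤ 20 * τ * n ^ 2
    have hq : ((n / L : ℕ) : ℝ) * L ≤ n := by exact_mod_cast Nat.div_mul_le_self n L
    have hq0 : (0 : ℝ) ≤ ((n / L : ℕ) : ℝ) := Nat.cast_nonneg _
    have hh0 : (0 : ℝ) ≤ h := Nat.cast_nonneg _
    have h3 : ((n / L : ℕ) : ℝ) * h ≤ 5 * n := by nlinarith
    have h4 : ((n / L + 1 : ℕ) : ℝ) * h ≤ 10 * n := by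
      push_cast
      push_cast at h3
      nlinarith
    calc ((Ex z α β).card : ℝ) * h ≤ ((n / L + 1 : ℕ) : ℝ) * (2 * τ * n) * h :=
          mul_le_mul_of_nonneg_right hcard hh0
      _ = (((n / L + 1 : ℕ) : ℝ) * h) * (2 * τ * n) := by ring
      _ ≤ (10 * n) * (2 * τ * n) := mul_le_mul_of_nonneg_right h4 (by nlinarith)
      _ = 20 * τ * n ^ 2 := by ring

end Pool.Agent.Lib.MP_0d8f69_coT
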