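import Pool.Agent.Lib.MP_0d8f69_coT.ShiftT
import Pool.Agent.Lib.MP_0d8f69_coT.MotionT
import Pool.Agent.Lib.MP_0d8f69_coT.ClsT

/-!
MP_0d8f69_co, theorem T: the local structure implies that almost all vertices are on one circle.
-/

set_option autoImplicit false

namespace Pool.Agent.Lib.MP_0d8f69_coT

open Finset Pool.Agent.Lib.MP_0d8f69_co Pool.Agent.Lib.MP_0d8f69_coI Pool.Agent.Lib.MP_0d8f69_coZ

variable {n : ℕ} [NeZero n] {z : ZMod n → ℂ} {P : Finset ℝ} {G : Finset (ZMod n)} {κ d : ℝ} {b a : ZMod n → ℕ}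

/-- Proof: as `inverse` in `MP_0d8f69_coZ/Inv.lean`. Let `h = P.card - ⌈κ n⌉₊ - 1` (so `h + 1 + κ n ≤ P.card`,
`P.card ≤ h + 4 κ n`, `4 κ n ≤ τ n ≤ η P.card / 10 ^ 4`, so `h ≥ P.card / 2`, `2 h ≤ n`).
By `shift_count` and `motionT` there are `α, β`, `‖α‖ = 1`, and `M = {y : z (y + 1) ≠ α z y + β}` has
`M.card * h ≤ 20 τ n ^ 2`, so `M.card ≤ 40 τ n ^ 2 / P.card ≤ η n / 200`; `Zp.rotation` gives `α ≠ 1, -1`; centre
`O = β / (1 - α)`. `VG` = the pairs `(i, s)`, `s ≤ h`, which are perfect as in `perfect_count` (with `i ∈ G`) and have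
`i + s ∉ M`, `i + s - 1 ∉ M`. The complement has at most `7 κ n ^ 2 + n + 2 M.card h ≤ 50 τ n ^ 2 ≤ (η / 100) h n`
elements. `hinj` from `Loc.incR` (`h < b i` by `steps`), `hpair` by `radii` and `pair_eq`
(`MP_0d8f69_coZ/Alg.lean`) exactly as in `inverse`. Apply `classesT` with `t = η / 100`. -/
theorem inverseT {τ η : ℝ} (hL : Loc n z P G κ d b a) (hκ0 : 0 < κ) (hκ : 8 * κ ≤ τ ^ 2) (hτ0 : 0 < τ)
    (hτ1 : τ ≤ 1 / 100) (hκn : 3 ≤ κ * n) (hη0 : 0 < η) (hη1 : η ≤ 1 / 20)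
    (hτ : 10 ^ 4 * τ * n ≤ η * P.card) (hPn : 4 * P.card ≤ n) :
    ∃ (O : ℂ) (r : ℝ), (((Finset.univ : Finset (ZMod n)).filter (fun i => dist (z i) O ≠ r)).card : ℝ) ≤ η * n := by
  classical
  have hn0 : (0 : ℝ) < n := Nat.cast_pos.2 (Nat.pos_of_ne_zero (NeZero.ne n))
  have hp0 : (0 : ℝ) ≤ P.card := Nat.cast_nonneg _
  obtain ⟨T, hT⟩ : ∃ T : ℝ, T = τ * n := ⟨_, rfl⟩
  have hT4 : 10 ^ 4 * T ≤ η * P.card := by
    rw [hT]
    linarith
  have hTp : 2 * 10 ^ 5 * T ≤ P.card := by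
    have := mul_le_mul_of_nonneg_right hη1 hp0
    linarith
  have hp4 : 4 * (P.card : ℝ) ≤ n := by exact_mod_cast hPn
  have hκT : κ * n ≤ T / 800 := by
    have h1 : κ ≤ τ / 800 := by nlinarith
    have h2 := mul_le_mul_of_nonneg_right h1 hn0.le
    rw [hT]
    linarith
  have hT0 : 2400 ≤ T := by linarith
  have hκn0 : 0 ≤ κ * n := by positivity
  have hc1 : κ * n ≤ (⌈κ * n⌉₊ : ℝ) := Nat.le_ceil _
  have hc2 : (⌈κ * n⌉₊ : ℝ) < κ * n + 1 := Nat.ceil_lt_add_one hκn0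
  have hc3 : ⌈κ * n⌉₊ + 1 ≤ P.card := by
    have : ((⌈κ * n⌉₊ + 1 : ℕ) : ℝ) ≤ P.card := by
      push_cast
      linarith
    exact_mod_cast this
  obtain ⟨m, hm⟩ : ∃ m : ℕ, m + 1 + ⌈κ * n⌉₊ = P.card := ⟨P.card - ⌈κ * n⌉₊ - 1, by omega⟩
  have hmR : (m : ℝ) + 1 + (⌈κ * n⌉₊ : ℝ) = P.card := by exact_mod_cast hm
  have hh : (m : ℝ) + 1 + κ * n ≤ P.card := by linarith
  have hpm : (P.card : ℝ) ≤ m + T / 400 := by linarith
  have hmT : 10 ^ 5 * T - T / 400 ≤ m := by linarith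
  have hmp : (P.card : ℝ) / 2 ≤ m := by linarith
  have hηm : 5000 * T ≤ η * m := by
    have := mul_le_mul_of_nonneg_left hmp hη0.le
    linarith
  have hm0 : (0 : ℝ) < m := by linarith
  have h2m : 2 * m ≤ n := by
    have : ((2 * m : ℕ) : ℝ) ≤ n := by
      push_cast
      linarith
    exact_mod_cast this
  have hSB : ((((Finset.univ : Finset (ZMod n)) ×ˢ Finset.Icc 1 m).filter
      (fun x : ZMod n × ℕ => cz z x.1 x.2 ≠ cz z (x.1 + 1) x.2)).card : ℝ) ≤ τ ^ 2 * n ^ 2 := by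
    refine (shift_count hL hκ0 hPn hh).trans ?_
    exact mul_le_mul_of_nonneg_right hκ (by positivity)
  obtain ⟨α, β, hα, hM⟩ := motionT hL.zp hτ0 h2m (by rw [show 40 * τ * n = 40 * T by rw [hT]; ring]; linarith) hSB
  set M := (Finset.univ : Finset (ZMod n)).filter (fun y => z (y + 1) ≠ α * z y + β) with hMd
  have hηmn : 5000 * T * n ≤ η * m * n := mul_le_mul_of_nonneg_right hηm hn0.le
  have hMT : (M.card : ℝ) * m ≤ 20 * T * n := by
    rw [hT]
    nlinarith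
  have hMc : (M.card : ℝ) ≤ 2 * (η / 500) * n := by
    by_contra hcon
    push Not at hcon
    have := mul_lt_mul_of_pos_right hcon hm0
    nlinarith
  obtain ⟨hα1, hα2⟩ := hL.zp.rotation (lam := η / 500) (by linarith) hMc
  have h1α : 1 - α ≠ 0 := sub_ne_zero.2 fun e => hα1 e.symm
  set O : ℂ := β / (1 - α) with hO
  have hOβ : O * (1 - α) = β := by rw [hO]; exact div_mul_cancel₀ _ h1α
  have hu : ∀ y : ZMod n, y ∉ M → z (y + 1) - O = α * (z y - O) := by
    intro y hy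
    have e1 : z (y + 1) = α * z y + β := by
      by_contra hc
      exact hy (by rw [hMd, mem_filter]; exact ⟨Finset.mem_univ _, hc⟩)
    rw [e1]
    linear_combination (-1 : ℂ) * hOβ
  have hPfc := perfect_count hL hκ0 hPn hh
  set VG := ((Finset.univ : Finset (ZMod n)) ×ˢ Finset.Icc 1 m).filter
    (fun x : ZMod n × ℕ => (x.1 ∈ G ∧ 2 ≤ x.2 ∧ Nx P (cz z x.1 (x.2 - 1)) (cz z x.1 x.2) ∧
        Nx P (cz z x.1 x.2) (cz z x.1 (x.2 + 1))) ∧ (x.1 + (x.2 : ZMod n) ∉ M ∧ x.1 + (x.2 : ZMod n) - 1 ∉ M))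
    with hVGd
  have hbad : (((((Finset.univ : Finset (ZMod n)) ×ˢ Finset.Icc 1 m) \ VG).card : ℕ) : ℝ) ≤
      η / 100 * m * n := by
    have hsub : ((Finset.univ : Finset (ZMod n)) ×ˢ Finset.Icc 1 m) \ VG ⊆
        ((Finset.univ : Finset (ZMod n)) ×ˢ Finset.Icc 1 m).filter
          (fun x : ZMod n × ℕ => ¬ (x.1 ∈ G ∧ 2 ≤ x.2 ∧ Nx P (cz z x.1 (x.2 - 1)) (cz z x.1 x.2) ∧
            Nx P (cz z x.1 x.2) (cz z x.1 (x.2 + 1)))) ∪
        ((M ×ˢ Finset.Icc 1 m).image (fun x => (x.1 - (x.2 : ZMod n), x.2)) ∪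
          (M ×ˢ Finset.Icc 1 m).image (fun x => (x.1 + 1 - (x.2 : ZMod n), x.2))) := by
      rintro ⟨i, s⟩ hx
      rw [mem_sdiff, hVGd, mem_filter] at hx
      rw [mem_union, mem_union, mem_filter]
      have hs := (mem_product.1 hx.1).2
      simp only at hs
      by_cases c1 : (i ∈ G ∧ 2 ≤ s ∧ Nx P (cz z i (s - 1)) (cz z i s) ∧ Nx P (cz z i s) (cz z i (s + 1)))
      · right
        by_cases c2 : i + (s : ZMod n) ∈ M
        · left
          exact Finset.mem_image.2 ⟨(i + (s : ZMod n), s), mem_product.2 ⟨c2, hs⟩,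
            by simp only [add_sub_cancel_right]⟩
        · right
          have c3 : i + (s : ZMod n) - 1 ∈ M := by
            by_contra c4
            exact hx.2 ⟨hx.1, c1, c2, c4⟩
          exact Finset.mem_image.2 ⟨(i + (s : ZMod n) - 1, s), mem_product.2 ⟨c3, hs⟩,
            by simp only [sub_add_cancel, add_sub_cancel_right]⟩
      · exact Or.inl ⟨hx.1, c1⟩
    have c0 := (Finset.card_le_card hsub).trans (Finset.card_union_le _ _)
    have c1 := Finset.card_union_le ((M ×ˢ Finset.Icc 1 m).image (fun x => (x.1 - (x.2 : ZMod n), x.2)))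
      ((M ×ˢ Finset.Icc 1 m).image (fun x => (x.1 + 1 - (x.2 : ZMod n), x.2)))
    have c2 : (M ×ˢ Finset.Icc 1 m).card = M.card * m := by
      rw [Finset.card_product, Nat.card_Icc, Nat.add_sub_cancel]
    have c3 : ((M ×ˢ Finset.Icc 1 m).image (fun x => (x.1 - (x.2 : ZMod n), x.2))).card ≤ M.card * m :=
      Finset.card_image_le.trans c2.le
    have c4 : ((M ×ˢ Finset.Icc 1 m).image (fun x => (x.1 + 1 - (x.2 : ZMod n), x.2))).card ≤ M.card * m :=
      Finset.card_image_le.trans c2.le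
    have c5 : (((Finset.univ : Finset (ZMod n)) ×ˢ Finset.Icc 1 m) \ VG).card ≤
        (((Finset.univ : Finset (ZMod n)) ×ˢ Finset.Icc 1 m).filter
          (fun x : ZMod n × ℕ => ¬ (x.1 ∈ G ∧ 2 ≤ x.2 ∧ Nx P (cz z x.1 (x.2 - 1)) (cz z x.1 x.2) ∧
            Nx P (cz z x.1 x.2) (cz z x.1 (x.2 + 1))))).card + 2 * (M.card * m) := by omega
    have c6 : (((((Finset.univ : Finset (ZMod n)) ×ˢ Finset.Icc 1 m) \ VG).card : ℕ) : ℝ) ≤
        ((((Finset.univ : Finset (ZMod n)) ×ˢ Finset.Icc 1 m).filter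
          (fun x : ZMod n × ℕ => ¬ (x.1 ∈ G ∧ 2 ≤ x.2 ∧ Nx P (cz z x.1 (x.2 - 1)) (cz z x.1 x.2) ∧
            Nx P (cz z x.1 x.2) (cz z x.1 (x.2 + 1))))).card : ℝ) + 2 * (M.card * m) := by exact_mod_cast c5
    have c7 : 7 * κ * (n : ℝ) ^ 2 ≤ 7 / 800 * (T * n) := by
      have := mul_le_mul_of_nonneg_right hκT hn0.le
      nlinarith
    have c8 : (n : ℝ) ≤ T * n / 2400 := by
      have := mul_le_mul_of_nonneg_right hT0 hn0.le
      linarith
    have c9 : 0 ≤ T * n := by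
      have : 0 ≤ T := by linarith
      positivity
    have c10 : 50 * (T * n) ≤ η / 100 * m * n := by linarith
    linarith
  have hVG : VG ⊆ (Finset.univ : Finset (ZMod n)) ×ˢ Finset.Icc 1 m := Finset.filter_subset _ _
  have hinj : ∀ i s s', (i, s) ∈ VG → (i, s') ∈ VG → cz z i s = cz z i s' → s = s' := by
    intro i s s' h1 h2 h3
    rw [hVGd, mem_filter, mem_product, mem_Icc] at h1 h2
    obtain ⟨⟨_, hs1, hs2⟩, ⟨hiG, _, _⟩, _⟩ := h1
    obtain ⟨⟨_, ht1, ht2⟩, _, _⟩ := h2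
    simp only at hs1 hs2 hiG ht1 ht2
    have hmiss : m + 1 + (P.filter (fun D => D ∉ (Icc 1 (b i)).image (cz z i))).card ≤ P.card := by
      have h4 := hL.missR i hiG
      have : ((m + 1 + (P.filter (fun D => D ∉ (Icc 1 (b i)).image (cz z i))).card : ℕ) : ℝ) ≤
          P.card := by
        push_cast
        linarith
      exact_mod_cast this
    have hmb := (steps (hL.incR i hiG) (hL.b1 i hiG).1 (hL.b1 i hiG).2.2 hL.Pd hmiss).1
    by_contra hne
    rcases lt_or_gt_of_ne hne with hlt | hlt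
    · have := hL.incR i hiG s s' hs1 hlt (by omega)
      rw [h3] at this
      exact lt_irrefl _ this
    · have := hL.incR i hiG s' s ht1 hlt (by omega)
      rw [h3] at this
      exact lt_irrefl _ this
  have hpair : ∀ x ∈ VG, ∀ y ∈ VG, cz z x.1 x.2 = cz z y.1 y.2 →
      (Complex.normSq (z x.1 - O) = Complex.normSq (z y.1 - O) ∧
        Complex.normSq (z (x.1 + (x.2 : ZMod n)) - O) = Complex.normSq (z (y.1 + (y.2 : ZMod n)) - O)) ∨
      (Complex.normSq (z x.1 - O) = Complex.normSq (z (y.1 + (y.2 : ZMod n)) - O) ∧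
        Complex.normSq (z (x.1 + (x.2 : ZMod n)) - O) = Complex.normSq (z y.1 - O)) := by
    rintro ⟨i, s⟩ hx ⟨j, s'⟩ hy hD
    rw [hVGd, mem_filter, mem_product, mem_Icc] at hx hy
    obtain ⟨⟨_, hs1, hs2⟩, ⟨_, hs3, hs4, hs5⟩, hs6, hs7⟩ := hx
    obtain ⟨⟨_, ht1', ht2''⟩, ⟨_, ht3, ht4, ht5⟩, ht6, ht7⟩ := hy
    simp only at hs1 hs2 hs3 hs4 hs5 hs6 hs7 ht1' ht2'' ht3 ht4 ht5 ht6 ht7 hD ⊢
    have hup : cz z i (s + 1) = cz z j (s' + 1) := by
      rw [hD] at hs5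
      exact hs5.unique_right ht5
    have hdn : cz z i (s - 1) = cz z j (s' - 1) := by
      rw [hD] at hs4
      exact hs4.unique_left ht4
    have e1 : z (i + (s : ZMod n) + 1) - O = α * (z (i + (s : ZMod n)) - O) := hu _ hs6
    have e2 : z (i + (s : ZMod n)) - O = α * (z (i + (s : ZMod n) - 1) - O) := by
      have := hu _ hs7
      rwa [sub_add_cancel] at this
    have f1 : z (j + (s' : ZMod n) + 1) - O = α * (z (j + (s' : ZMod n)) - O) := hu _ ht6
    have f2 : z (j + (s' : ZMod n)) - O = α * (z (j + (s' : ZMod n) - 1) - O) := by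
      have := hu _ ht7
      rwa [sub_add_cancel] at this
    have dsub : ∀ a b : ℂ, dist (a - O) (b - O) = dist a b := fun a b => dist_sub_right a b O
    have g0 : dist (z i - O) (z (i + (s : ZMod n)) - O) = dist (z j - O) (z (j + (s' : ZMod n)) - O) := by
      rw [dsub, dsub]; exact hD
    have g1 : dist (z i - O) (z (i + (s : ZMod n) + 1) - O) = dist (z j - O) (z (j + (s' : ZMod n) + 1) - O) := by
      rw [dsub, dsub]
      unfold cz at hup
      have e3 : i + ((s + 1 : ℕ) : ZMod n) = i + (s : ZMod n) + 1 := by push_cast; ring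
      have e4 : j + ((s' + 1 : ℕ) : ZMod n) = j + (s' : ZMod n) + 1 := by push_cast; ring
      rw [e3, e4] at hup
      exact hup
    have g2 : dist (z i - O) (z (i + (s : ZMod n) - 1) - O) = dist (z j - O) (z (j + (s' : ZMod n) - 1) - O) := by
      rw [dsub, dsub]
      unfold cz at hdn
      have e3 : i + ((s - 1 : ℕ) : ZMod n) = i + (s : ZMod n) - 1 := by
        rw [Nat.cast_sub (by omega), Nat.cast_one]; ring
      have e4 : j + ((s' - 1 : ℕ) : ZMod n) = j + (s' : ZMod n) - 1 := by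
        rw [Nat.cast_sub (by omega), Nat.cast_one]; ring
      rw [e3, e4] at hdn
      exact hdn
    obtain ⟨r1, r2⟩ := radii hα hα1 hα2 e1 e2 f1 f2 g0 g1 g2
    exact pair_eq r1 r2
  have hPc : (P.card : ℝ) ≤ (1 + η / 100) * m := by linarith
  have hm3 : 3 ≤ m := by
    have : ((3 : ℕ) : ℝ) ≤ m := by
      push_cast
      linarith
    exact_mod_cast this
  obtain ⟨v, hv⟩ := classesT (c := cz z) (V := fun i => Complex.normSq (z i - O)) (P := P) (VG := VG) (h := m)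
    (t := η / 100) (η := η) hVG
    (fun x hx => by
      rw [hVGd, mem_filter] at hx
      exact hx.2.1.2.2.2.1)
    hinj hpair hPc hm3 hbad (by positivity) hη0 hη1 le_rfl
  refine ⟨O, √v, le_trans (Nat.cast_le.2 (Finset.card_le_card ?_)) hv⟩
  intro i hi
  rw [mem_filter] at hi ⊢
  refine ⟨hi.1, fun hV => hi.2 ?_⟩
  rw [← hV, Complex.dist_eq, Complex.norm_def]

end Pool.Agent.Lib.MP_0d8f69_coT
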