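import Pool.Agent.Lib.MP_0d8f69_coZ.Fin

/-!
MP_0d8f69_co, theorem T: the local structure.
-/

set_option autoImplicit false

namespace Pool.Agent.Lib.MP_0d8f69_coT

open Finset Pool.Agent.Lib.MP_0d8f69_co Pool.Agent.Lib.MP_0d8f69_coI Pool.Agent.Lib.MP_0d8f69_coZ

/-- local structure of a convex polygon (vertices `z i`, `i ∈ ZMod n`, in cyclic order): from the vertices of `G`
(almost all) the distances increase on both sides up to the distance `d`, and on each side almost every distance of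
`P` occurs and almost every distance `< d` is in `P` -/
structure Loc (n : ℕ) [NeZero n] (z : ZMod n → ℂ) (P : Finset ℝ) (G : Finset (ZMod n)) (κ d : ℝ)
    (b a : ZMod n → ℕ) : Prop where
  zp : Zp n z
  cG : (((Finset.univ : Finset (ZMod n)).filter (fun i => i ∉ G)).card : ℝ) ≤ κ * n
  Pd : ∀ D ∈ P, D < d
  b1 : ∀ i ∈ G, 1 ≤ b i ∧ b i < n ∧ d ≤ cz z i (b i)
  a1 : ∀ i ∈ G, 1 ≤ a i ∧ a i < n ∧ d ≤ cz z i (n - a i)
  incR : ∀ i ∈ G, ∀ s t, 1 ≤ s → s < t → t ≤ b i → cz z i s < cz z i t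
  incL : ∀ i ∈ G, ∀ s t, 1 ≤ s → s < t → t ≤ a i → cz z i (n - s) < cz z i (n - t)
  missR : ∀ i ∈ G, ((P.filter (fun D => D ∉ (Icc 1 (b i)).image (cz z i))).card : ℝ) ≤ κ * n
  missL : ∀ i ∈ G, ((P.filter (fun D => D ∉ (Icc 1 (a i)).image (fun s => cz z i (n - s)))).card : ℝ) ≤ κ * n
  unpR : ∀ i ∈ G, (((Icc 1 (b i)).filter (fun s => cz z i s < d ∧ cz z i s ∉ P)).card : ℝ) ≤ κ * n
  unpL : ∀ i ∈ G, (((Icc 1 (a i)).filter (fun s => cz z i (n - s) < d ∧ cz z i (n - s) ∉ P)).card : ℝ) ≤ κ * n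

end Pool.Agent.Lib.MP_0d8f69_coT
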