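import Pool.Agent.Lib.MP_0d8f69_coT.ChainE
import Pool.Agent.Lib.MP_0d8f69_coT.LocD

/-!
MP_0d8f69_co, theorem T: the local structure.
-/

set_option autoImplicit false

namespace Pool.Agent.Lib.MP_0d8f69_coT

open Finset Pool.Agent.Lib.MP_0d8f69_co Pool.Agent.Lib.MP_0d8f69_coI Pool.Agent.Lib.MP_0d8f69_coZ

variable {S T : Finset ℂ} {P : Finset ℝ} {κ β ω : ℝ} {O : ℂ} {ρ r : ℝ} {n : ℕ} [NeZero n] {z : ZMod n → ℂ}

private theorem locE_mem (himg : (Finset.univ : Finset (ZMod n)).image z = S) (j : ZMod n) : z j ∈ S := by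
  rw [← himg]
  exact Finset.mem_image_of_mem z (Finset.mem_univ j)

/-- Proof: `Zp.pos` (for `n ≤ 2` there is nothing to show). -/
theorem ch_right (hz : Zp n z) (himg : (Finset.univ : Finset (ZMod n)).image z = S) (i : ZMod n) :
    Ch n S 1 (fun s => z (i + (s : ZMod n))) := by
  refine ⟨fun s _ => locE_mem himg _, fun x hx => ?_, fun s t t' hst htt' ht' => ?_⟩
  · rw [← himg] at hx
    obtain ⟨j, _, rfl⟩ := Finset.mem_image.1 hx
    refine ⟨(j - i).val, ZMod.val_lt _, ?_⟩
    show z (i + (((j - i).val : ℕ) : ZMod n)) = z j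
    rw [ZMod.natCast_zmod_val, add_sub_cancel]
  · have h := hz.pos (i + (s : ZMod n)) (t - s) (t' - s) (by omega) (by omega) (by omega)
    have e1 : i + (s : ZMod n) + ((t - s : ℕ) : ZMod n) = i + (t : ZMod n) := by
      rw [add_assoc, ← Nat.cast_add, Nat.add_sub_cancel' hst.le]
    have e2 : i + (s : ZMod n) + ((t' - s : ℕ) : ZMod n) = i + (t' : ZMod n) := by
      rw [add_assoc, ← Nat.cast_add, Nat.add_sub_cancel' (hst.trans htt').le]
    rw [e1, e2] at h
    rw [one_mul]
    exact h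

/-- Proof: `dt (z (i - s)) (z (i - t)) (z (i - t'))` for `s < t < t' < n` is `- dt (z j) (z (j + (t' - t)))
(z (j + (t' - s)))` with `j = i - t'` (`dt_rot`, `dt_swap`), negative by `Zp.pos`. -/
theorem ch_left (hz : Zp n z) (himg : (Finset.univ : Finset (ZMod n)).image z = S) (i : ZMod n) :
    Ch n S (-1) (fun s => z (i - (s : ZMod n))) := by
  refine ⟨fun s _ => locE_mem himg _, fun x hx => ?_, fun s t t' hst htt' ht' => ?_⟩
  · rw [← himg] at hx
    obtain ⟨j, _, rfl⟩ := Finset.mem_image.1 hx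
    refine ⟨(i - j).val, ZMod.val_lt _, ?_⟩
    show z (i - (((i - j).val : ℕ) : ZMod n)) = z j
    rw [ZMod.natCast_zmod_val, sub_sub_cancel]
  · have h := hz.pos (i - (t' : ZMod n)) (t' - t) (t' - s) (by omega) (by omega) (by omega)
    have e1 : i - (t' : ZMod n) + ((t' - t : ℕ) : ZMod n) = i - (t : ZMod n) := by
      rw [Nat.cast_sub htt'.le]
      ring
    have e2 : i - (t' : ZMod n) + ((t' - s : ℕ) : ZMod n) = i - (s : ZMod n) := by
      rw [Nat.cast_sub (hst.trans htt').le]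
      ring
    rw [e1, e2, dt_swap, dt_rot'] at h
    show 0 < -1 * dt (z (i - (s : ZMod n))) (z (i - (t : ZMod n))) (z (i - (t' : ZMod n)))
    linarith

private theorem locE_zero {v w : ℂ} (hv : v ≠ 0) (h1 : |dp v w| ≤ 9 / 10 * |cr v w|) (h2 : cr v w = 0) :
    w = 0 := by
  rw [h2, abs_zero, mul_zero] at h1
  have h3 : dp v w = 0 := abs_eq_zero.1 (le_antisymm h1 (abs_nonneg _))
  unfold dp at h3
  unfold cr at h2
  have h4 : 0 < v.re ^ 2 + v.im ^ 2 := by
    rcases eq_or_ne v.re 0 with h5 | h5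
    · have h6 : v.im ≠ 0 := by
        intro h6
        exact hv (Complex.ext h5 h6)
      positivity
    · positivity
  have h5 : (v.re ^ 2 + v.im ^ 2) * w.re = 0 := by linear_combination v.re * h3 - v.im * h2
  have h6 : (v.re ^ 2 + v.im ^ 2) * w.im = 0 := by linear_combination v.im * h3 + v.re * h2
  have h7 := (mul_eq_zero.1 h5).resolve_left h4.ne'
  have h8 := (mul_eq_zero.1 h6).resolve_left h4.ne'
  exact Complex.ext h7 h8

private theorem locE_typ (h : Hom S T P κ) {x : ℂ} (hx : x ∈ T) :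
    ((P.filter (fun D => kd S D x ≠ 2)).card : ℝ) ≤ κ * S.card := by
  refine le_trans ?_ (h.typ x hx)
  have h1 : ((P.filter (fun D => kd S D x ≠ 2)).card : ℝ) =
      ∑ D ∈ P.filter (fun D => kd S D x ≠ 2), (1 : ℝ) := by
    rw [Finset.sum_const, nsmul_eq_mul, mul_one]
  rw [h1]
  refine (Finset.sum_le_sum fun D hD => ?_).trans
    (Finset.sum_le_sum_of_subset_of_nonneg (Finset.filter_subset _ P) fun _ _ _ => abs_nonneg _)
  have h2 := (Finset.mem_filter.1 hD).2
  have h3 : ((kd S D x : ℤ) - 2) ≠ 0 := by omega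
  have h4 : (1 : ℤ) ≤ |(kd S D x : ℤ) - 2| := Int.one_le_abs h3
  have h5 : ((1 : ℤ) : ℝ) ≤ ((|(kd S D x : ℤ) - 2| : ℤ) : ℝ) := Int.cast_le.2 h4
  push_cast at h5
  exact h5

private theorem locE_unp (h : Hom S T P κ) {x : ℂ} (hx : x ∈ T) {σ : ℝ} {u : ℕ → ℂ} (hu : Ch n S σ u)
    (hu0 : u 0 = x) (hinj : ∀ s t, s < n → t < n → u s = u t → s = t) {b : ℕ} (hb : b < n) {d : ℝ} :
    (((Icc 1 b).filter (fun s => dist x (u s) < d ∧ dist x (u s) ∉ P.filter (fun D => D < d))).card : ℝ) ≤
      κ * S.card := by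
  classical
  refine le_trans ?_ (h.unp x hx)
  rw [Nat.cast_le]
  refine Finset.card_le_card_of_injOn u ?_ ?_
  · intro s hs
    have hs' := Finset.mem_filter.1 (Finset.mem_coe.1 hs)
    have hs1 := Finset.mem_Icc.1 hs'.1
    refine Finset.mem_coe.2 (Finset.mem_filter.2 ⟨hu.mem s (by omega), ?_, ?_⟩)
    · intro he
      have := hinj s 0 (by omega) (by omega) (by rw [he, hu0])
      omega
    · intro hP
      exact hs'.2.2 (Finset.mem_filter.2 ⟨hP, hs'.2.1⟩)
  · intro s hs t ht hst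
    have hs1 := Finset.mem_Icc.1 (Finset.mem_filter.1 (Finset.mem_coe.1 hs)).1
    have ht1 := Finset.mem_Icc.1 (Finset.mem_filter.1 (Finset.mem_coe.1 ht)).1
    exact hinj s t (by omega) (by omega) hst

private theorem locE_miss (g : Geo S T P κ β ω O ρ r) {x : ℂ} (hx : x ∈ T) {σ : ℝ} (hσ : σ = 1 ∨ σ = -1)
    {u v : ℕ → ℂ} (hu : Ch n S σ u) (hv : Ch n S (-σ) v) (hu0 : u 0 = x) (hv0 : v 0 = x) {b a : ℕ}
    (mono : ∀ s t, 1 ≤ s → s < t → t ≤ a → dist x (v s) < dist x (v t))
    (lastu : ∀ s, 1 ≤ s → s < n → u s ∈ T → 400 * r ≤ dist x (u s) → dist x (u s) < ρ / 2500 →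
      0 < σ * cr (x - O) (u s - x) → s ≤ b)
    (lastv : ∀ s, 1 ≤ s → s < n → v s ∈ T → 400 * r ≤ dist x (v s) → dist x (v s) < ρ / 2500 →
      0 < -σ * cr (x - O) (v s - x) → s ≤ a) {d : ℝ} (hd : d ≤ ρ / 2500) :
    (((P.filter (fun D => D < d)).filter (fun D => D ∉ (Icc 1 b).image (fun s => dist x (u s)))).card : ℝ) ≤
      3 * β * S.card := by
  classical
  have hρ := g.rho
  have hvO : x - O ≠ 0 := by
    intro h0
    have h1 := (g.rad x hx).1
    rw [h0, norm_zero] at h1
    linarith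
  -- the bad distances
  have hsub : (P.filter (fun D => D < d)).filter (fun D => D ∉ (Icc 1 b).image (fun s => dist x (u s))) ⊆
      P.filter (fun D => kd S D x ≠ 2) ∪
        ((S \ T) ∪ T.filter (fun y => dist x y < 400 * r)).image (fun y => dist x y) := by
    intro D hD
    obtain ⟨hD1, hD2⟩ := Finset.mem_filter.1 hD
    obtain ⟨hDP, hDd⟩ := Finset.mem_filter.1 hD1
    rw [Finset.mem_union]
    by_contra hcon
    rw [not_or] at hcon
    obtain ⟨hc1, hc2⟩ := hcon
    have hk : kd S D x = 2 := by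
      by_contra hk
      exact hc1 (Finset.mem_filter.2 ⟨hDP, hk⟩)
    unfold kd at hk
    obtain ⟨q, q', hqq, hset⟩ := Finset.card_eq_two.1 hk
    -- the properties of a point at distance `D`
    have key : ∀ y, y ∈ S → y ≠ x → dist x y = D → ∃ s, 1 ≤ s ∧ s ≤ a ∧ v s = y := by
      intro y hyS hyx hyD
      have hyT : y ∈ T ∧ 400 * r ≤ dist x y := by
        by_contra hc
        apply hc2
        refine Finset.mem_image.2 ⟨y, ?_, hyD⟩
        rw [Finset.mem_union]
        by_cases hyT : y ∈ T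
        · right
          refine Finset.mem_filter.2 ⟨hyT, ?_⟩
          by_contra h1
          exact hc ⟨hyT, not_lt.1 h1⟩
        · left
          exact Finset.mem_sdiff.2 ⟨hyS, hyT⟩
      have hyd : dist x y < ρ / 2500 := by
        rw [hyD]
        exact hDd.trans_le hd
      have hcone := g.cone x hx x hx y hyT.1 (by rw [dist_self]; positivity)
        (by linarith) hyT.2
      have hcr : cr (x - O) (y - x) ≠ 0 := by
        intro h0
        exact hyx (sub_eq_zero.1 (locE_zero hvO hcone h0))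
      have hneg : ¬ 0 < σ * cr (x - O) (y - x) := by
        intro hpos
        obtain ⟨s, hs, rfl⟩ := hu.sur y hyS
        have hs1 : 1 ≤ s := by
          rcases Nat.eq_zero_or_pos s with h0 | h0
          · rw [h0, hu0] at hyx
            exact absurd rfl hyx
          · exact h0
        have hsb := lastu s hs1 hs hyT.1 hyT.2 hyd hpos
        exact hD2 (Finset.mem_image.2 ⟨s, Finset.mem_Icc.2 ⟨hs1, hsb⟩, hyD⟩)
      have hpos : 0 < -σ * cr (x - O) (y - x) := by
        have h1 : σ * cr (x - O) (y - x) ≠ 0 := by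
          refine mul_ne_zero ?_ hcr
          rcases hσ with h | h <;> rw [h] <;> norm_num
        have h2 := lt_of_le_of_ne (not_lt.1 hneg) h1
        linarith
      obtain ⟨s, hs, rfl⟩ := hv.sur y hyS
      have hs1 : 1 ≤ s := by
        rcases Nat.eq_zero_or_pos s with h0 | h0
        · rw [h0, hv0] at hyx
          exact absurd rfl hyx
        · exact h0
      exact ⟨s, hs1, lastv s hs1 hs hyT.1 hyT.2 hyd hpos, rfl⟩
    have hq : q ∈ S.filter (fun q => q ≠ x ∧ dist x q = D) := by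
      rw [hset]
      exact Finset.mem_insert_self _ _
    have hq' : q' ∈ S.filter (fun q => q ≠ x ∧ dist x q = D) := by
      rw [hset]
      exact Finset.mem_insert_of_mem (Finset.mem_singleton_self _)
    obtain ⟨hqS, hqx, hqD⟩ := Finset.mem_filter.1 hq
    obtain ⟨hqS', hqx', hqD'⟩ := Finset.mem_filter.1 hq'
    obtain ⟨s, hs1, hsa, hs⟩ := key q hqS hqx hqD
    obtain ⟨t, ht1, hta, ht⟩ := key q' hqS' hqx' hqD'
    rcases lt_trichotomy s t with hst | hst | hst
    · have := mono s t hs1 hst hta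
      rw [hs, ht, hqD, hqD'] at this
      exact lt_irrefl _ this
    · rw [hst] at hs
      exact hqq (hs.symm.trans ht)
    · have := mono t s ht1 hst hsa
      rw [hs, ht, hqD, hqD'] at this
      exact lt_irrefl _ this
  have h1 : (((P.filter (fun D => D < d)).filter
      (fun D => D ∉ (Icc 1 b).image (fun s => dist x (u s)))).card : ℝ) ≤
      ((P.filter (fun D => kd S D x ≠ 2)).card : ℝ) + (((S \ T).card : ℝ) +
        ((T.filter (fun y => dist x y < 400 * r)).card : ℝ)) := by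
    have h2 := (Finset.card_le_card hsub).trans (Finset.card_union_le _ _)
    have h3 := (Finset.card_image_le (s := (S \ T) ∪ T.filter (fun y => dist x y < 400 * r))
      (f := fun y => dist x y)).trans (Finset.card_union_le _ _)
    have h4 := h2.trans (Nat.add_le_add_left h3 _)
    exact_mod_cast h4
  have h2 := locE_typ g.hom hx
  have h3 := g.hom.cT
  have h4 := g.few x hx
  have h5 : κ * (S.card : ℝ) ≤ β * S.card := mul_le_mul_of_nonneg_right g.kb (Nat.cast_nonneg _)
  linarith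

/-- Proof. `G = {i : z i ∈ T}`, `P' = {D ∈ P : D < d}`. For `i ∈ G` take `b i` from `Geo.chain` for `ch_right` and
`a i` from `Geo.chain` for `ch_left` (`cz z i s = dist (z i) (z (i + s))`, `cz z i (n - s) = dist (z i) (z (i - s))`
for `s ≤ n`). `unpR`: such a distance is `< d` and not in `P'`, so not in `P`; `Hom.unp` (the map `s ↦ z (i + s)` is
injective on `s < n`). `missR`: let `x = z i`, `D ∈ P'` not among `cz z i 1, ..., cz z i (b i)`. Either
`kd S D x ≠ 2`: this holds for at most `κ n` of the `D ∈ P` by `Hom.typ`. Or there are exactly two points `q ≠ x` of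
`S` at distance `D` from `x`; if one of them is not in `T` or has `dist x q < 400 r`, then `D` is one of at most
`κ n + β n` values (`Hom.cT`, `Geo.few`); otherwise both are in `T`, at distance `≥ 400 r` and `< ρ / 2500`; by the last
claim of `Geo.chain` none of them has `0 < cr (x - O) (q - x)`, and `cr (x - O) (q - x) ≠ 0` by `Geo.cone` (otherwise
`q = x`), so both have `0 < - cr (x - O) (q - x)` and are `z (i - s)`, `z (i - t)` with `1 ≤ s, t ≤ a i`, `s ≠ t`, a
contradiction to the strict monotonicity on the left. In total at most `(2 κ + β) n ≤ 3 β n` values. `missL` in the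
same way. -/
theorem loc_of_geo (g : Geo S T P κ β ω O ρ r) (hβ : 0 < β) (hn : S.card = n) (hz : Zp n z)
    (himg : (Finset.univ : Finset (ZMod n)).image z = S) {d : ℝ} (hd0 : 0 < d) (hd : d ≤ ρ / 2500) :
    ∃ b a : ZMod n → ℕ, Loc n z (P.filter (fun D => D < d)) ((Finset.univ : Finset (ZMod n)).filter (fun i => z i ∈ T))
      (3 * β) d b a := by
  have hρ := g.rho
  have hn0 : (0 : ℝ) ≤ (n : ℝ) := Nat.cast_nonneg _
  have e0 : ∀ i : ZMod n, z (i + ((0 : ℕ) : ZMod n)) = z i := fun i => by rw [Nat.cast_zero, add_zero]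
  have e0' : ∀ i : ZMod n, z (i - ((0 : ℕ) : ZMod n)) = z i := fun i => by rw [Nat.cast_zero, sub_zero]
  have hR : ∀ i : ZMod n, ∃ b, z i ∈ T → 1 ≤ b ∧ b < n ∧
      (∀ s t : ℕ, 1 ≤ s → s < t → t ≤ b → dist (z i) (z (i + (s : ZMod n))) < dist (z i) (z (i + (t : ZMod n)))) ∧
      ρ / 2000 ≤ dist (z i) (z (i + (b : ZMod n))) ∧
      ∀ s : ℕ, 1 ≤ s → s < n → z (i + (s : ZMod n)) ∈ T → 400 * r ≤ dist (z i) (z (i + (s : ZMod n))) →
        dist (z i) (z (i + (s : ZMod n))) < ρ / 2500 →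
        0 < (1 : ℝ) * cr (z i - O) (z (i + (s : ZMod n)) - z i) → s ≤ b := by
    intro i
    by_cases hi : z i ∈ T
    · obtain ⟨b, h1, h2, h3, h4, h5⟩ := g.chain hβ (Or.inl rfl) (ch_right hz himg i) (by
        show z (i + ((0 : ℕ) : ZMod n)) ∈ T
        rw [e0]
        exact hi)
      simp only [e0] at h3 h4 h5
      exact ⟨b, fun _ => ⟨h1, h2, h3, h4, h5⟩⟩
    · exact ⟨0, fun h => absurd h hi⟩
  have hL : ∀ i : ZMod n, ∃ a, z i ∈ T → 1 ≤ a ∧ a < n ∧
      (∀ s t : ℕ, 1 ≤ s → s < t → t ≤ a → dist (z i) (z (i - (s : ZMod n))) < dist (z i) (z (i - (t : ZMod n)))) ∧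
      ρ / 2000 ≤ dist (z i) (z (i - (a : ZMod n))) ∧
      ∀ s : ℕ, 1 ≤ s → s < n → z (i - (s : ZMod n)) ∈ T → 400 * r ≤ dist (z i) (z (i - (s : ZMod n))) →
        dist (z i) (z (i - (s : ZMod n))) < ρ / 2500 →
        0 < (-1 : ℝ) * cr (z i - O) (z (i - (s : ZMod n)) - z i) → s ≤ a := by
    intro i
    by_cases hi : z i ∈ T
    · obtain ⟨b, h1, h2, h3, h4, h5⟩ := g.chain hβ (Or.inr rfl) (ch_left hz himg i) (by
        show z (i - ((0 : ℕ) : ZMod n)) ∈ T
        rw [e0']
        exact hi)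
      simp only [e0'] at h3 h4 h5
      exact ⟨b, fun _ => ⟨h1, h2, h3, h4, h5⟩⟩
    · exact ⟨0, fun h => absurd h hi⟩
  choose b hb using hR
  choose a ha using hL
  have ecz : ∀ (i : ZMod n) (s : ℕ), s ≤ n → cz z i (n - s) = dist (z i) (z (i - (s : ZMod n))) := by
    intro i s hs
    unfold cz
    rw [Nat.cast_sub hs, ZMod.natCast_self, zero_sub, ← sub_eq_add_neg]
  have hG : ∀ i : ZMod n, i ∈ (Finset.univ : Finset (ZMod n)).filter (fun i => z i ∈ T) → z i ∈ T :=
    fun i hi => (Finset.mem_filter.1 hi).2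
  have h3β : κ * (S.card : ℝ) ≤ 3 * β * n := by
    rw [hn]
    refine mul_le_mul_of_nonneg_right ?_ hn0
    linarith [g.kb]
  have hinjR : ∀ (i : ZMod n) (s t : ℕ), s < n → t < n → z (i + (s : ZMod n)) = z (i + (t : ZMod n)) → s = t := by
    intro i s t hs ht h
    have h1 := add_left_cancel (hz.inj h)
    have h2 := congrArg ZMod.val h1
    rwa [ZMod.val_natCast_of_lt hs, ZMod.val_natCast_of_lt ht] at h2
  have hinjL : ∀ (i : ZMod n) (s t : ℕ), s < n → t < n → z (i - (s : ZMod n)) = z (i - (t : ZMod n)) → s = t := by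
    intro i s t hs ht h
    have h1 := sub_right_injective (hz.inj h)
    have h2 := congrArg ZMod.val h1
    rwa [ZMod.val_natCast_of_lt hs, ZMod.val_natCast_of_lt ht] at h2
  refine ⟨b, a, ⟨hz, ?_, fun D hD => (Finset.mem_filter.1 hD).2, ?_, ?_, ?_, ?_, ?_, ?_, ?_, ?_⟩⟩
  · refine le_trans ?_ h3β
    refine le_trans ?_ g.hom.cT
    rw [Nat.cast_le]
    refine Finset.card_le_card_of_injOn z ?_ (fun x _ y _ h => hz.inj h)
    intro i hi
    have h1 := (Finset.mem_filter.1 (Finset.mem_coe.1 hi)).2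
    refine Finset.mem_coe.2 (Finset.mem_sdiff.2 ⟨locE_mem himg i, fun h => ?_⟩)
    exact h1 (Finset.mem_filter.2 ⟨Finset.mem_univ _, h⟩)
  · intro i hi
    obtain ⟨h1, h2, h3, h4, h5⟩ := hb i (hG i hi)
    refine ⟨h1, h2, ?_⟩
    unfold cz
    have : ρ / 2500 ≤ ρ / 2000 := div_le_div_of_nonneg_left hρ.le (by norm_num) (by norm_num)
    linarith
  · intro i hi
    obtain ⟨h1, h2, h3, h4, h5⟩ := ha i (hG i hi)
    refine ⟨h1, h2, ?_⟩
    rw [ecz i (a i) h2.le]
    have : ρ / 2500 ≤ ρ / 2000 := div_le_div_of_nonneg_left hρ.le (by norm_num) (by norm_num)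
    linarith
  · intro i hi s t hs hst ht
    obtain ⟨h1, h2, h3, h4, h5⟩ := hb i (hG i hi)
    exact h3 s t hs hst ht
  · intro i hi s t hs hst ht
    obtain ⟨h1, h2, h3, h4, h5⟩ := ha i (hG i hi)
    rw [ecz i s (by omega), ecz i t (by omega)]
    exact h3 s t hs hst ht
  · intro i hi
    obtain ⟨h1, h2, h3, h4, h5⟩ := hb i (hG i hi)
    obtain ⟨k1, k2, k3, k4, k5⟩ := ha i (hG i hi)
    have h6 := locE_miss g (hG i hi) (Or.inl rfl) (ch_right hz himg i) (ch_left hz himg i) (e0 i) (e0' i)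
      k3 h5 k5 hd
    rw [hn] at h6
    exact h6
  · intro i hi
    obtain ⟨h1, h2, h3, h4, h5⟩ := hb i (hG i hi)
    obtain ⟨k1, k2, k3, k4, k5⟩ := ha i (hG i hi)
    have hch : Ch n S (-(-1)) (fun s => z (i + (s : ZMod n))) := by
      rw [neg_neg]
      exact ch_right hz himg i
    have h6 := locE_miss g (hG i hi) (Or.inr rfl) (ch_left hz himg i) hch (e0' i) (e0 i)
      h3 k5 (by
        intro s q1 q2 q3 q4 q5 q6
        rw [neg_neg] at q6
        exact h5 s q1 q2 q3 q4 q5 q6) hd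
    rw [hn] at h6
    have e : (Icc 1 (a i)).image (fun s => cz z i (n - s)) =
        (Icc 1 (a i)).image (fun s : ℕ => dist (z i) (z (i - (s : ZMod n)))) := by
      refine Finset.image_congr ?_
      intro s hs
      have hs1 := Finset.mem_Icc.1 (Finset.mem_coe.1 hs)
      exact ecz i s (by omega)
    rw [e]
    exact h6
  · intro i hi
    obtain ⟨h1, h2, h3, h4, h5⟩ := hb i (hG i hi)
    refine le_trans ?_ h3β
    exact locE_unp g.hom (hG i hi) (ch_right hz himg i) (e0 i) (hinjR i) h2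
  · intro i hi
    obtain ⟨h1, h2, h3, h4, h5⟩ := ha i (hG i hi)
    refine le_trans ?_ h3β
    have h6 := locE_unp g.hom (hG i hi) (ch_left hz himg i) (e0' i) (hinjL i) h2 (d := d)
    have e : (Icc 1 (a i)).filter (fun s => cz z i (n - s) < d ∧ cz z i (n - s) ∉ P.filter (fun D => D < d)) =
        (Icc 1 (a i)).filter (fun s : ℕ => dist (z i) (z (i - (s : ZMod n))) < d ∧
          dist (z i) (z (i - (s : ZMod n))) ∉ P.filter (fun D => D < d)) := by
      refine Finset.filter_congr ?_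
      intro s hs
      have hs1 := Finset.mem_Icc.1 hs
      rw [ecz i s (by omega)]
    rw [e]
    exact h6

end Pool.Agent.Lib.MP_0d8f69_coT
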