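import Pool.Agent.Lib.MP_0d8f69_coT.HomE
import Pool.Agent.Lib.MP_0d8f69_coT.GeoE
import Pool.Agent.Lib.MP_0d8f69_coT.LocE
import Pool.Agent.Lib.MP_0d8f69_coT.InvT

/-!
MP_0d8f69_co, theorem T: the theorem.
-/

set_option autoImplicit false

namespace Pool.Agent.Lib.MP_0d8f69_coT

open Finset Pool.Agent.Lib.MP_0d8f69_co Pool.Agent.Lib.MP_0d8f69_coI Pool.Agent.Lib.MP_0d8f69_coZ

/-- Proof. `n = S.card ≥ 10 ^ 52`. `exists_geo` gives `Geo S T P κ (1 / 10 ^ 40) (1 / 10 ^ 9) O ρ r`. Let `d` be the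
smallest `D ∈ P` with `n / 10 ^ 9 ≤ NP P D` (it exists and `d ≤ ρ / 3000` by `Geo.many`: take the largest
`D ∈ P` with `D ≤ ρ / 3000`). Then `P' = {D ∈ P : D < d}` has at most `n / 10 ^ 9` and at least `n / 10 ^ 9 - 1`
elements. Take `w` from `exists_pol` and `z = zw n w` (`zp_of_pol`, `zw_image` in `MP_0d8f69_coZ/Conv.lean`).
`loc_of_geo` and `inverseT` with `κ := 3 / 10 ^ 40`, `τ = 1 / 10 ^ 19`, `η = 1 / 20000`. -/
theorem circle_of_hom {S T : Finset ℂ} {P : Finset ℝ} {κ : ℝ} (h : Hom S T P κ) (hκ0 : 0 < κ)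
    (hκ1 : κ ≤ 1 / 10 ^ 50) (hn : 100 ≤ κ * S.card) :
    ∃ (O : ℂ) (r : ℝ), ((S.filter (fun x => dist x O ≠ r)).card : ℝ) ≤ 1 / 20000 * S.card := by
  classical
  set n : ℕ := S.card with hnd
  have hnR : (10 : ℝ) ^ 52 ≤ n := by
    have h1 : κ * n ≤ 1 / 10 ^ 50 * n := mul_le_mul_of_nonneg_right hκ1 (Nat.cast_nonneg _)
    have h2 : (100 : ℝ) ≤ 1 / 10 ^ 50 * n := hn.trans h1
    have h3 : (10 : ℝ) ^ 52 = 100 * 10 ^ 50 := by norm_num
    have h4 : (1 : ℝ) / 10 ^ 50 * n * 10 ^ 50 = n := by field_simp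
    rw [h3, ← h4]
    exact mul_le_mul_of_nonneg_right h2 (by positivity)
  have h3 : 3 ≤ S.card := by
    have h1 : ((3 : ℕ) : ℝ) ≤ n := le_trans (by norm_num) hnR
    exact_mod_cast h1
  obtain ⟨O, ρ, r, g⟩ := exists_geo h hκ0 hκ1 hn
  have hn0 : (0 : ℝ) < n := lt_of_lt_of_le (by positivity) hnR
  -- the distance `d`
  set F : Finset ℝ := P.filter (fun D => D ≤ ρ / 3000) with hF
  have hFc : 1 / 10 ^ 9 * (n : ℝ) ≤ F.card := g.many
  have hF0 : F.Nonempty := by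
    rw [← Finset.card_pos]
    have : (0 : ℝ) < F.card := lt_of_lt_of_le (by positivity) hFc
    exact_mod_cast this
  set Q : Finset ℝ := P.filter (fun D => 1 / 10 ^ 9 * (n : ℝ) ≤ NP P D) with hQ
  have hFQ : F.max' hF0 ∈ Q := by
    have h1 := F.max'_mem hF0
    rw [hQ, mem_filter]
    refine ⟨(mem_filter.1 h1).1, hFc.trans ?_⟩
    unfold NP
    refine Nat.cast_le.2 (Finset.card_le_card fun D hD => ?_)
    exact mem_filter.2 ⟨(mem_filter.1 hD).1, F.le_max' D hD⟩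
  have hQ0 : Q.Nonempty := ⟨_, hFQ⟩
  obtain ⟨d, hd⟩ : ∃ d : ℝ, d = Q.min' hQ0 := ⟨_, rfl⟩
  have hdQ : d ∈ Q := by
    rw [hd]
    exact Q.min'_mem hQ0
  have hdP : d ∈ P := (mem_filter.1 hdQ).1
  have hdN : 1 / 10 ^ 9 * (n : ℝ) ≤ NP P d := (mem_filter.1 hdQ).2
  have hdF : d ≤ ρ / 3000 := by
    have h1 : d ≤ F.max' hF0 := by
      rw [hd]
      exact Q.min'_le _ hFQ
    exact h1.trans (mem_filter.1 (F.max'_mem hF0)).2
  have hd0 : 0 < d := h.P0 d hdP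
  have hρ := g.rho
  -- the distances smaller than `d`
  set P' : Finset ℝ := P.filter (fun D => D < d) with hP'
  have hup : (P'.card : ℝ) ≤ 1 / 10 ^ 9 * n := by
    rcases P'.eq_empty_or_nonempty with he | he
    · rw [he, Finset.card_empty, Nat.cast_zero]
      positivity
    · have h1 := mem_filter.1 (P'.max'_mem he)
      have h2 : P'.max' he ∉ Q := fun hc => by
        have h4 := Q.min'_le _ hc
        rw [← hd] at h4
        exact absurd h1.2 (not_lt.2 h4)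
      have h4 : NP P (P'.max' he) < 1 / 10 ^ 9 * (n : ℝ) := by
        by_contra hc
        exact h2 (mem_filter.2 ⟨h1.1, not_lt.1 hc⟩)
      refine le_trans ?_ h4.le
      unfold NP
      refine Nat.cast_le.2 (Finset.card_le_card fun D hD => ?_)
      exact mem_filter.2 ⟨(mem_filter.1 hD).1, P'.le_max' D hD⟩
  have hlow : 1 / 10 ^ 9 * (n : ℝ) ≤ P'.card + 1 := by
    refine hdN.trans ?_
    unfold NP
    have h1 : P.filter (fun D => D ≤ d) ⊆ insert d P' := by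
      intro D hD
      rw [mem_filter] at hD
      rw [mem_insert]
      rcases lt_or_eq_of_le hD.2 with h2 | h2
      · exact Or.inr (mem_filter.2 ⟨hD.1, h2⟩)
      · exact Or.inl h2
    have h2 := (Finset.card_le_card h1).trans (Finset.card_insert_le _ _)
    exact_mod_cast h2
  obtain ⟨w, hw⟩ := exists_pol h.cx h3
  have : NeZero S.card := ⟨by omega⟩
  have hz := zp_of_pol hw h3
  obtain ⟨b, a, hL⟩ := loc_of_geo (n := S.card) (z := zw S.card w) g (by positivity) rfl hz (zw_image hw) hd0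
    (d := d) (by linarith)
  obtain ⟨O', r', hr⟩ := inverseT (τ := 1 / 10 ^ 19) (η := 1 / 20000) hL (by positivity) (by norm_num) (by positivity)
    (by norm_num)
    (by
      have h1 : (3 : ℝ) * (1 / 10 ^ 40) * 10 ^ 52 ≤ 3 * (1 / 10 ^ 40) * n :=
        mul_le_mul_of_nonneg_left hnR (by positivity)
      refine le_trans ?_ h1
      norm_num)
    (by positivity) (by norm_num)
    (by
      have h1 : (1 : ℝ) / 20000 * (1 / 10 ^ 9 * n - 1) ≤ 1 / 20000 * P'.card :=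
        mul_le_mul_of_nonneg_left (by linarith) (by positivity)
      refine le_trans ?_ h1
      have h2 : (1 : ℝ) ≤ 1 / 10 ^ 20 * n := by
        have h4 : (1 : ℝ) / 10 ^ 20 * 10 ^ 52 ≤ 1 / 10 ^ 20 * n := mul_le_mul_of_nonneg_left hnR (by positivity)
        exact le_trans (by norm_num) h4
      have h5 : (10 : ℝ) ^ 4 * (1 / 10 ^ 19) * n = 1 / 10 ^ 15 * n := by ring
      rw [h5]
      nlinarith)
    (by
      have h1 : 4 * (P'.card : ℝ) ≤ n := by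
        have h2 : (1 : ℝ) / 10 ^ 9 * n ≤ 1 / 4 * n := mul_le_mul_of_nonneg_right (by norm_num) hn0.le
        linarith
      exact_mod_cast h1)
  refine ⟨O', r', le_trans (Nat.cast_le.2 ?_) hr⟩
  have h1 : S.filter (fun x => dist x O' ≠ r') =
      ((Finset.univ : Finset (ZMod S.card)).filter (fun i => dist (zw S.card w i) O' ≠ r')).image (zw S.card w) := by
    conv_lhs => rw [← zw_image hw]
    rw [Finset.filter_image]
  rw [h1]
  exact Finset.card_image_le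

/-- Proof. With `e D = ∑ p ∈ B, kd S D p` we have `Rn S D ≤ Rn (S \ B) D + 2 e D` (`Rn_split` in
`MP_0d8f69_coZ/Fin.lean`), so `Qn S ≤ Qn (S \ B) + 4 ∑ Rn (S \ B) D * e D + 4 ∑ e D ^ 2`, sums over `D ∈ ds S`. As in
`Qn_split` (same file) `∑ e D ^ 2 ≤ B.card * 3 n ^ 2 ≤ 3 ν ^ 2 n ^ 3`, and `∑ Rn (S \ B) D ^ 2 = Qn (S \ B) ≤ 3 n ^ 3`
(`Qn_le`, `iso_le_all`, `cvx_subset`), so `∑ Rn (S \ B) D * e D ≤ 3 ν n ^ 3` by the Cauchy inequality. -/
theorem Qn_splitT {S B : Finset ℂ} (hS : Cx S) (hB : B ⊆ S) {ν : ℝ} (hν0 : 0 ≤ ν) (hν1 : ν ≤ 1)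
    (hm : (B.card : ℝ) ≤ ν ^ 2 * S.card) :
    (Qn S : ℝ) ≤ Qn (S \ B) + 24 * ν * (S.card : ℝ) ^ 3 := by
  set e : ℝ → ℕ := fun D => ∑ p ∈ B, kd S D p with he
  have hQ2 : Qn (S \ B) = ∑ D ∈ ds S, Rn (S \ B) D ^ 2 := by
    refine Qn_eq (S \ B) (ds S) fun p hp => ?_
    rw [mem_offDiag, mem_sdiff, mem_sdiff] at hp
    exact mem_ds hp.1.1 hp.2.1.1 hp.2.2
  have h3 : ∑ D ∈ ds S, e D ^ 2 ≤ B.card * (3 * S.card ^ 2) := by
    calc ∑ D ∈ ds S, e D ^ 2 ≤ ∑ D ∈ ds S, B.card * ∑ p ∈ B, kd S D p ^ 2 :=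
          Finset.sum_le_sum fun D _ => sq_sum_le_card_mul_sum_sq
      _ = B.card * ∑ p ∈ B, ∑ D ∈ ds S, kd S D p ^ 2 := by rw [← Finset.mul_sum, Finset.sum_comm]
      _ = B.card * ∑ p ∈ B, (isp S p + (S.card - 1)) := by
          rw [Finset.sum_congr rfl fun p hp => sum_kd_sq (hB hp)]
      _ ≤ B.card * (3 * S.card ^ 2) := by
          refine Nat.mul_le_mul_left _ ?_
          calc ∑ p ∈ B, (isp S p + (S.card - 1)) ≤ ∑ p ∈ S, (isp S p + (S.card - 1)) :=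
                Finset.sum_le_sum_of_subset_of_nonneg hB fun _ _ _ => Nat.zero_le _
            _ = iso S + S.card * (S.card - 1) := by
                rw [Finset.sum_add_distrib, ← iso_eq, Finset.sum_const, smul_eq_mul]
            _ ≤ 3 * (S.card * (S.card - 1)) := by
                have := iso_le_all hS
                omega
            _ ≤ 3 * S.card ^ 2 := by
                rw [sq]
                exact Nat.mul_le_mul_left _ (Nat.mul_le_mul_left _ (Nat.sub_le _ _))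
  have hc : (S \ B).card ≤ S.card := Finset.card_le_card Finset.sdiff_subset
  have hS' : Cx (S \ B) := cvx_subset hS Finset.sdiff_subset
  have h4 : Qn (S \ B) ≤ 3 * S.card ^ 3 := by
    have e1 := iso_le_all hS'
    calc Qn (S \ B) ≤ (S \ B).card * (iso (S \ B) + (S \ B).card * ((S \ B).card - 1)) := Qn_le _
      _ ≤ (S \ B).card * (3 * ((S \ B).card * (S \ B).card)) := by
          refine Nat.mul_le_mul_left _ ?_
          have e2 : (S \ B).card * ((S \ B).card - 1) ≤ (S \ B).card * (S \ B).card :=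
            Nat.mul_le_mul_left _ (Nat.sub_le _ _)
          omega
      _ ≤ S.card * (3 * (S.card * S.card)) :=
          Nat.mul_le_mul hc (Nat.mul_le_mul_left _ (Nat.mul_le_mul hc hc))
      _ = 3 * S.card ^ 3 := by ring
  have hn0 : (0 : ℝ) ≤ S.card := Nat.cast_nonneg _
  have h3R : ∑ D ∈ ds S, ((e D : ℕ) : ℝ) ^ 2 ≤ 3 * ν ^ 2 * (S.card : ℝ) ^ 3 := by
    have e1 : ∑ D ∈ ds S, ((e D : ℕ) : ℝ) ^ 2 ≤ (B.card : ℝ) * (3 * (S.card : ℝ) ^ 2) := by exact_mod_cast h3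
    refine e1.trans ((mul_le_mul_of_nonneg_right hm (by positivity)).trans (le_of_eq ?_))
    ring
  have h4R : ∑ D ∈ ds S, ((Rn (S \ B) D : ℕ) : ℝ) ^ 2 ≤ 3 * (S.card : ℝ) ^ 3 := by
    rw [hQ2] at h4
    exact_mod_cast h4
  have hQ2R : (Qn (S \ B) : ℝ) = ∑ D ∈ ds S, ((Rn (S \ B) D : ℕ) : ℝ) ^ 2 := by
    rw [hQ2]
    push_cast
    rfl
  have hQ1R : (Qn S : ℝ) = ∑ D ∈ ds S, ((Rn S D : ℕ) : ℝ) ^ 2 := by
    rw [Qn_ds]
    push_cast
    rfl
  set X : ℝ := ∑ D ∈ ds S, ((Rn (S \ B) D : ℕ) : ℝ) * ((e D : ℕ) : ℝ) with hX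
  have hXle : X ≤ 3 * ν * (S.card : ℝ) ^ 3 := by
    have e1 : X ^ 2 ≤ (∑ D ∈ ds S, ((Rn (S \ B) D : ℕ) : ℝ) ^ 2) * ∑ D ∈ ds S, ((e D : ℕ) : ℝ) ^ 2 :=
      Finset.sum_mul_sq_le_sq_mul_sq _ _ _
    have e2 : (∑ D ∈ ds S, ((Rn (S \ B) D : ℕ) : ℝ) ^ 2) * ∑ D ∈ ds S, ((e D : ℕ) : ℝ) ^ 2 ≤
        (3 * (S.card : ℝ) ^ 3) * (3 * ν ^ 2 * (S.card : ℝ) ^ 3) :=
      mul_le_mul h4R h3R (Finset.sum_nonneg fun D _ => sq_nonneg _) (by positivity)
    have e3 : X ^ 2 ≤ (3 * ν * (S.card : ℝ) ^ 3) ^ 2 := by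
      refine (e1.trans e2).trans (le_of_eq ?_)
      ring
    exact le_of_sq_le_sq e3 (by positivity)
  have hmain : (Qn S : ℝ) ≤ Qn (S \ B) + 4 * X + 4 * ∑ D ∈ ds S, ((e D : ℕ) : ℝ) ^ 2 := by
    rw [hQ1R, hQ2R, hX, Finset.mul_sum, Finset.mul_sum, ← Finset.sum_add_distrib, ← Finset.sum_add_distrib]
    refine Finset.sum_le_sum fun D _ => ?_
    have e1 : ((Rn S D : ℕ) : ℝ) ≤ (Rn (S \ B) D : ℕ) + 2 * ((e D : ℕ) : ℝ) := by exact_mod_cast Rn_split hB D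
    have e2 := pow_le_pow_left₀ (Nat.cast_nonneg _) e1 2
    refine e2.trans (le_of_eq ?_)
    ring
  have hν2 : ν ^ 2 ≤ ν := by nlinarith
  have h5 : ν ^ 2 * (S.card : ℝ) ^ 3 ≤ ν * (S.card : ℝ) ^ 3 := mul_le_mul_of_nonneg_right hν2 (by positivity)
  linarith

/-- Proof. `n = S.card`. If `n < 10 ^ 500` then `B = ∅` and no vertex has three others at the same distance, so
`MP_0d8f69_coI.main` and `iso_le` (`MP_0d8f69_coI/Cs.lean`) apply, as in `nearly` (`MP_0d8f69_coZ/Fin.lean`). Let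
`n ≥ 10 ^ 500`. As in `nearly` we may assume `2 n ^ 3 ≤ Qn S + 3 n ^ 2` (otherwise `Qn S < Qn (mu n)` by `Qn_mu`).
`S' = S \ B`, `n' = S'.card ≥ n / 2`. `Qn_splitT` with `ν = 1 / 10 ^ 250`:
`Qn S' ≥ 2 n ^ 3 - 3 n ^ 2 - 24 n ^ 3 / 10 ^ 250 ≥ (2 - 1 / 10 ^ 210) n' ^ 3`. `exists_hom` for `S'` with
`κ = 1 / 10 ^ 50`, `ε = 2 / 10 ^ 500`, `δ = 1 / 10 ^ 210`, then `circle_of_hom`; at most `n / 20000 + B.card ≤ n / 10000`
points of `S` are not on the circle, and `MP_0d8f69_co.main` gives the result as in `nearly`. -/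
theorem nearlyT {S B : Finset ℂ} (hS : Cx S) (h3 : 3 ≤ S.card) (hB : B ⊆ S) (hcard : 10 ^ 500 * B.card ≤ S.card)
    (hT : ∀ D : ℝ, 10 ^ 500 * ((S \ B).filter (fun p => 3 ≤ kd (S \ B) D p)).card ≤ S.card) :
    Qn S ≤ Qn (mu S.card) ∧
      (Qn S = Qn (mu S.card) → ∃ a b : ℂ, a ≠ 0 ∧ S = (mu S.card).image (fun z => a * z + b)) := by
  classical
  obtain ⟨K, hK⟩ : ∃ K : ℕ, K = 10 ^ 500 := ⟨_, rfl⟩
  rw [← hK] at hcard hT
  by_cases hsm : S.card < K
  · have hB0 : B = ∅ := by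
      by_contra hne
      have h1 : 1 ≤ B.card := Finset.card_pos.2 (Finset.nonempty_iff_ne_empty.2 hne)
      have h2 : K * 1 ≤ K * B.card := Nat.mul_le_mul_left _ h1
      omega
    rw [hB0, Finset.sdiff_empty] at hT
    refine MP_0d8f69_coI.main hS h3 (iso_le fun p hp D => ?_)
    by_contra hcon
    have h1 : 1 ≤ (S.filter (fun p => 3 ≤ kd S D p)).card :=
      Finset.card_pos.2 ⟨p, mem_filter.2 ⟨hp, by omega⟩⟩
    have h2 : K * 1 ≤ K * (S.filter (fun p => 3 ≤ kd S D p)).card := Nat.mul_le_mul_left _ h1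
    have h4 := hT D
    omega
  rw [not_lt] at hsm
  have h1 := Qn_mu (n := S.card) (by omega)
  by_cases hbig : Qn S + 3 * S.card ^ 2 < 2 * S.card ^ 3
  · have h2 : Qn S < Qn (mu S.card) := by omega
    exact ⟨h2.le, fun h => absurd h h2.ne⟩
  rw [not_lt] at hbig
  obtain ⟨ν, hν⟩ : ∃ ν : ℝ, ν = 1 / 10 ^ 250 := ⟨_, rfl⟩
  have hν0 : 0 < ν := by
    rw [hν]
    positivity
  have hν1 : ν ≤ 1 / 10 ^ 249 := by
    rw [hν]
    norm_num
  have hνK : ν ^ 2 * K = 1 := by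
    have e1 : (K : ℝ) = 10 ^ 250 * 10 ^ 250 := by
      rw [hK, ← pow_add]
      push_cast
      rfl
    rw [e1, hν, div_pow, one_pow, sq]
    exact one_div_mul_cancel (by positivity)
  clear hK
  have hνa : ν ≤ 1 / 10 ^ 10 := hν1.trans (by norm_num)
  have hνb : 27 * ν ≤ 1 / 10 ^ 210 * (1 / 8) := by
    rw [hν]
    norm_num
  have hνc : 2 * ν ≤ (1 / 10 ^ 50) ^ 4 / 40 := by
    rw [hν]
    norm_num
  have hνd : ν * 10 ^ 250 = 1 := by
    rw [hν]
    exact one_div_mul_cancel (by positivity)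
  clear hν hν1
  have key : ∀ m : ℕ, K * m ≤ S.card → (m : ℝ) ≤ ν ^ 2 * S.card := by
    intro m hm
    have e1 : (K : ℝ) * m ≤ S.card := by exact_mod_cast hm
    have e2 := mul_le_mul_of_nonneg_left e1 (sq_nonneg ν)
    rw [← mul_assoc, hνK, one_mul] at e2
    exact e2
  have hνn : 1 ≤ ν ^ 2 * S.card := by
    have := key 1 (by omega)
    simpa using this
  have hm := key _ hcard
  have hn0 : (0 : ℝ) < S.card := by
    have : 0 < S.card := by omega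
    exact_mod_cast this
  have hcs : ((S \ B).card : ℝ) = (S.card : ℝ) - B.card := by
    rw [Finset.card_sdiff_of_subset hB, Nat.cast_sub (Finset.card_le_card hB)]
  have hν11 : ν ≤ 1 := hνa.trans (by norm_num)
  have hν3 : ν ^ 2 ≤ 1 / 10 ^ 10 := by
    have e1 : ν * ν ≤ 1 * ν := mul_le_mul_of_nonneg_right hν11 hν0.le
    rw [sq]
    linarith
  have hmh : ν ^ 2 * (S.card : ℝ) ≤ 1 / 10 ^ 10 * S.card :=
    mul_le_mul_of_nonneg_right hν3 hn0.le
  have hBn : (B.card : ℝ) ≤ 1 / 10 ^ 10 * S.card := hm.trans hmh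
  have hB0 : (0 : ℝ) ≤ B.card := Nat.cast_nonneg _
  have hlo : 1 / 2 * (S.card : ℝ) ≤ (S \ B).card := by linarith
  have hhi : ((S \ B).card : ℝ) ≤ S.card := by linarith
  have hQ := Qn_splitT hS hB hν0.le hν11 hm
  have hbig' : 2 * (S.card : ℝ) ^ 3 ≤ Qn S + 3 * (S.card : ℝ) ^ 2 := by exact_mod_cast hbig
  have hS' : Cx (S \ B) := cvx_subset hS Finset.sdiff_subset
  have hn1 : 1 ≤ ν * S.card := by
    have e1 : ν ^ 2 * (S.card : ℝ) ≤ ν * S.card := by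
      refine mul_le_mul_of_nonneg_right ?_ hn0.le
      have e1 : ν * ν ≤ 1 * ν := mul_le_mul_of_nonneg_right hν11 hν0.le
      rw [sq]
      linarith
    linarith
  have hnb : (10 : ℝ) ^ 250 ≤ S.card := by
    have e1 : ν * S.card * 10 ^ 250 = S.card := by
      rw [mul_right_comm, hνd, one_mul]
    have e2 : 1 * (10 : ℝ) ^ 250 ≤ ν * S.card * 10 ^ 250 := mul_le_mul_of_nonneg_right hn1 (by positivity)
    rw [e1, one_mul] at e2
    exact e2
  have hQ3 : (2 - 1 / 10 ^ 210) * ((S \ B).card : ℝ) ^ 3 ≤ Qn (S \ B) := by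
    have e1 : (1 / 2 * (S.card : ℝ)) ^ 3 ≤ ((S \ B).card : ℝ) ^ 3 := pow_le_pow_left₀ (by positivity) hlo 3
    have e2 : ((S \ B).card : ℝ) ^ 3 ≤ (S.card : ℝ) ^ 3 := pow_le_pow_left₀ (Nat.cast_nonneg _) hhi 3
    have e3 : (S.card : ℝ) ^ 2 ≤ ν * (S.card : ℝ) ^ 3 := by
      have : (S.card : ℝ) ^ 2 * 1 ≤ (S.card : ℝ) ^ 2 * (ν * S.card) := mul_le_mul_of_nonneg_left hn1 (by positivity)
      calc (S.card : ℝ) ^ 2 = (S.card : ℝ) ^ 2 * 1 := (mul_one _).symm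
        _ ≤ (S.card : ℝ) ^ 2 * (ν * S.card) := this
        _ = ν * (S.card : ℝ) ^ 3 := by ring
    have e4 : 27 * (ν * (S.card : ℝ) ^ 3) ≤ 1 / 10 ^ 210 * (1 / 8) * (S.card : ℝ) ^ 3 := by
      rw [← mul_assoc]
      exact mul_le_mul_of_nonneg_right hνb (by positivity)
    have e5 : 1 / 10 ^ 210 * ((1 / 2 * (S.card : ℝ)) ^ 3) ≤ 1 / 10 ^ 210 * ((S \ B).card : ℝ) ^ 3 :=
      mul_le_mul_of_nonneg_left e1 (by positivity)
    have e6 : (1 : ℝ) / 10 ^ 210 * ((1 / 2 * (S.card : ℝ)) ^ 3) = 1 / 10 ^ 210 * (1 / 8) * (S.card : ℝ) ^ 3 := by ring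
    have e7 : (2 - 1 / 10 ^ 210) * ((S \ B).card : ℝ) ^ 3 =
        2 * ((S \ B).card : ℝ) ^ 3 - 1 / 10 ^ 210 * ((S \ B).card : ℝ) ^ 3 := by ring
    rw [e6] at e5
    rw [e7]
    linarith
  have hTT : ∀ D : ℝ, (((S \ B).filter (fun p => 3 ≤ kd (S \ B) D p)).card : ℝ) ≤ 2 * ν ^ 2 * (S \ B).card := by
    intro D
    have e1 := key _ (hT D)
    have e2 : ν ^ 2 * (1 / 2 * (S.card : ℝ)) ≤ ν ^ 2 * (S \ B).card := mul_le_mul_of_nonneg_left hlo (sq_nonneg ν)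
    linarith
  have hne : 1 ≤ (S \ B).card := by
    have : (1 : ℝ) ≤ (S \ B).card := by
      have e1 : (2 : ℝ) ≤ S.card := le_trans (by norm_num) hnb
      linarith
    exact_mod_cast this
  obtain ⟨T, P, hH⟩ := exists_hom hS' (ε := 2 * ν ^ 2) (δ := 1 / 10 ^ 210) (κ := 1 / 10 ^ 50) (by positivity)
    (by norm_num) hTT hQ3 (by norm_num)
    (by
      have e2 := pow_le_pow_left₀ (by positivity) hνc 2
      refine le_trans ?_ e2
      rw [mul_pow]
      have e3 := sq_nonneg ν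
      linarith)
    (by positivity) hne
  obtain ⟨O, r, hr⟩ := circle_of_hom hH (by positivity) le_rfl (by
    have e1 : (1 : ℝ) / 10 ^ 50 * (1 / 2 * 10 ^ 250) ≤ 1 / 10 ^ 50 * (S \ B).card :=
      mul_le_mul_of_nonneg_left (by linarith) (by positivity)
    refine le_trans ?_ e1
    norm_num)
  have hsub : S.filter (fun z => dist z O ≠ r) ⊆ (S \ B).filter (fun x => dist x O ≠ r) ∪ B := by
    intro z hz
    rw [mem_filter] at hz
    rw [mem_union, mem_filter, mem_sdiff]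
    by_cases hzB : z ∈ B
    · exact Or.inr hzB
    · exact Or.inl ⟨⟨hz.1, hzB⟩, hz.2⟩
  have hfin : 10000 * (S.filter (fun z => dist z O ≠ r)).card ≤ S.card := by
    have e1 : (S.filter (fun z => dist z O ≠ r)).card ≤ ((S \ B).filter (fun x => dist x O ≠ r)).card + B.card :=
      (Finset.card_le_card hsub).trans (Finset.card_union_le _ _)
    have e2 : ((S.filter (fun z => dist z O ≠ r)).card : ℝ) ≤
        ((S \ B).filter (fun x => dist x O ≠ r)).card + B.card := by exact_mod_cast e1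
    have e3 : (10000 : ℝ) * ((S.filter (fun z => dist z O ≠ r)).card : ℝ) ≤ S.card := by
      linarith
    exact_mod_cast e3
  rcases Lib.MP_0d8f69_co.main hS h3 hfin with ⟨a, b, ha, h⟩ | h
  · refine ⟨?_, fun _ => ⟨a, b, ha, h⟩⟩
    have h4 := Qn_si ha b (mu S.card)
    have h5 : (mu S.card).image (si a b) = S := h.symm
    rw [h5] at h4
    exact h4.le
  · have h2 : Qn S < Qn (mu S.card) := by omega
    exact ⟨h2.le, fun h => absurd h h2.ne⟩

end Pool.Agent.Lib.MP_0d8f69_coT
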