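import Pool.Agent.Lib.MP_0d8f69_coT.HomX
import Pool.Agent.Lib.MP_0d8f69_coT.FinT

/-!
MP_0d8f69_co: the theorem on polygons whose distance graphs have small average excess.
-/

set_option autoImplicit false

namespace Pool.Agent.Lib.MP_0d8f69_coT

open Finset Pool.Agent.Lib.MP_0d8f69_co Pool.Agent.Lib.MP_0d8f69_coI Pool.Agent.Lib.MP_0d8f69_coZ

theorem nearlyR {S : Finset ℂ} (hS : Cx S) (hbn : 10 ^ 202 ≤ S.card)
    (hE : 10 ^ 202 * ∑ xy ∈ S.offDiag, hx S (dist xy.1 xy.2) ≤ S.card ^ 3) :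
    Qn S ≤ Qn (mu S.card) ∧
      (Qn S = Qn (mu S.card) → ∃ a b : ℂ, a ≠ 0 ∧ S = (mu S.card).image (fun z => a * z + b)) := by
  classical
  have h1000 : 1000 ≤ S.card := by
    refine le_trans ?_ hbn
    calc 1000 = 10 ^ 3 := by norm_num
      _ ≤ 10 ^ 202 := Nat.pow_le_pow_right (by norm_num) (by norm_num)
  have h3 : 3 ≤ S.card := by omega
  have h1 := Qn_mu (n := S.card) (by omega)
  by_cases hbig : Qn S + 3 * S.card ^ 2 < 2 * S.card ^ 3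
  · have h2 : Qn S < Qn (mu S.card) := by omega
    exact ⟨h2.le, fun h => absurd h h2.ne⟩
  rw [not_lt] at hbig
  have hn : (10 : ℝ) ^ 202 ≤ S.card := by exact_mod_cast hbn
  have hn0 : (0 : ℝ) < S.card := lt_of_lt_of_le (by positivity) hn
  have hbig' : 2 * (S.card : ℝ) ^ 3 ≤ Qn S + 3 * (S.card : ℝ) ^ 2 := by exact_mod_cast hbig
  have hQ : (2 - 1 / (8 * 10 ^ 200)) * (S.card : ℝ) ^ 3 ≤ Qn S := by
    have h5 : 3 * (S.card : ℝ) ^ 2 ≤ 1 / (8 * 10 ^ 200) * (S.card : ℝ) ^ 3 := by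
      have h6 : 3 ≤ 1 / (8 * 10 ^ 200) * (S.card : ℝ) := by
        have : (1 : ℝ) / (8 * 10 ^ 200) * 10 ^ 202 ≤ 1 / (8 * 10 ^ 200) * (S.card : ℝ) :=
          mul_le_mul_of_nonneg_left hn (by positivity)
        have e : (1 : ℝ) / (8 * 10 ^ 200) * 10 ^ 202 = 25 / 2 := by norm_num
        linarith
      calc 3 * (S.card : ℝ) ^ 2 ≤ 1 / (8 * 10 ^ 200) * (S.card : ℝ) * (S.card : ℝ) ^ 2 :=
            mul_le_mul_of_nonneg_right h6 (by positivity)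
        _ = 1 / (8 * 10 ^ 200) * (S.card : ℝ) ^ 3 := by ring
    have e : (2 - 1 / (8 * 10 ^ 200)) * (S.card : ℝ) ^ 3 =
        2 * (S.card : ℝ) ^ 3 - 1 / (8 * 10 ^ 200) * (S.card : ℝ) ^ 3 := by ring
    rw [e]
    linarith
  have hsum : ∑ xy ∈ S.offDiag, hx S (dist xy.1 xy.2) = ∑ D ∈ ds S, Rn S D * hx S D :=
    sum_offDiag_dist S (ds S) (fun p hp => Finset.mem_image.2 ⟨p, hp, rfl⟩) (hx S)
  rw [hsum] at hE
  have hY : 2 * ∑ D ∈ ds S, (Rn S D : ℝ) * (hx S D : ℝ) ≤ (1 / 10 ^ 50) ^ 4 / 8 * (S.card : ℝ) ^ 3 := by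
    have e0 : ∑ D ∈ ds S, (Rn S D : ℝ) * (hx S D : ℝ) = ((∑ D ∈ ds S, Rn S D * hx S D : ℕ) : ℝ) := by
      push_cast; rfl
    have h5 : (10 : ℝ) ^ 202 * ((∑ D ∈ ds S, Rn S D * hx S D : ℕ) : ℝ) ≤ (S.card : ℝ) ^ 3 := by exact_mod_cast hE
    rw [e0]
    have h6 : ((∑ D ∈ ds S, Rn S D * hx S D : ℕ) : ℝ) ≤ 1 / 10 ^ 202 * (S.card : ℝ) ^ 3 := by
      rw [one_div, ← div_eq_inv_mul, le_div_iff₀ (by positivity), mul_comm]
      exact h5
    calc 2 * ((∑ D ∈ ds S, Rn S D * hx S D : ℕ) : ℝ) ≤ 2 * (1 / 10 ^ 202 * (S.card : ℝ) ^ 3) := by linarith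
      _ = 2 / 10 ^ 202 * (S.card : ℝ) ^ 3 := by ring
      _ ≤ (1 / 10 ^ 50) ^ 4 / 8 * (S.card : ℝ) ^ 3 := mul_le_mul_of_nonneg_right (by norm_num) (by positivity)
  obtain ⟨T, P, hH⟩ := exists_homY hS (δ := 1 / (8 * 10 ^ 200)) (κ := 1 / 10 ^ 50) (by positivity)
    (by norm_num) hY hQ (by norm_num) (by omega)
  obtain ⟨O, r, hr⟩ := circle_of_hom hH (by positivity) le_rfl (by
    have : (1 : ℝ) / 10 ^ 50 * 10 ^ 202 ≤ 1 / 10 ^ 50 * (S.card : ℝ) := mul_le_mul_of_nonneg_left hn (by positivity)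
    refine le_trans ?_ this
    norm_num)
  have hfin : 10000 * (S.filter (fun z => dist z O ≠ r)).card ≤ S.card := by
    have e1 : (10000 : ℝ) * ((S.filter (fun z => dist z O ≠ r)).card : ℝ) ≤ S.card := by linarith
    exact_mod_cast e1
  rcases Lib.MP_0d8f69_co.main hS h3 hfin with ⟨a, b, ha, h⟩ | h
  · refine ⟨?_, fun _ => ⟨a, b, ha, h⟩⟩
    have h4 := Qn_si ha b (mu S.card)
    have h5 : (mu S.card).image (si a b) = S := h.symm
    rw [h5] at h4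
    exact h4.le
  · have h2 : Qn S < Qn (mu S.card) := by omega
    exact ⟨h2.le, fun h => absurd h h2.ne⟩

end Pool.Agent.Lib.MP_0d8f69_coT
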