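import Pool.Agent.Lib.MP_0d8f69_coZ.Fin

/-!
MP_0d8f69_co, theorem T: definitions for the geometric part.
-/

set_option autoImplicit false

namespace Pool.Agent.Lib.MP_0d8f69_coT

open Finset Pool.Agent.Lib.MP_0d8f69_co Pool.Agent.Lib.MP_0d8f69_coI Pool.Agent.Lib.MP_0d8f69_coZ

/-- the inner product -/
def dp (a b : ℂ) : ℝ := a.re * b.re + a.im * b.im

/-- the cross product -/
def cr (a b : ℂ) : ℝ := a.re * b.im - a.im * b.re

/-- the cone of the directions near the tangential direction -/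
def CC (σ : ℝ) (v w : ℂ) : Prop := |dp v w| ≤ 9 / 10 * (σ * cr v w)

/-- number of popular distances `≤ R` -/
noncomputable def NP (P : Finset ℝ) (R : ℝ) : ℝ := ((P.filter (fun D => D ≤ R)).card : ℝ)

/-- `S` in convex position, `T` the typical points (almost all), `P` the popular distances: from every typical point
almost every popular distance is seen exactly twice, and almost every distance is popular -/
structure Hom (S T : Finset ℂ) (P : Finset ℝ) (κ : ℝ) : Prop where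
  cx : Cx S
  sub : T ⊆ S
  cT : ((S \ T).card : ℝ) ≤ κ * S.card
  P0 : ∀ D ∈ P, 0 < D
  typ : ∀ x ∈ T, ∑ D ∈ P, |(kd S D x : ℝ) - 2| ≤ κ * S.card
  unp : ∀ x ∈ T, ((S.filter (fun y => y ≠ x ∧ dist x y ∉ P)).card : ℝ) ≤ κ * S.card
  pop : ∀ D ∈ P, ∑ p ∈ S, |(kd S D p : ℝ) - 2| ≤ κ * S.card

/-- the typical points are close to the circle with centre `O` (their barycentre) and radius `ρ`; `M` is the largest
popular distance -/
structure Cir (S T : Finset ℂ) (P : Finset ℝ) (κ : ℝ) (O : ℂ) (ρ M : ℝ) : Prop where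
  hom : Hom S T P κ
  rho : 0 < ρ
  bar : ∑ y ∈ T, (y - O) = 0
  rad : ∀ x ∈ T, |‖x - O‖ ^ 2 - ρ ^ 2| ≤ 300 * κ * ρ ^ 2
  avg : ∑ y ∈ T, ‖y - O‖ ^ 2 = T.card * ρ ^ 2
  M1 : M ∈ P
  M2 : ∀ D ∈ P, D ≤ M
  M3 : M ≤ 201 / 100 * ρ
  M4 : ∃ x ∈ T, ∃ y ∈ T, dist x y = M

/-- a small radius `r` such that the balls of radius `r` around typical points have about `2 μ n` points -/
structure Rad (S T : Finset ℂ) (P : Finset ℝ) (κ : ℝ) (O : ℂ) (ρ M μ r : ℝ) : Prop where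
  cir : Cir S T P κ O ρ M
  r0 : 0 < r
  low : μ * S.card ≤ NP P r
  high : ∀ s < r, NP P s < μ * S.card
  top : ∀ x ∈ T, ∀ y ∈ T, dist x y ≤ M + r
  far : ∀ x ∈ T, ∃ y ∈ T, M - r ≤ dist x y

/-- the geometric facts used in the sequel -/
structure Geo (S T : Finset ℂ) (P : Finset ℝ) (κ β ω : ℝ) (O : ℂ) (ρ r : ℝ) : Prop where
  hom : Hom S T P κ
  kb : κ ≤ β
  bo : 100 * β ≤ ω
  big : 1 ≤ β * S.card
  rho : 0 < ρ
  bar : ∑ y ∈ T, (y - O) = 0
  rad : ∀ x ∈ T, 999 / 1000 * ρ ≤ ‖x - O‖ ∧ ‖x - O‖ ≤ 1001 / 1000 * ρ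
  r0 : 0 < r
  rr : 400 * r ≤ ρ / 10 ^ 5
  few : ∀ x ∈ T, ((T.filter (fun y => dist x y < 400 * r)).card : ℝ) ≤ β * S.card
  cone : ∀ p ∈ T, ∀ x ∈ T, ∀ y ∈ T, dist p x ≤ ρ / 50 → dist p y ≤ ρ / 50 → 400 * r ≤ dist x y →
    |dp (p - O) (y - x)| ≤ 9 / 10 * |cr (p - O) (y - x)|
  many : ω * S.card ≤ NP P (ρ / 3000)

end Pool.Agent.Lib.MP_0d8f69_coT
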