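import Pool.Agent.Lib.MP_0d8f69_coT.HomD

/-!
MP_0d8f69_co, theorem T: existence of the typical structure.
-/

set_option autoImplicit false

namespace Pool.Agent.Lib.MP_0d8f69_coT

open Finset Pool.Agent.Lib.MP_0d8f69_co Pool.Agent.Lib.MP_0d8f69_coI Pool.Agent.Lib.MP_0d8f69_coZ

private theorem HomE_abs (k : ℕ) : |(k : ℝ) - 2| = 2 - k + 2 * ((k - 2 : ℕ) : ℝ) := by
  rcases Nat.lt_or_ge k 2 with h | h
  · have h1 : k - 2 = 0 := by omega
    have h2 : (k : ℝ) ≤ 2 := by exact_mod_cast h.le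
    rw [h1, abs_of_nonpos (by linarith)]
    push_cast
    ring
  · have h2 : (2 : ℝ) ≤ k := by exact_mod_cast h
    rw [abs_of_nonneg (by linarith), Nat.cast_sub h]
    push_cast
    ring

private theorem HomE_g (S : Finset ℂ) (D : ℝ) : ∑ p ∈ S, |(kd S D p : ℝ) - 2| =
    2 * S.card - (Rn S D : ℝ) + 2 * (hx S D : ℝ) := by
  rw [Rn_eq, hx]
  push_cast
  rw [Finset.sum_congr rfl fun p _ => HomE_abs (kd S D p), Finset.sum_add_distrib,
    Finset.sum_sub_distrib, Finset.sum_const, nsmul_eq_mul, ← Finset.mul_sum]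
  ring

private theorem HomE_sumR (S : Finset ℂ) : ∑ D ∈ ds S, (Rn S D : ℝ) = S.card * ((S.card : ℝ) - 1) := by
  have h1 : ∑ D ∈ ds S, Rn S D = S.offDiag.card :=
    Rn_sum S (ds S) fun p hp => Finset.mem_image.2 ⟨p, hp, rfl⟩
  have h2 : ((∑ D ∈ ds S, Rn S D : ℕ) : ℝ) = ((S.card * S.card - S.card : ℕ) : ℝ) := by
    rw [h1, Finset.offDiag_card]
  rw [Nat.cast_sub (Nat.le_mul_self _)] at h2
  push_cast at h2
  rw [h2]
  ring

private theorem HomE_unp (S : Finset ℂ) (P : Finset ℝ) {x : ℂ} (hx' : x ∈ S) :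
    (S.filter (fun y => y ≠ x ∧ dist x y ∉ P)).card = ∑ D ∈ ds S \ P, kd S D x := by
  rw [Finset.card_eq_sum_card_fiberwise (f := fun q => dist x q) (t := ds S \ P)]
  · refine Finset.sum_congr rfl fun D hD => ?_
    unfold kd
    congr 1
    ext q
    simp only [mem_filter]
    constructor
    · rintro ⟨⟨h1, h2, h3⟩, h4⟩
      exact ⟨h1, h2, h4⟩
    · rintro ⟨h1, h2, h3⟩
      exact ⟨⟨h1, h2, by rw [h3]; exact (mem_sdiff.1 hD).2⟩, h3⟩
  · intro q hq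
    rw [Finset.mem_coe, mem_filter] at hq
    exact Finset.mem_coe.2 (mem_sdiff.2 ⟨mem_ds hx' hq.1 hq.2.1.symm, hq.2.2⟩)

private theorem HomE_Y {S : Finset ℂ} (hS : Cx S) {ε κ : ℝ} (hκ0 : 0 < κ)
    (hT : ∀ D : ℝ, ((S.filter (fun p => 3 ≤ kd S D p)).card : ℝ) ≤ ε * S.card)
    (hε : ε ≤ (κ ^ 4 / 40) ^ 2) (hε0 : 0 ≤ ε) (hne : 1 ≤ S.card) :
    2 * ∑ D ∈ ds S, (Rn S D : ℝ) * (hx S D : ℝ) ≤ κ ^ 4 / 8 * (S.card : ℝ) ^ 3 := by
  have hn : (1 : ℝ) ≤ S.card := by exact_mod_cast hne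
  have hS' : Cvx S := hS
  have h1 := sum_Rn_hx_sq (S := S) hS' (T := ⌊ε * S.card⌋₊) fun D => Nat.le_floor (hT D)
  set Y : ℕ := ∑ D ∈ ds S, Rn S D * hx S D with hY
  have hYr : ∑ D ∈ ds S, (Rn S D : ℝ) * (hx S D : ℝ) = (Y : ℝ) := by
    rw [hY]
    push_cast
    rfl
  rw [hYr]
  have hf : ((⌊ε * S.card⌋₊ : ℕ) : ℝ) ≤ ε * S.card := Nat.floor_le (by positivity)
  have h2 : ((Y : ℝ)) ^ 2 ≤ ((S.card : ℝ) * (3 * (S.card * S.card))) * ((ε * S.card) * (2 * (S.card * S.card))) := by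
    have h3 : ((Y ^ 2 : ℕ) : ℝ) ≤ ((S.card * (3 * (S.card * (S.card - 1))) *
        (⌊ε * S.card⌋₊ * (2 * (S.card * (S.card - 1)))) : ℕ) : ℝ) := by exact_mod_cast h1
    have h4 : ((S.card - 1 : ℕ) : ℝ) ≤ S.card := by exact_mod_cast Nat.sub_le _ _
    push_cast at h3
    refine h3.trans ?_
    have h5 : (S.card : ℝ) * ((S.card - 1 : ℕ) : ℝ) ≤ S.card * S.card :=
      mul_le_mul_of_nonneg_left h4 (by linarith)
    have h6 : (0 : ℝ) ≤ (S.card : ℝ) * ((S.card - 1 : ℕ) : ℝ) := by positivity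
    refine mul_le_mul ?_ ?_ (by positivity) (by positivity)
    · exact mul_le_mul_of_nonneg_left (mul_le_mul_of_nonneg_left h5 (by norm_num)) (by linarith)
    · exact mul_le_mul hf (mul_le_mul_of_nonneg_left h5 (by norm_num)) (by positivity) (by positivity)
  have h7 : (2 * (Y : ℝ)) ^ 2 ≤ (κ ^ 4 / 8 * (S.card : ℝ) ^ 3) ^ 2 := by
    have e1 : ((S.card : ℝ) * (3 * (S.card * S.card))) * ((ε * S.card) * (2 * (S.card * S.card))) =
        6 * ε * (S.card : ℝ) ^ 6 := by ring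
    rw [e1] at h2
    have h8 : 24 * ε * (S.card : ℝ) ^ 6 ≤ (κ ^ 4 / 8) ^ 2 * (S.card : ℝ) ^ 6 := by
      refine mul_le_mul_of_nonneg_right ?_ (by positivity)
      have h9 : (0 : ℝ) ≤ κ ^ 4 * κ ^ 4 := by positivity
      nlinarith
    nlinarith
  exact le_of_sq_le_sq h7 (by positivity)

/-- Proof. Write `n = S.card`, `R D = Rn S D = ∑ p, kd S D p` (`Rn_eq`), `h D = hx S D = ∑ p, (kd S D p - 2)`
(natural subtraction), `g D = ∑ p ∈ S, |kd S D p - 2| = 2 n - R D + 2 h D`. The sum over `D ∈ ds S` of `R D * g D` is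
`2 n * n (n - 1) - Qn S + 2 ∑ R D h D ≤ δ n ^ 3 + 2 ∑ R D h D` (`Qn_ds`, `sum_kd`), and
`(∑ R D h D) ^ 2 ≤ 6 ε n ^ 6` by `sum_Rn_hx_sq` of `MP_0d8f69_coI/Asym.lean` (with `T = ⌊ε n⌋₊`), so it is
`≤ κ ^ 4 / 4 * n ^ 3`. Put `θ = κ ^ 2 / 2` and `P = {D ∈ ds S : g D ≤ θ n}`. The sum of `R D` over `D ∈ ds S \ P` is at
most `(κ ^ 4 / 4) n ^ 3 / (θ n) = κ ^ 2 / 2 * n ^ 2`; it is the sum over `x ∈ S` of the number of `y ≠ x` in `S` with
`dist x y ∉ P`. For `D ∈ P`, `R D ≥ 2 n - g D ≥ n`, and the sum of all `R D` is `n (n - 1)`, so `P.card ≤ n` and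
`∑ x ∈ S, ∑ D ∈ P, |kd S D x - 2| ≤ n * θ n`. Let `T` be the set of the `x` for which
`∑ D ∈ P, |kd S D x - 2| + (number of y with unpopular distance) ≤ κ n`; by Markov,
`(S \ T).card * κ n ≤ (θ + κ ^ 2 / 2) n ^ 2 = κ ^ 2 n ^ 2`. -/
theorem exists_hom {S : Finset ℂ} (hS : Cx S) {ε δ κ : ℝ} (hκ0 : 0 < κ) (hκ1 : κ ≤ 1)
    (hT : ∀ D : ℝ, ((S.filter (fun p => 3 ≤ kd S D p)).card : ℝ) ≤ ε * S.card)
    (hQ : (2 - δ) * (S.card : ℝ) ^ 3 ≤ Qn S) (hδ : δ ≤ κ ^ 4 / 8) (hε : ε ≤ (κ ^ 4 / 40) ^ 2) (hε0 : 0 ≤ ε)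
    (hne : 1 ≤ S.card) :
    ∃ (T : Finset ℂ) (P : Finset ℝ), Hom S T P κ := by
  classical
  have hn : (1 : ℝ) ≤ S.card := by exact_mod_cast hne
  have hY := HomE_Y hS hκ0 hT hε hε0 hne
  set n : ℝ := (S.card : ℝ) with hnd
  set g : ℝ → ℝ := fun D => ∑ p ∈ S, |(kd S D p : ℝ) - 2| with hg
  have hgR : ∀ D, g D = 2 * n - (Rn S D : ℝ) + 2 * (hx S D : ℝ) := fun D => HomE_g S D
  have hg0 : ∀ D, 0 ≤ g D := fun D => Finset.sum_nonneg fun p _ => abs_nonneg _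
  have hsum : ∑ D ∈ ds S, (Rn S D : ℝ) * g D ≤ κ ^ 4 / 4 * n ^ 3 := by
    have e1 : ∑ D ∈ ds S, (Rn S D : ℝ) * g D = 2 * n * ∑ D ∈ ds S, (Rn S D : ℝ) -
        ∑ D ∈ ds S, (Rn S D : ℝ) ^ 2 + 2 * ∑ D ∈ ds S, (Rn S D : ℝ) * (hx S D : ℝ) := by
      rw [Finset.mul_sum, Finset.mul_sum, ← Finset.sum_sub_distrib, ← Finset.sum_add_distrib]
      refine Finset.sum_congr rfl fun D _ => ?_
      rw [hgR]
      ring
    have e2 : ∑ D ∈ ds S, (Rn S D : ℝ) ^ 2 = (Qn S : ℝ) := by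
      rw [Qn_ds]
      push_cast
      rfl
    rw [e1, e2, HomE_sumR]
    have e3 : δ * n ^ 3 ≤ κ ^ 4 / 8 * n ^ 3 := mul_le_mul_of_nonneg_right hδ (by positivity)
    nlinarith [sq_nonneg n]
  set P : Finset ℝ := (ds S).filter (fun D => g D ≤ κ ^ 2 / 2 * n) with hP
  have hPs : P ⊆ ds S := Finset.filter_subset _ _
  have hθ : 0 < κ ^ 2 / 2 := by positivity
  have hκ2 : κ ^ 2 ≤ κ := by nlinarith
  -- the unpopular distances
  have hU : ∑ D ∈ ds S \ P, (Rn S D : ℝ) ≤ κ ^ 2 / 2 * n ^ 2 := by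
    have h1 : (κ ^ 2 / 2 * n) * ∑ D ∈ ds S \ P, (Rn S D : ℝ) ≤ κ ^ 4 / 4 * n ^ 3 := by
      refine le_trans ?_ hsum
      rw [Finset.mul_sum]
      refine (Finset.sum_le_sum (g := fun D => (Rn S D : ℝ) * g D) fun D hD => ?_).trans
        (Finset.sum_le_sum_of_subset_of_nonneg Finset.sdiff_subset fun D _ _ =>
          mul_nonneg (Nat.cast_nonneg _) (hg0 D))
      have h2 : κ ^ 2 / 2 * n ≤ g D := by
        by_contra hcon
        exact (mem_sdiff.1 hD).2 (mem_filter.2 ⟨(mem_sdiff.1 hD).1, le_of_not_ge hcon⟩)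
      have h3 : (0 : ℝ) ≤ (Rn S D : ℝ) := Nat.cast_nonneg _
      nlinarith
    have h4 : 0 < κ ^ 2 / 2 * n := by positivity
    have h5 : (κ ^ 2 / 2 * n) * ∑ D ∈ ds S \ P, (Rn S D : ℝ) ≤ (κ ^ 2 / 2 * n) * (κ ^ 2 / 2 * n ^ 2) := by
      refine h1.trans (le_of_eq ?_)
      ring
    exact le_of_mul_le_mul_left h5 h4
  -- the number of popular distances
  have hPc : (P.card : ℝ) ≤ n := by
    have h1 : ∑ D ∈ P, n ≤ ∑ D ∈ P, (Rn S D : ℝ) := Finset.sum_le_sum fun D hD => by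
      have h2 := (mem_filter.1 hD).2
      have h3 : (0 : ℝ) ≤ (hx S D : ℝ) := Nat.cast_nonneg _
      have h4 := hgR D
      nlinarith
    have h5 : ∑ D ∈ P, (Rn S D : ℝ) ≤ n * (n - 1) := by
      rw [hnd, ← HomE_sumR]
      exact Finset.sum_le_sum_of_subset_of_nonneg hPs fun _ _ _ => Nat.cast_nonneg _
    rw [Finset.sum_const, nsmul_eq_mul] at h1
    nlinarith
  set a : ℂ → ℝ := fun x => ∑ D ∈ P, |(kd S D x : ℝ) - 2| with ha
  set b : ℂ → ℝ := fun x => ((S.filter (fun y => y ≠ x ∧ dist x y ∉ P)).card : ℝ) with hb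
  have ha0 : ∀ x, 0 ≤ a x := fun x => Finset.sum_nonneg fun D _ => abs_nonneg _
  have hb0 : ∀ x, 0 ≤ b x := fun x => Nat.cast_nonneg _
  have hsa : ∑ x ∈ S, a x ≤ κ ^ 2 / 2 * n ^ 2 := by
    have e1 : ∑ x ∈ S, a x = ∑ D ∈ P, g D := Finset.sum_comm
    rw [e1]
    refine (Finset.sum_le_sum fun D hD => (mem_filter.1 hD).2).trans ?_
    rw [Finset.sum_const, nsmul_eq_mul]
    have h1 : (0 : ℝ) ≤ κ ^ 2 / 2 * n := by positivity
    nlinarith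
  have hsb : ∑ x ∈ S, b x ≤ κ ^ 2 / 2 * n ^ 2 := by
    refine le_trans (le_of_eq ?_) hU
    have e1 : ∀ x ∈ S, b x = ∑ D ∈ ds S \ P, (kd S D x : ℝ) := fun x hx' => by
      rw [hb]
      dsimp only
      rw [HomE_unp S P hx']
      push_cast
      rfl
    rw [Finset.sum_congr rfl e1, Finset.sum_comm]
    refine Finset.sum_congr rfl fun D _ => ?_
    rw [Rn_eq]
    push_cast
    rfl
  set T : Finset ℂ := S.filter (fun x => a x + b x ≤ κ * n) with hTd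
  have hTc : ((S \ T).card : ℝ) ≤ κ * n := by
    have h1 : ∑ x ∈ S \ T, κ * n ≤ ∑ x ∈ S, (a x + b x) := by
      refine (Finset.sum_le_sum (g := fun x => a x + b x) fun x hx' => ?_).trans
        (Finset.sum_le_sum_of_subset_of_nonneg Finset.sdiff_subset fun x _ _ =>
          add_nonneg (ha0 x) (hb0 x))
      by_contra hcon
      exact (mem_sdiff.1 hx').2 (mem_filter.2 ⟨(mem_sdiff.1 hx').1, le_of_not_ge hcon⟩)
    rw [Finset.sum_const, nsmul_eq_mul, Finset.sum_add_distrib] at h1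
    have h2 : ((S \ T).card : ℝ) * (κ * n) ≤ (κ * n) * (κ * n) := by
      refine h1.trans ((add_le_add hsa hsb).trans (le_of_eq ?_))
      ring
    exact le_of_mul_le_mul_right h2 (by positivity)
  refine ⟨T, P, ⟨hS, Finset.filter_subset _ _, hTc, fun D hD => ?_, fun x hx' => ?_, fun x hx' => ?_,
    fun D hD => ?_⟩⟩
  · obtain ⟨p, hp, rfl⟩ := Finset.mem_image.1 (hPs hD)
    exact dist_pos.2 (mem_offDiag.1 hp).2.2
  · exact (le_add_of_nonneg_right (hb0 x)).trans (mem_filter.1 hx').2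
  · exact (le_add_of_nonneg_left (ha0 x)).trans (mem_filter.1 hx').2
  · refine ((mem_filter.1 hD).2).trans ?_
    have h1 : κ ^ 2 / 2 ≤ κ := by nlinarith
    exact mul_le_mul_of_nonneg_right h1 (by linarith)

end Pool.Agent.Lib.MP_0d8f69_coT
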