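import Pool.Agent.Lib.MP_0d8f69_coT.HomD

/-!
MP_0d8f69_co, theorem T: sums over the distances seen from a typical point.
-/

set_option autoImplicit false

namespace Pool.Agent.Lib.MP_0d8f69_coT

open Finset Pool.Agent.Lib.MP_0d8f69_co Pool.Agent.Lib.MP_0d8f69_coI Pool.Agent.Lib.MP_0d8f69_coZ

variable {S T : Finset ℂ} {P : Finset ℝ} {κ : ℝ}

/-- Proof: the sum over `S.erase x` is `∑ D ∈ P, kd S D x * f D` plus the sum over the `y` with unpopular distance
(`kd_erase`); use `Hom.typ` and `Hom.unp`. -/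
theorem Hom.sum_f (h : Hom S T P κ) {x : ℂ} (hx : x ∈ T) {f : ℝ → ℝ} {M : ℝ} (hf : ∀ t, 0 ≤ t → |f t| ≤ M) :
    |∑ y ∈ S.erase x, f (dist x y) - 2 * ∑ D ∈ P, f D| ≤ 2 * κ * S.card * M := by
  classical
  have hM : 0 ≤ M := (abs_nonneg _).trans (hf 0 le_rfl)
  have h1 : ∑ y ∈ (S.erase x).filter (fun y => dist x y ∈ P), f (dist x y) =
      ∑ D ∈ P, (kd S D x : ℝ) * f D := by
    rw [← Finset.sum_fiberwise_of_maps_to (s := (S.erase x).filter (fun y => dist x y ∈ P)) (t := P)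
      (g := fun y => dist x y) (fun y hy => (Finset.mem_filter.1 hy).2)]
    refine Finset.sum_congr rfl fun D hD => ?_
    have h2 : ((S.erase x).filter (fun y => dist x y ∈ P)).filter (fun y => dist x y = D) =
        (S.erase x).filter (fun y => dist x y = D) := by
      ext y
      simp only [mem_filter]
      constructor
      · rintro ⟨⟨a, _⟩, c⟩
        exact ⟨a, c⟩
      · rintro ⟨a, c⟩
        exact ⟨⟨a, by rw [c]; exact hD⟩, c⟩
    rw [h2, kd_erase]
    rw [Finset.sum_congr rfl (fun y hy => by rw [(Finset.mem_filter.1 hy).2]) (g := fun _ => f D)]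
    rw [Finset.sum_const, nsmul_eq_mul]
  have h3 : ∑ y ∈ S.erase x, f (dist x y) =
      ∑ y ∈ (S.erase x).filter (fun y => dist x y ∈ P), f (dist x y) +
      ∑ y ∈ (S.erase x).filter (fun y => ¬ dist x y ∈ P), f (dist x y) :=
    (Finset.sum_filter_add_sum_filter_not _ _ _).symm
  have h4 : |∑ y ∈ (S.erase x).filter (fun y => ¬ dist x y ∈ P), f (dist x y)| ≤ κ * S.card * M := by
    refine (Finset.abs_sum_le_sum_abs _ _).trans ?_
    have h5 : ∑ y ∈ (S.erase x).filter (fun y => ¬ dist x y ∈ P), |f (dist x y)| ≤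
        ∑ y ∈ (S.erase x).filter (fun y => ¬ dist x y ∈ P), M :=
      Finset.sum_le_sum fun y _ => hf _ dist_nonneg
    rw [Finset.sum_const, nsmul_eq_mul] at h5
    refine h5.trans (mul_le_mul_of_nonneg_right ?_ hM)
    refine le_trans ?_ (h.unp x hx)
    have h6 : (S.erase x).filter (fun y => ¬ dist x y ∈ P) ⊆ S.filter (fun y => y ≠ x ∧ dist x y ∉ P) := by
      intro y hy
      simp only [mem_filter, mem_erase] at hy ⊢
      exact ⟨hy.1.2, hy.1.1, hy.2⟩
    exact_mod_cast Finset.card_le_card h6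
  have h7 : |∑ D ∈ P, (kd S D x : ℝ) * f D - 2 * ∑ D ∈ P, f D| ≤ κ * S.card * M := by
    rw [Finset.mul_sum, ← Finset.sum_sub_distrib]
    refine (Finset.abs_sum_le_sum_abs _ _).trans ?_
    have h8 : ∑ D ∈ P, |(kd S D x : ℝ) * f D - 2 * f D| ≤ ∑ D ∈ P, |(kd S D x : ℝ) - 2| * M := by
      refine Finset.sum_le_sum fun D hD => ?_
      rw [← sub_mul, abs_mul]
      exact mul_le_mul_of_nonneg_left (hf D (h.P0 D hD).le) (abs_nonneg _)
    rw [← Finset.sum_mul] at h8
    exact h8.trans (mul_le_mul_of_nonneg_right (h.typ x hx) hM)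
  rw [h3, h1]
  have h9 := abs_add_le (∑ D ∈ P, (kd S D x : ℝ) * f D - 2 * ∑ D ∈ P, f D)
    (∑ y ∈ (S.erase x).filter (fun y => ¬ dist x y ∈ P), f (dist x y))
  have h10 : ∑ D ∈ P, (kd S D x : ℝ) * f D +
      ∑ y ∈ (S.erase x).filter (fun y => ¬ dist x y ∈ P), f (dist x y) - 2 * ∑ D ∈ P, f D =
      (∑ D ∈ P, (kd S D x : ℝ) * f D - 2 * ∑ D ∈ P, f D) +
      ∑ y ∈ (S.erase x).filter (fun y => ¬ dist x y ∈ P), f (dist x y) := by ring
  rw [h10]
  linarith

private theorem hom_ind (h : Hom S T P κ) {x : ℂ} (hx : x ∈ T) (q : ℝ → Prop) [DecidablePred q] :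
    |(((S.erase x).filter (fun y => q (dist x y))).card : ℝ) - 2 * ((P.filter q).card : ℝ)| ≤
      2 * κ * S.card := by
  have h1 := h.sum_f hx (f := fun t => if q t then (1 : ℝ) else 0) (M := 1) (fun t _ => by
    by_cases hq : q t
    · simp [hq]
    · simp [hq])
  rw [Finset.sum_boole, Finset.sum_boole, mul_one] at h1
  exact h1

/-- Proof: `sum_f` with the indicator function of `t ≤ R`. -/
theorem Hom.cnt_le (h : Hom S T P κ) {x : ℂ} (hx : x ∈ T) (R : ℝ) :
    (((S.erase x).filter (fun y => dist x y ≤ R)).card : ℝ) ≤ 2 * NP P R + 2 * κ * S.card := by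
  have h1 := (abs_le.1 (hom_ind h hx (fun t => t ≤ R))).2
  unfold NP
  linarith

theorem Hom.cnt_ge (h : Hom S T P κ) {x : ℂ} (hx : x ∈ T) (R : ℝ) :
    2 * NP P R - 2 * κ * S.card ≤ (((S.erase x).filter (fun y => dist x y ≤ R)).card : ℝ) := by
  have h1 := (abs_le.1 (hom_ind h hx (fun t => t ≤ R))).1
  unfold NP
  linarith

theorem Hom.cntT_le (h : Hom S T P κ) {x : ℂ} (hx : x ∈ T) (R : ℝ) :
    (((T.erase x).filter (fun y => dist x y ≤ R)).card : ℝ) ≤ 2 * NP P R + 2 * κ * S.card := by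
  refine le_trans ?_ (h.cnt_le hx R)
  exact_mod_cast Finset.card_le_card (Finset.filter_subset_filter _ (Finset.erase_subset_erase _ h.sub))

private theorem hom_sub (h : Hom S T P κ) {x : ℂ} (q : ℂ → Prop) [DecidablePred q] :
    (((S.erase x).filter q).card : ℝ) ≤ (((T.erase x).filter q).card : ℝ) + κ * S.card := by
  have h1 : (S.erase x).filter q ⊆ (T.erase x).filter q ∪ (S \ T) := by
    intro y hy
    simp only [mem_filter, mem_erase, mem_union, mem_sdiff] at hy ⊢
    by_cases hT : y ∈ T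
    · exact Or.inl ⟨⟨hy.1.1, hT⟩, hy.2⟩
    · exact Or.inr ⟨hy.1.2, hT⟩
  have h2 : ((S.erase x).filter q).card ≤ ((T.erase x).filter q).card + (S \ T).card :=
    (Finset.card_le_card h1).trans (Finset.card_union_le _ _)
  have h3 : (((S.erase x).filter q).card : ℝ) ≤ ((T.erase x).filter q).card + (S \ T).card := by
    exact_mod_cast h2
  linarith [h.cT]

/-- Proof: `cnt_ge` minus the `κ n` points of `S \ T`. -/
theorem Hom.cntT_ge (h : Hom S T P κ) {x : ℂ} (hx : x ∈ T) (R : ℝ) :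
    2 * NP P R - 3 * κ * S.card ≤ (((T.erase x).filter (fun y => dist x y ≤ R)).card : ℝ) := by
  have h1 := h.cnt_ge hx R
  have h2 := hom_sub h (x := x) (fun y => dist x y ≤ R)
  linarith

/-- Proof: `sum_f` with the indicator function of `R ≤ t`. -/
theorem Hom.cntf_le (h : Hom S T P κ) {x : ℂ} (hx : x ∈ T) (R : ℝ) :
    (((S.erase x).filter (fun y => R ≤ dist x y)).card : ℝ) ≤
      2 * ((P.filter (fun D => R ≤ D)).card : ℝ) + 2 * κ * S.card := by
  have h1 := (abs_le.1 (hom_ind h hx (fun t => R ≤ t))).2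
  linarith

theorem Hom.cntfT_ge (h : Hom S T P κ) {x : ℂ} (hx : x ∈ T) (R : ℝ) :
    2 * ((P.filter (fun D => R ≤ D)).card : ℝ) - 3 * κ * S.card ≤
      (((T.erase x).filter (fun y => R ≤ dist x y)).card : ℝ) := by
  have h1 := (abs_le.1 (hom_ind h hx (fun t => R ≤ t))).1
  have h2 := hom_sub h (x := x) (fun y => R ≤ dist x y)
  linarith

end Pool.Agent.Lib.MP_0d8f69_coT
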