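import Pool.Agent.Lib.MP_0d8f69_coT.HomD

/-!
MP_0d8f69_co: existence of the typical structure when the sum of the squared excesses is small.
-/

set_option autoImplicit false

namespace Pool.Agent.Lib.MP_0d8f69_coT

open Finset Pool.Agent.Lib.MP_0d8f69_co Pool.Agent.Lib.MP_0d8f69_coI Pool.Agent.Lib.MP_0d8f69_coZ

private theorem HomX_abs (k : ℕ) : |(k : ℝ) - 2| = 2 - k + 2 * ((k - 2 : ℕ) : ℝ) := by
  rcases Nat.lt_or_ge k 2 with h | h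
  · have h1 : k - 2 = 0 := by omega
    have h2 : (k : ℝ) ≤ 2 := by exact_mod_cast h.le
    rw [h1, abs_of_nonpos (by linarith)]
    push_cast
    ring
  · have h2 : (2 : ℝ) ≤ k := by exact_mod_cast h
    rw [abs_of_nonneg (by linarith), Nat.cast_sub h]
    push_cast
    ring

private theorem HomX_g (S : Finset ℂ) (D : ℝ) : ∑ p ∈ S, |(kd S D p : ℝ) - 2| =
    2 * S.card - (Rn S D : ℝ) + 2 * (hx S D : ℝ) := by
  rw [Rn_eq, hx]
  push_cast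
  rw [Finset.sum_congr rfl fun p _ => HomX_abs (kd S D p), Finset.sum_add_distrib,
    Finset.sum_sub_distrib, Finset.sum_const, nsmul_eq_mul, ← Finset.mul_sum]
  ring

private theorem HomX_sumR (S : Finset ℂ) : ∑ D ∈ ds S, (Rn S D : ℝ) = S.card * ((S.card : ℝ) - 1) := by
  have h1 : ∑ D ∈ ds S, Rn S D = S.offDiag.card :=
    Rn_sum S (ds S) fun p hp => Finset.mem_image.2 ⟨p, hp, rfl⟩
  have h2 : ((∑ D ∈ ds S, Rn S D : ℕ) : ℝ) = ((S.card * S.card - S.card : ℕ) : ℝ) := by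
    rw [h1, Finset.offDiag_card]
  rw [Nat.cast_sub (Nat.le_mul_self _)] at h2
  push_cast at h2
  rw [h2]
  ring

private theorem HomX_unp (S : Finset ℂ) (P : Finset ℝ) {x : ℂ} (hx' : x ∈ S) :
    (S.filter (fun y => y ≠ x ∧ dist x y ∉ P)).card = ∑ D ∈ ds S \ P, kd S D x := by
  rw [Finset.card_eq_sum_card_fiberwise (f := fun q => dist x q) (t := ds S \ P)]
  · refine Finset.sum_congr rfl fun D hD => ?_
    unfold kd
    congr 1
    ext q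
    simp only [mem_filter]
    constructor
    · rintro ⟨⟨h1, h2, h3⟩, h4⟩
      exact ⟨h1, h2, h4⟩
    · rintro ⟨h1, h2, h3⟩
      exact ⟨⟨h1, h2, by rw [h3]; exact (mem_sdiff.1 hD).2⟩, h3⟩
  · intro q hq
    rw [Finset.mem_coe, mem_filter] at hq
    exact Finset.mem_coe.2 (mem_sdiff.2 ⟨mem_ds hx' hq.1 hq.2.1.symm, hq.2.2⟩)

/-- as `exists_hom` of `HomE.lean`, from a bound for the sum of `Rn S D * hx S D` -/
theorem exists_homY {S : Finset ℂ} (hS : Cx S) {δ κ : ℝ} (hκ0 : 0 < κ) (hκ1 : κ ≤ 1)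
    (hY : 2 * ∑ D ∈ ds S, (Rn S D : ℝ) * (hx S D : ℝ) ≤ κ ^ 4 / 8 * (S.card : ℝ) ^ 3)
    (hQ : (2 - δ) * (S.card : ℝ) ^ 3 ≤ Qn S) (hδ : δ ≤ κ ^ 4 / 8) (hne : 1 ≤ S.card) :
    ∃ (T : Finset ℂ) (P : Finset ℝ), Hom S T P κ := by
  classical
  have hn : (1 : ℝ) ≤ S.card := by exact_mod_cast hne
  set n : ℝ := (S.card : ℝ) with hnd
  set g : ℝ → ℝ := fun D => ∑ p ∈ S, |(kd S D p : ℝ) - 2| with hg
  have hgR : ∀ D, g D = 2 * n - (Rn S D : ℝ) + 2 * (hx S D : ℝ) := fun D => HomX_g S D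
  have hg0 : ∀ D, 0 ≤ g D := fun D => Finset.sum_nonneg fun p _ => abs_nonneg _
  have hsum : ∑ D ∈ ds S, (Rn S D : ℝ) * g D ≤ κ ^ 4 / 4 * n ^ 3 := by
    have e1 : ∑ D ∈ ds S, (Rn S D : ℝ) * g D = 2 * n * ∑ D ∈ ds S, (Rn S D : ℝ) -
        ∑ D ∈ ds S, (Rn S D : ℝ) ^ 2 + 2 * ∑ D ∈ ds S, (Rn S D : ℝ) * (hx S D : ℝ) := by
      rw [Finset.mul_sum, Finset.mul_sum, ← Finset.sum_sub_distrib, ← Finset.sum_add_distrib]
      refine Finset.sum_congr rfl fun D _ => ?_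
      rw [hgR]
      ring
    have e2 : ∑ D ∈ ds S, (Rn S D : ℝ) ^ 2 = (Qn S : ℝ) := by
      rw [Qn_ds]
      push_cast
      rfl
    rw [e1, e2, HomX_sumR]
    have e3 : δ * n ^ 3 ≤ κ ^ 4 / 8 * n ^ 3 := mul_le_mul_of_nonneg_right hδ (by positivity)
    nlinarith [sq_nonneg n]
  set P : Finset ℝ := (ds S).filter (fun D => g D ≤ κ ^ 2 / 2 * n) with hP
  have hPs : P ⊆ ds S := Finset.filter_subset _ _
  have hθ : 0 < κ ^ 2 / 2 := by positivity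
  have hκ2 : κ ^ 2 ≤ κ := by nlinarith
  -- the unpopular distances
  have hU : ∑ D ∈ ds S \ P, (Rn S D : ℝ) ≤ κ ^ 2 / 2 * n ^ 2 := by
    have h1 : (κ ^ 2 / 2 * n) * ∑ D ∈ ds S \ P, (Rn S D : ℝ) ≤ κ ^ 4 / 4 * n ^ 3 := by
      refine le_trans ?_ hsum
      rw [Finset.mul_sum]
      refine (Finset.sum_le_sum (g := fun D => (Rn S D : ℝ) * g D) fun D hD => ?_).trans
        (Finset.sum_le_sum_of_subset_of_nonneg Finset.sdiff_subset fun D _ _ =>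
          mul_nonneg (Nat.cast_nonneg _) (hg0 D))
      have h2 : κ ^ 2 / 2 * n ≤ g D := by
        by_contra hcon
        exact (mem_sdiff.1 hD).2 (mem_filter.2 ⟨(mem_sdiff.1 hD).1, le_of_not_ge hcon⟩)
      have h3 : (0 : ℝ) ≤ (Rn S D : ℝ) := Nat.cast_nonneg _
      nlinarith
    have h4 : 0 < κ ^ 2 / 2 * n := by positivity
    have h5 : (κ ^ 2 / 2 * n) * ∑ D ∈ ds S \ P, (Rn S D : ℝ) ≤ (κ ^ 2 / 2 * n) * (κ ^ 2 / 2 * n ^ 2) := by
      refine h1.trans (le_of_eq ?_)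
      ring
    exact le_of_mul_le_mul_left h5 h4
  -- the number of popular distances
  have hPc : (P.card : ℝ) ≤ n := by
    have h1 : ∑ D ∈ P, n ≤ ∑ D ∈ P, (Rn S D : ℝ) := Finset.sum_le_sum fun D hD => by
      have h2 := (mem_filter.1 hD).2
      have h3 : (0 : ℝ) ≤ (hx S D : ℝ) := Nat.cast_nonneg _
      have h4 := hgR D
      nlinarith
    have h5 : ∑ D ∈ P, (Rn S D : ℝ) ≤ n * (n - 1) := by
      rw [hnd, ← HomX_sumR]
      exact Finset.sum_le_sum_of_subset_of_nonneg hPs fun _ _ _ => Nat.cast_nonneg _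
    rw [Finset.sum_const, nsmul_eq_mul] at h1
    nlinarith
  set a : ℂ → ℝ := fun x => ∑ D ∈ P, |(kd S D x : ℝ) - 2| with ha
  set b : ℂ → ℝ := fun x => ((S.filter (fun y => y ≠ x ∧ dist x y ∉ P)).card : ℝ) with hb
  have ha0 : ∀ x, 0 ≤ a x := fun x => Finset.sum_nonneg fun D _ => abs_nonneg _
  have hb0 : ∀ x, 0 ≤ b x := fun x => Nat.cast_nonneg _
  have hsa : ∑ x ∈ S, a x ≤ κ ^ 2 / 2 * n ^ 2 := by
    have e1 : ∑ x ∈ S, a x = ∑ D ∈ P, g D := Finset.sum_comm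
    rw [e1]
    refine (Finset.sum_le_sum fun D hD => (mem_filter.1 hD).2).trans ?_
    rw [Finset.sum_const, nsmul_eq_mul]
    have h1 : (0 : ℝ) ≤ κ ^ 2 / 2 * n := by positivity
    nlinarith
  have hsb : ∑ x ∈ S, b x ≤ κ ^ 2 / 2 * n ^ 2 := by
    refine le_trans (le_of_eq ?_) hU
    have e1 : ∀ x ∈ S, b x = ∑ D ∈ ds S \ P, (kd S D x : ℝ) := fun x hx' => by
      rw [hb]
      dsimp only
      rw [HomX_unp S P hx']
      push_cast
      rfl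
    rw [Finset.sum_congr rfl e1, Finset.sum_comm]
    refine Finset.sum_congr rfl fun D _ => ?_
    rw [Rn_eq]
    push_cast
    rfl
  set T : Finset ℂ := S.filter (fun x => a x + b x ≤ κ * n) with hTd
  have hTc : ((S \ T).card : ℝ) ≤ κ * n := by
    have h1 : ∑ x ∈ S \ T, κ * n ≤ ∑ x ∈ S, (a x + b x) := by
      refine (Finset.sum_le_sum (g := fun x => a x + b x) fun x hx' => ?_).trans
        (Finset.sum_le_sum_of_subset_of_nonneg Finset.sdiff_subset fun x _ _ =>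
          add_nonneg (ha0 x) (hb0 x))
      by_contra hcon
      exact (mem_sdiff.1 hx').2 (mem_filter.2 ⟨(mem_sdiff.1 hx').1, le_of_not_ge hcon⟩)
    rw [Finset.sum_const, nsmul_eq_mul, Finset.sum_add_distrib] at h1
    have h2 : ((S \ T).card : ℝ) * (κ * n) ≤ (κ * n) * (κ * n) := by
      refine h1.trans ((add_le_add hsa hsb).trans (le_of_eq ?_))
      ring
    exact le_of_mul_le_mul_right h2 (by positivity)
  refine ⟨T, P, ⟨hS, Finset.filter_subset _ _, hTc, fun D hD => ?_, fun x hx' => ?_, fun x hx' => ?_,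
    fun D hD => ?_⟩⟩
  · obtain ⟨p, hp, rfl⟩ := Finset.mem_image.1 (hPs hD)
    exact dist_pos.2 (mem_offDiag.1 hp).2.2
  · exact (le_add_of_nonneg_right (hb0 x)).trans (mem_filter.1 hx').2
  · exact (le_add_of_nonneg_left (ha0 x)).trans (mem_filter.1 hx').2
  · refine ((mem_filter.1 hD).2).trans ?_
    have h1 : κ ^ 2 / 2 ≤ κ := by nlinarith
    exact mul_le_mul_of_nonneg_right h1 (by linarith)

theorem exists_homE {S : Finset ℂ} (hS : Cx S) {ε δ κ : ℝ} (hκ0 : 0 < κ) (hκ1 : κ ≤ 1)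
    (hE : ((∑ D ∈ ds S, hx S D ^ 2 : ℕ) : ℝ) ≤ ε * (S.card : ℝ) ^ 3)
    (hQ : (2 - δ) * (S.card : ℝ) ^ 3 ≤ Qn S) (hδ : δ ≤ κ ^ 4 / 8) (hε : ε ≤ (κ ^ 4 / 40) ^ 2)
    (hne : 1 ≤ S.card) :
    ∃ (T : Finset ℂ) (P : Finset ℝ), Hom S T P κ := by
  refine exists_homY hS hκ0 hκ1 ?_ hQ hδ hne
  have hn : (1 : ℝ) ≤ S.card := by exact_mod_cast hne
  have h1 : (∑ D ∈ ds S, (Rn S D : ℝ) * (hx S D : ℝ)) ^ 2 ≤
      (∑ D ∈ ds S, (Rn S D : ℝ) ^ 2) * ∑ D ∈ ds S, (hx S D : ℝ) ^ 2 := Finset.sum_mul_sq_le_sq_mul_sq _ _ _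
  have h2 : ∑ D ∈ ds S, (Rn S D : ℝ) ^ 2 ≤ 3 * (S.card : ℝ) ^ 3 := by
    have e2 : ∑ D ∈ ds S, (Rn S D : ℝ) ^ 2 = (Qn S : ℝ) := by
      rw [Qn_ds]
      push_cast
      rfl
    have e3 : Qn S ≤ 3 * S.card ^ 3 := by
      refine (Qn_le S).trans ?_
      have h3 := iso_le_all hS
      have h4 : S.card * (S.card - 1) ≤ S.card * S.card := Nat.mul_le_mul_left _ (Nat.sub_le _ _)
      calc S.card * (iso S + S.card * (S.card - 1)) ≤ S.card * (3 * (S.card * S.card)) :=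
            Nat.mul_le_mul_left _ (by omega)
        _ = 3 * S.card ^ 3 := by ring
    rw [e2]
    exact_mod_cast e3
  have h3 : ∑ D ∈ ds S, (hx S D : ℝ) ^ 2 ≤ (κ ^ 4 / 40) ^ 2 * (S.card : ℝ) ^ 3 := by
    have e4 : ((∑ D ∈ ds S, hx S D ^ 2 : ℕ) : ℝ) = ∑ D ∈ ds S, (hx S D : ℝ) ^ 2 := by push_cast; rfl
    rw [e4] at hE
    exact hE.trans (mul_le_mul_of_nonneg_right hε (by positivity))
  have h4 : (∑ D ∈ ds S, (Rn S D : ℝ) * (hx S D : ℝ)) ^ 2 ≤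
      3 * (S.card : ℝ) ^ 3 * ((κ ^ 4 / 40) ^ 2 * (S.card : ℝ) ^ 3) :=
    h1.trans (mul_le_mul h2 h3 (Finset.sum_nonneg fun _ _ => sq_nonneg _) (by positivity))
  refine le_of_sq_le_sq ?_ (by positivity)
  have h5 : (0 : ℝ) ≤ κ ^ 4 * κ ^ 4 * (S.card : ℝ) ^ 6 := by positivity
  calc (2 * ∑ D ∈ ds S, (Rn S D : ℝ) * (hx S D : ℝ)) ^ 2
      = 4 * (∑ D ∈ ds S, (Rn S D : ℝ) * (hx S D : ℝ)) ^ 2 := by ring
    _ ≤ 4 * (3 * (S.card : ℝ) ^ 3 * ((κ ^ 4 / 40) ^ 2 * (S.card : ℝ) ^ 3)) := by linarith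
    _ = 12 / 1600 * (κ ^ 4 * κ ^ 4 * (S.card : ℝ) ^ 6) := by ring
    _ ≤ 1 / 64 * (κ ^ 4 * κ ^ 4 * (S.card : ℝ) ^ 6) := mul_le_mul_of_nonneg_right (by norm_num) h5
    _ = (κ ^ 4 / 8 * (S.card : ℝ) ^ 3) ^ 2 := by ring

end Pool.Agent.Lib.MP_0d8f69_coT
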