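import Pool.Agent.Lib.MP_0d8f69_coT.OutE

/-!
MP_0d8f69_co, theorem T: two typical points on the same side have different distances.
-/

set_option autoImplicit false

namespace Pool.Agent.Lib.MP_0d8f69_coT

open Finset Pool.Agent.Lib.MP_0d8f69_co Pool.Agent.Lib.MP_0d8f69_coI Pool.Agent.Lib.MP_0d8f69_coZ

variable {S T : Finset ℂ} {P : Finset ℝ} {κ β ω : ℝ} {O : ℂ} {ρ r : ℝ}

private theorem injE_half (g : Geo S T P κ β ω O ρ r) {σ : ℝ} (hσ : σ = 1 ∨ σ = -1) {x y z w : ℂ}
    (hx : x ∈ T) (hxy : x ≠ y) (hxz : x ≠ z) (hyz : y ≠ z)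
    (c1 : CC σ (x - O) (y - x)) (c2 : CC σ (x - O) (z - x))
    (c4 : CC σ (x - O) (w - z)) (hA : 0 < σ * dt x y z) (hB : 0 < σ * dt y z w) :
    dist x y ≠ dist x z := by
  have hv : x - O ≠ 0 := by
    intro h
    have h1 := (g.rad x hx).1
    rw [h, norm_zero] at h1
    have h2 := g.rho
    linarith
  have e1 : cr (y - x) (z - y) = dt x y z := by
    unfold cr dt
    simp only [Complex.sub_re, Complex.sub_im]
    ring
  have e2 : cr (z - y) (w - z) = dt y z w := by
    unfold cr dt
    simp only [Complex.sub_re, Complex.sub_im]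
    ring
  have hm : |dp (x - O) (z - y)| ≤ 9 / 10 * |cr (x - O) (z - y)| := by
    refine cone_mid hσ hv c1 c4 ?_ ?_
    · rw [e1]; exact hA
    · rw [e2]; exact hB
  have hb : z - y ≠ 0 := sub_ne_zero.2 hyz.symm
  have hb' : y - z ≠ 0 := sub_ne_zero.2 hyz
  have hne : cr (x - O) (z - y) ≠ 0 := by
    intro h0
    rw [h0, abs_zero, mul_zero] at hm
    have h1 : dp (x - O) (z - y) = 0 := abs_eq_zero.1 (le_antisymm hm (abs_nonneg _))
    have h2 := dp_cr (x - O) (z - y) (z - y)
    rw [h0, h1] at h2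
    have h3 : 0 < (x - O).re ^ 2 + (x - O).im ^ 2 := by
      by_contra hcon
      apply hv
      apply Complex.ext
      · have : (x - O).re ^ 2 ≤ 0 := by nlinarith [sq_nonneg (x - O).im, sq_nonneg (x - O).re]
        have h5 : (x - O).re ^ 2 = 0 := le_antisymm this (sq_nonneg _)
        rw [Complex.zero_re]
        exact pow_eq_zero_iff (two_ne_zero) |>.1 h5
      · have : (x - O).im ^ 2 ≤ 0 := by nlinarith [sq_nonneg (x - O).im, sq_nonneg (x - O).re]
        have h5 : (x - O).im ^ 2 = 0 := le_antisymm this (sq_nonneg _)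
        rw [Complex.zero_im]
        exact pow_eq_zero_iff (two_ne_zero) |>.1 h5
    have h4 : dp (z - y) (z - y) = 0 := by
      have h5 : ((x - O).re ^ 2 + (x - O).im ^ 2) * dp (z - y) (z - y) = 0 := by
        rw [h2]; ring
      exact (mul_eq_zero.1 h5).resolve_left h3.ne'
    unfold dp at h4
    apply hb
    apply Complex.ext
    · have h5 : (z - y).re * (z - y).re = 0 := by
        nlinarith [mul_self_nonneg (z - y).re, mul_self_nonneg (z - y).im]
      rw [Complex.zero_re]
      exact mul_self_eq_zero.1 h5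
    · have h5 : (z - y).im * (z - y).im = 0 := by
        nlinarith [mul_self_nonneg (z - y).re, mul_self_nonneg (z - y).im]
      rw [Complex.zero_im]
      exact mul_self_eq_zero.1 h5
  have hσ1 : |σ| = 1 := by
    rcases hσ with h | h
    · rw [h, abs_one]
    · rw [h, abs_neg, abs_one]
  have habs : |cr (x - O) (z - y)| = |σ * cr (x - O) (z - y)| := by
    rw [abs_mul, hσ1, one_mul]
  have hσ0 : σ ≠ 0 := by
    intro h
    rw [h, abs_zero] at hσ1
    exact one_ne_zero hσ1.symm
  rcases lt_or_gt_of_ne (mul_ne_zero hσ0 hne) with h | h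
  · -- negative
    have e3 : cr (x - O) (y - z) = -cr (x - O) (z - y) := by
      unfold cr
      simp only [Complex.sub_re, Complex.sub_im]
      ring
    have e4 : dp (x - O) (y - z) = -dp (x - O) (z - y) := by
      unfold dp
      simp only [Complex.sub_re, Complex.sub_im]
      ring
    have hC : CC σ (x - O) (y - z) := by
      unfold CC
      rw [e3, e4, abs_neg]
      rw [habs, abs_of_neg h] at hm
      calc |dp (x - O) (z - y)| ≤ 9 / 10 * -(σ * cr (x - O) (z - y)) := hm
        _ = 9 / 10 * (σ * -cr (x - O) (z - y)) := by ring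
    have h5 := CC.dp_pos hσ hv (sub_ne_zero.2 hxz.symm) hb' c2 hC
    exact (dist_lt_of_dp h5).ne'
  · have hC : CC σ (x - O) (z - y) := by
      unfold CC
      rw [habs, abs_of_pos h] at hm
      exact hm
    have h5 := CC.dp_pos hσ hv (sub_ne_zero.2 hxy.symm) hb c1 hC
    exact (dist_lt_of_dp h5).ne

/-- Proof. `σ * dt x y w > 0` and `σ * dt x z w > 0` by `Geo.outer` (with `p = x`). The numbers `dt x y z` and
`dt y z w` are not zero (`dt_ne` of `MP_0d8f69_coI/Geo.lean`) and have the same sign: otherwise `z` is in the triangle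
`x y w` or `y` is in the triangle `x z w`, a contradiction by `MP_0d8f69_coI.not_comb`
(`dt y z w * x + dt z x w * y + dt x y z * w = dt x y w * z` up to signs). By symmetry in `y, z` let both be of the sign
of `σ`. With `a = y - x`, `b = z - y`, `c = w - z`: `σ * cr a b > 0`, `σ * cr b c > 0`, so `cone_mid` gives
`|dp v b| ≤ 0.9 |cr v b|`, `v = x - O`. `cr v b ≠ 0` (otherwise `b = 0`). If `σ * cr v b > 0` then `CC σ v b`, so
`dp a b > 0` and `dist x y < dist x z` (`CC.dp_pos`, `dist_lt_of_dp`). If `σ * cr v b < 0` then `CC σ v (y - z)`, so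
`dp (z - x) (y - z) > 0` and `dist x z < dist x y`. -/
theorem Geo.inj4 (g : Geo S T P κ β ω O ρ r) {σ : ℝ} (hσ : σ = 1 ∨ σ = -1) {x y z w : ℂ} (hx : x ∈ T)
    (hy : y ∈ T) (hz : z ∈ T) (hw : w ∈ T) (dy : dist x y ≤ ρ / 50) (dz : dist x z ≤ ρ / 50)
    (dw : dist x w ≤ ρ / 50) (hxy : x ≠ y) (hxz : x ≠ z) (hyz : y ≠ z) (hyw : y ≠ w) (hzw : z ≠ w)
    (c1 : CC σ (x - O) (y - x)) (c2 : CC σ (x - O) (z - x)) (c3 : CC σ (x - O) (w - y))
    (c4 : CC σ (x - O) (w - z)) : dist x y ≠ dist x z := by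
  have hρ := g.rho
  have dx : dist x x ≤ ρ / 50 := by
    rw [dist_self]
    positivity
  have h1 := g.outer hσ hx hx hy hw dx dy dw hxy hyw c1 c3
  have h2 := g.outer hσ hx hx hz hw dx dz dw hxz hzw c2 c4
  have hS : ∀ x ∈ S, x ∉ convexHull ℝ (↑(S.erase x) : Set ℂ) := g.hom.cx
  have hxS := g.hom.sub hx
  have hyS := g.hom.sub hy
  have hzS := g.hom.sub hz
  have hwS := g.hom.sub hw
  have hA0 : dt x y z ≠ 0 := dt_ne hS hxS hyS hzS hxy hyz hxz
  have hB0 : dt y z w ≠ 0 := dt_ne hS hyS hzS hwS hyz hzw hyw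
  have hσ0 : σ ≠ 0 := by
    rcases hσ with h | h
    · rw [h]; norm_num
    · rw [h]; norm_num
  rcases lt_or_gt_of_ne (mul_ne_zero hσ0 hA0) with hA | hA
  · rcases lt_or_gt_of_ne (mul_ne_zero hσ0 hB0) with hB | hB
    · have hA' : 0 < σ * dt x z y := by
        rw [dt_swap x y z]
        linarith
      have hB' : 0 < σ * dt z y w := by
        have e : dt z y w = -dt y z w := by unfold dt; ring
        rw [e]
        linarith
      exact (injE_half g hσ hx hxz hxy hyz.symm c2 c1 c3 hA' hB').symm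
    · exfalso
      refine MP_0d8f69_coI.not_comb hS hyS hxS hzS hwS hxy hyz.symm hyw.symm
        (α := σ * dt y z w) (β := σ * dt x y w) (γ := -(σ * dt x y z)) hB.le h1.le (by linarith)
        (by linarith) ?_ ?_
      · unfold dt; ring
      · unfold dt; ring
  · rcases lt_or_gt_of_ne (mul_ne_zero hσ0 hB0) with hB | hB
    · exfalso
      refine MP_0d8f69_coI.not_comb hS hzS hxS hyS hwS hxz hyz hzw.symm
        (α := -(σ * dt y z w)) (β := σ * dt x z w) (γ := σ * dt x y z) (by linarith) h2.le hA.le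
        (by linarith) ?_ ?_
      · unfold dt; ring
      · unfold dt; ring
    · exact injE_half g hσ hx hxy hxz hyz c1 c2 c4 hA hB

end Pool.Agent.Lib.MP_0d8f69_coT
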