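import Pool.Agent.Lib.MP_0d8f69_coT.ConeA

/-!
MP_0d8f69_co, theorem T: a typical point between two typical points is on the outer side of the chord.
-/

set_option autoImplicit false

namespace Pool.Agent.Lib.MP_0d8f69_coT

open Finset Pool.Agent.Lib.MP_0d8f69_co Pool.Agent.Lib.MP_0d8f69_coI Pool.Agent.Lib.MP_0d8f69_coZ

variable {S T : Finset ℂ} {P : Finset ℝ} {κ β ω : ℝ} {O : ℂ} {ρ r : ℝ}

private theorem hull_comb {K : Set ℂ} (hK : Convex ℝ K) {x a b c : ℂ} (ha : a ∈ K) (hb : b ∈ K) (hc : c ∈ K)
    {α β γ : ℝ} (hα : 0 ≤ α) (hβ : 0 ≤ β) (hγ : 0 ≤ γ) (hs : 0 < α + β + γ)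
    (hre : (α + β + γ) * x.re = α * a.re + β * b.re + γ * c.re)
    (him : (α + β + γ) * x.im = α * a.im + β * b.im + γ * c.im) : x ∈ K := by
  have h := hK.sum_mem (t := (Finset.univ : Finset (Fin 3)))
    (w := ![α / (α + β + γ), β / (α + β + γ), γ / (α + β + γ)]) (z := ![a, b, c])
    (by
      intro i _
      fin_cases i
      · exact div_nonneg hα hs.le
      · exact div_nonneg hβ hs.le
      · exact div_nonneg hγ hs.le)
    (by
      rw [Fin.sum_univ_three]
      simp only [Matrix.cons_val_zero, Matrix.cons_val_one, Matrix.cons_val]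
      field_simp)
    (by
      intro i _
      fin_cases i
      · exact ha
      · exact hb
      · exact hc)
  have e : ∑ i : Fin 3, (![α / (α + β + γ), β / (α + β + γ), γ / (α + β + γ)] i) • (![a, b, c] i) = x := by
    rw [Fin.sum_univ_three]
    simp only [Matrix.cons_val_zero, Matrix.cons_val_one, Matrix.cons_val]
    apply Complex.ext
    · simp only [Complex.add_re, Complex.real_smul, Complex.re_ofReal_mul]
      field_simp
      linarith
    · simp only [Complex.add_im, Complex.real_smul, Complex.im_ofReal_mul]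
      field_simp
      linarith
  rw [e] at h
  exact h

/-- The barycentre `O` of `T` cannot make a point `y` of `T` a convex combination of `x, w, O`.

Proof: `N = T.card`, `N • O = ∑ t ∈ T, t` (`Geo.bar`), so `N • O = y + ∑ t ∈ T.erase y, t`. Multiply
`(a + b + c) y = a x + b w + c O` by `N` and insert: `(N (a + b + c) - c) y = N a x + N b w + c ∑ t ∈ T.erase y, t`, the
sum of the coefficients on the right is `N a + N b + c (N - 1) = N (a + b + c) - c > 0` (`x ≠ y` gives `N ≥ 2`), so
`y ∈ convexHull ℝ (S.erase y)`, a contradiction to `Geo.hom.cx`. -/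
theorem Geo.not_comb (g : Geo S T P κ β ω O ρ r) {x y w : ℂ} (hx : x ∈ T) (hy : y ∈ T) (hw : w ∈ T) (hxy : x ≠ y)
    (hwy : w ≠ y) {a b c : ℝ} (ha : 0 ≤ a) (hb : 0 ≤ b) (hc : 0 ≤ c) (hs : 0 < a + b + c)
    (hre : (a + b + c) * y.re = a * x.re + b * w.re + c * O.re)
    (him : (a + b + c) * y.im = a * x.im + b * w.im + c * O.im) : False := by
  have hsub : ∀ z ∈ T.erase y, z ∈ convexHull ℝ (↑(S.erase y) : Set ℂ) := fun z hz =>
    subset_convexHull ℝ _ (Finset.mem_coe.2 (Finset.mem_erase.2
      ⟨(Finset.mem_erase.1 hz).1, g.hom.sub (Finset.mem_erase.1 hz).2⟩))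
  have hcard : (((T.erase y).card : ℕ) : ℝ) + 1 = T.card := by
    have h1 := Finset.card_erase_add_one hy
    exact_mod_cast h1
  have hM : (1 : ℝ) ≤ ((T.erase y).card : ℝ) := by
    have h1 : 0 < (T.erase y).card := Finset.card_pos.2 ⟨x, Finset.mem_erase.2 ⟨hxy, hx⟩⟩
    exact_mod_cast h1
  set M : ℝ := ((T.erase y).card : ℝ) with hMdef
  have hM0 : (0 : ℝ) < M := by linarith
  -- the barycentre of the other points
  have hcm : (∑ t ∈ T.erase y, (1 / M) • t) ∈ convexHull ℝ (↑(S.erase y) : Set ℂ) := by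
    refine (convex_convexHull ℝ (↑(S.erase y) : Set ℂ)).sum_mem (t := T.erase y) (w := fun _ => 1 / M)
      (z := fun t => t) (fun t _ => by positivity) ?_ hsub
    rw [Finset.sum_const, nsmul_eq_mul, ← hMdef]
    field_simp
  set q : ℂ := ∑ t ∈ T.erase y, (1 / M) • t with hq
  -- `(M + 1) O = y + M q`
  have hsumre : (M + 1) * O.re = y.re + M * q.re := by
    have h1 := congrArg Complex.re g.bar
    rw [Complex.re_sum] at h1
    simp only [Complex.sub_re, Complex.zero_re] at h1
    rw [Finset.sum_sub_distrib, Finset.sum_const, nsmul_eq_mul, ← hcard] at h1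
    have h2 : M * q.re = ∑ t ∈ T.erase y, t.re := by
      rw [hq, Complex.re_sum, Finset.mul_sum]
      refine Finset.sum_congr rfl fun t _ => ?_
      rw [Complex.real_smul, Complex.re_ofReal_mul]
      field_simp
    have h3 : y.re + ∑ t ∈ T.erase y, t.re = ∑ t ∈ T, t.re := Finset.add_sum_erase T (fun t => t.re) hy
    linarith
  have hsumim : (M + 1) * O.im = y.im + M * q.im := by
    have h1 := congrArg Complex.im g.bar
    rw [Complex.im_sum] at h1
    simp only [Complex.sub_im, Complex.zero_im] at h1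
    rw [Finset.sum_sub_distrib, Finset.sum_const, nsmul_eq_mul, ← hcard] at h1
    have h2 : M * q.im = ∑ t ∈ T.erase y, t.im := by
      rw [hq, Complex.im_sum, Finset.mul_sum]
      refine Finset.sum_congr rfl fun t _ => ?_
      rw [Complex.real_smul, Complex.im_ofReal_mul]
      field_simp
    have h3 : y.im + ∑ t ∈ T.erase y, t.im = ∑ t ∈ T, t.im := Finset.add_sum_erase T (fun t => t.im) hy
    linarith
  refine g.hom.cx y (g.hom.sub hy) ?_
  refine hull_comb (convex_convexHull ℝ (↑(S.erase y) : Set ℂ)) (hsub x (Finset.mem_erase.2 ⟨hxy, hx⟩))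
    (hsub w (Finset.mem_erase.2 ⟨hwy, hw⟩)) hcm (α := (M + 1) * a) (β := (M + 1) * b) (γ := M * c)
    (by positivity) (by positivity) (by positivity) ?_ ?_ ?_
  · rcases hc.eq_or_lt with h | h
    · rw [← h] at hs ⊢
      nlinarith
    · have h1 : 0 < M * c := by positivity
      have h2 : 0 ≤ (M + 1) * a := by positivity
      have h3 : 0 ≤ (M + 1) * b := by positivity
      linarith
  · linear_combination (M + 1) * hre + c * hsumre
  · linear_combination (M + 1) * him + c * hsumim

/-- Proof. Let `v = p - O`. Suppose `σ * dt x y w ≤ 0`. Then `y` is a convex combination of `x, w, O`: the identity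
`(dt y w O + dt x y O + dt x w y) y = dt y w O • x + dt x y O • w + dt x w y • O` holds, with
`σ * dt x w y = - σ * dt x y w ≥ 0`; `σ * dt x y O = σ * cr (x - O) (y - x) > 0` (`dt x y O = cr (y - x) (O - x) =
cr (x - O) (y - x)`) by `Geo.transfer'` from `CC σ (p - O) (y - x)`, and `σ * dt y w O = σ * cr (w - O) (w - y) > 0` in
the same way (`cr (w - O) (w - y) = cr (y - O) (w - y)`). Contradiction to `Geo.not_comb`. -/
theorem Geo.outer (g : Geo S T P κ β ω O ρ r) {σ : ℝ} (hσ : σ = 1 ∨ σ = -1) {p x y w : ℂ} (hp : p ∈ T)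
    (hx : x ∈ T) (hy : y ∈ T) (hw : w ∈ T) (dx : dist p x ≤ ρ / 50) (dy : dist p y ≤ ρ / 50)
    (dw : dist p w ≤ ρ / 50) (hxy : x ≠ y) (hyw : y ≠ w) (c1 : CC σ (p - O) (y - x)) (c2 : CC σ (p - O) (w - y)) :
    0 < σ * dt x y w := by
  by_contra hneg
  rw [not_lt] at hneg
  have hρ := g.rho
  have hv : p - O ≠ 0 := by
    intro h
    have h1 := (g.rad p hp).1
    rw [h, norm_zero] at h1
    linarith
  have hs2 : σ * σ = 1 := by
    rcases hσ with h | h <;> rw [h] <;> norm_num
  -- the cross products are positive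
  have hpos : ∀ z : ℂ, z ≠ 0 → CC σ (p - O) z → 0 < σ * cr (p - O) z := by
    intro z hz hC
    unfold CC at hC
    have h0 : 0 ≤ |dp (p - O) z| := abs_nonneg _
    rcases lt_or_eq_of_le (show 0 ≤ σ * cr (p - O) z by linarith) with h | h
    · exact h
    · exfalso
      have h1 : |dp (p - O) z| = 0 := by
        rw [← h] at hC
        linarith
      have h2 : dp (p - O) z = 0 := abs_eq_zero.1 h1
      have h3 : cr (p - O) z = 0 := by
        have : σ * (σ * cr (p - O) z) = 0 := by rw [← h, mul_zero]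
        rw [← mul_assoc, hs2, one_mul] at this
        exact this
      have h4 := dp_cr (p - O) z z
      rw [h2, h3] at h4
      have h5 : 0 < (p - O).re ^ 2 + (p - O).im ^ 2 := by
        by_contra hh
        have e1 : (p - O).re = 0 := by nlinarith [sq_nonneg (p - O).re, sq_nonneg (p - O).im]
        have e2 : (p - O).im = 0 := by nlinarith [sq_nonneg (p - O).re, sq_nonneg (p - O).im]
        exact hv (Complex.ext (by rw [e1, Complex.zero_re]) (by rw [e2, Complex.zero_im]))
      have h6 : dp z z = 0 := by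
        have : ((p - O).re ^ 2 + (p - O).im ^ 2) * dp z z = 0 := by rw [h4]; ring
        rcases mul_eq_zero.1 this with h7 | h7
        · exact absurd h7 h5.ne'
        · exact h7
      unfold dp at h6
      have e1 : z.re = 0 := by nlinarith [mul_self_nonneg z.re, mul_self_nonneg z.im]
      have e2 : z.im = 0 := by nlinarith [mul_self_nonneg z.re, mul_self_nonneg z.im]
      exact hz (Complex.ext (by rw [e1, Complex.zero_re]) (by rw [e2, Complex.zero_im]))
  have habs : ∀ z : ℂ, CC σ (p - O) z → |dp (p - O) z| ≤ 9 / 10 * |cr (p - O) z| := by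
    intro z hC
    unfold CC at hC
    refine hC.trans ?_
    have h1 : σ * cr (p - O) z ≤ |σ * cr (p - O) z| := le_abs_self _
    have h2 : |σ * cr (p - O) z| = |cr (p - O) z| := by
      rw [abs_mul]
      have : |σ| = 1 := by
        rcases hσ with h | h <;> rw [h] <;> norm_num
      rw [this, one_mul]
    rw [h2] at h1
    linarith
  have hxy' : y - x ≠ 0 := sub_ne_zero.2 (Ne.symm hxy)
  have hyw' : w - y ≠ 0 := sub_ne_zero.2 (Ne.symm hyw)
  have t1 : 0 < σ * cr (x - O) (y - x) :=
    g.transfer' hp (by linarith) (habs _ c1) hσ (hpos _ hxy' c1)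
  have t2 : 0 < σ * cr (y - O) (w - y) :=
    g.transfer' hp (by linarith) (habs _ c2) hσ (hpos _ hyw' c2)
  have e1 : cr (x - O) (y - x) = dt x y O := by
    unfold cr dt
    simp only [Complex.sub_re, Complex.sub_im]
    ring
  have e2 : cr (y - O) (w - y) = dt y w O := by
    unfold cr dt
    simp only [Complex.sub_re, Complex.sub_im]
    ring
  rw [e1] at t1
  rw [e2] at t2
  have t3 : 0 ≤ σ * dt x w y := by
    rw [dt_swap]
    linarith
  refine g.not_comb hx hy hw hxy (Ne.symm hyw) (a := σ * dt y w O) (b := σ * dt x y O) (c := σ * dt x w y)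
    t2.le t1.le t3 (by linarith) ?_ ?_
  · unfold dt
    ring
  · unfold dt
    ring

end Pool.Agent.Lib.MP_0d8f69_coT
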