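import Pool.Agent.Lib.MP_0d8f69_coT.Steps
import Pool.Agent.Lib.MP_0d8f69_coT.LocD

/-!
MP_0d8f69_co, theorem T: almost all short distances are invariant under the shift of the vertices.
-/

set_option autoImplicit false

namespace Pool.Agent.Lib.MP_0d8f69_coT

open Finset Pool.Agent.Lib.MP_0d8f69_co Pool.Agent.Lib.MP_0d8f69_coI Pool.Agent.Lib.MP_0d8f69_coZ

variable {n : ℕ} [NeZero n] {z : ZMod n → ℂ} {P : Finset ℝ} {G : Finset (ZMod n)} {κ d : ℝ} {b a : ZMod n → ℕ}

/-- bad steps on the right -/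
private noncomputable def RBt (z : ZMod n → ℂ) (P : Finset ℝ) (h : ℕ) (i : ZMod n) : Finset ℕ :=
  (Icc 1 h).filter (fun s => ¬ Nx P (cz z i s) (cz z i (s + 1)))

/-- bad steps on the left -/
private noncomputable def LBt (z : ZMod n → ℂ) (P : Finset ℝ) (h : ℕ) (i : ZMod n) : Finset ℕ :=
  (Icc 1 h).filter (fun s => ¬ Nx P (cz z i (n - s)) (cz z i (n - (s + 1))))

private theorem card_RBt (hL : Loc n z P G κ d b a) {h : ℕ} (hh : (h : ℝ) + 1 + κ * n ≤ P.card)
    {i : ZMod n} (hi : i ∈ G) : ((RBt z P h i).card : ℝ) ≤ 3 * κ * n := by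
  have h1 := hL.missR i hi
  have h2 := hL.unpR i hi
  have h3 : h + 1 + (P.filter (fun D => D ∉ (Icc 1 (b i)).image (cz z i))).card ≤ P.card := by
    have : (h : ℝ) + 1 + ((P.filter (fun D => D ∉ (Icc 1 (b i)).image (cz z i))).card : ℝ) ≤
        P.card := by linarith
    exact_mod_cast this
  have h4 := (steps (c := cz z i) (hL.incR i hi) (hL.b1 i hi).1 (hL.b1 i hi).2.2 hL.Pd h3).2
  have h5 : ((RBt z P h i).card : ℝ) ≤
      2 * (((Icc 1 (b i)).filter (fun s => cz z i s < d ∧ cz z i s ∉ P)).card : ℝ) +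
        ((P.filter (fun D => D ∉ (Icc 1 (b i)).image (cz z i))).card : ℝ) := by
    unfold RBt
    exact_mod_cast h4
  linarith

private theorem card_LBt (hL : Loc n z P G κ d b a) {h : ℕ} (hh : (h : ℝ) + 1 + κ * n ≤ P.card)
    {i : ZMod n} (hi : i ∈ G) : ((LBt z P h i).card : ℝ) ≤ 3 * κ * n := by
  have h1 := hL.missL i hi
  have h2 := hL.unpL i hi
  have h3 : h + 1 + (P.filter (fun D => D ∉ (Icc 1 (a i)).image (fun s => cz z i (n - s)))).card ≤
      P.card := by
    have : (h : ℝ) + 1 +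
        ((P.filter (fun D => D ∉ (Icc 1 (a i)).image (fun s => cz z i (n - s)))).card : ℝ) ≤
        P.card := by linarith
    exact_mod_cast this
  have h4 := (steps (c := fun s => cz z i (n - s)) (hL.incL i hi) (hL.a1 i hi).1 (hL.a1 i hi).2.2
    hL.Pd h3).2
  have h5 : ((LBt z P h i).card : ℝ) ≤
      2 * (((Icc 1 (a i)).filter (fun s => cz z i (n - s) < d ∧ cz z i (n - s) ∉ P)).card : ℝ) +
        ((P.filter (fun D => D ∉ (Icc 1 (a i)).image (fun s => cz z i (n - s)))).card : ℝ) := by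
    unfold LBt
    exact_mod_cast h4
  linarith

private theorem sum_G_le (F : ZMod n → Finset ℕ) {C : ℝ} (hC : 0 ≤ C)
    (hF : ∀ i ∈ G, ((F i).card : ℝ) ≤ C) : ((∑ i ∈ G, (F i).card : ℕ) : ℝ) ≤ n * C := by
  push_cast
  calc ∑ i ∈ G, ((F i).card : ℝ) ≤ ∑ _i ∈ G, C := Finset.sum_le_sum hF
    _ = G.card * C := by rw [Finset.sum_const, nsmul_eq_mul]
    _ ≤ n * C := by
        refine mul_le_mul_of_nonneg_right ?_ hC
        have h1 := Finset.card_le_univ G
        rw [ZMod.card] at h1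
        exact_mod_cast h1

private theorem h_lt {κ : ℝ} (hκ0 : 0 < κ) (hPn : 4 * P.card ≤ n) {h : ℕ}
    (hh : (h : ℝ) + 1 + κ * n ≤ P.card) : h + 1 < n := by
  have hn : 0 < n := Nat.pos_of_ne_zero (NeZero.ne n)
  have h0 : (0 : ℝ) < n := by exact_mod_cast hn
  have h1 : (h : ℝ) + 1 ≤ P.card := by
    have := mul_pos hκ0 h0
    linarith
  have h2 : h + 1 ≤ P.card := by exact_mod_cast h1
  omega

/-- Proof: as `card_SB` in `MP_0d8f69_coZ/Shift2.lean`. For `i ∈ G` apply `steps` to `c = cz z i`, and to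
`c = fun s => cz z i (n - s)` (with `b = a i`): at most `3 κ n` bad steps `s ≤ h` on each side. If `i ∈ G`,
`j = i + (s + 1) ∈ G`, the step `s` of `i` on the right and the step `s` of `j` on the left are perfect, then
`cz z (i + 1) s = cz z i s` by `key_step` (`MP_0d8f69_coZ/Shift.lean`). The exceptions: `i ∉ G` (`≤ κ n h`), `j ∉ G`
(`≤ κ n h`), bad right steps (`≤ 3 κ n ^ 2`), bad left steps (`≤ 3 κ n ^ 2`), and `h ≤ n`. (If `G` is empty
then `n ≤ κ * n` and the claim is trivial since the left side is at most `n * h ≤ n ^ 2`; `h ≤ n` follows from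
`P.card ≤ n`, which holds for `i ∈ G` up to the missing values: or use `h < b i < n`.) -/
theorem shift_count (hL : Loc n z P G κ d b a) (hκ0 : 0 < κ) (hPn : 4 * P.card ≤ n) {h : ℕ}
    (hh : (h : ℝ) + 1 + κ * n ≤ P.card) :
    ((((Finset.univ : Finset (ZMod n)) ×ˢ Finset.Icc 1 h).filter
      (fun x : ZMod n × ℕ => cz z x.1 x.2 ≠ cz z (x.1 + 1) x.2)).card : ℝ) ≤ 8 * κ * n ^ 2 := by
  classical
  have hhn := h_lt hκ0 hPn hh
  set NG := (Finset.univ : Finset (ZMod n)).filter (fun i => i ∉ G) with hNG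
  have hcG : (NG.card : ℝ) ≤ κ * n := hL.cG
  have hsub : ((Finset.univ : Finset (ZMod n)) ×ˢ Finset.Icc 1 h).filter
      (fun x : ZMod n × ℕ => cz z x.1 x.2 ≠ cz z (x.1 + 1) x.2) ⊆
      (NG ×ˢ Finset.Icc 1 h) ∪ ((NG ×ˢ Finset.Icc 1 h).image (fun x => (x.1 - ((x.2 + 1 : ℕ) : ZMod n), x.2)) ∪
        (G.biUnion (fun i => (RBt z P h i).image (fun s => (i, s))) ∪
        G.biUnion (fun i => (LBt z P h i).image (fun s => (i - ((s + 1 : ℕ) : ZMod n), s))))) := by
    rintro ⟨i, s⟩ hx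
    rw [mem_filter, mem_product, mem_Icc] at hx
    obtain ⟨⟨_, hs1, hs2⟩, hne⟩ := hx
    simp only at hs1 hs2 hne
    rw [mem_union, mem_union, mem_union]
    by_cases hc1 : i ∈ G
    · by_cases hc2 : (i + ((s + 1 : ℕ) : ZMod n)) ∈ G
      · by_cases hN1 : Nx P (cz z i s) (cz z i (s + 1))
        · by_cases hN2 : Nx P (cz z (i + (s + 1 : ℕ)) (n - s)) (cz z (i + (s + 1 : ℕ)) (n - (s + 1)))
          · exact absurd (key_step (by omega) hN1 hN2).symm hne
          · right; right; right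
            refine Finset.mem_biUnion.2 ⟨i + ((s + 1 : ℕ) : ZMod n), hc2, ?_⟩
            refine Finset.mem_image.2 ⟨s, ?_, ?_⟩
            · unfold LBt
              rw [mem_filter, mem_Icc]
              exact ⟨⟨hs1, hs2⟩, hN2⟩
            · rw [add_sub_cancel_right]
        · right; right; left
          refine Finset.mem_biUnion.2 ⟨i, hc1, ?_⟩
          refine Finset.mem_image.2 ⟨s, ?_, rfl⟩
          unfold RBt
          rw [mem_filter, mem_Icc]
          exact ⟨⟨hs1, hs2⟩, hN1⟩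
      · right; left
        refine Finset.mem_image.2 ⟨(i + ((s + 1 : ℕ) : ZMod n), s), ?_, ?_⟩
        · rw [mem_product, mem_Icc, hNG, mem_filter]
          exact ⟨⟨Finset.mem_univ _, hc2⟩, hs1, hs2⟩
        · simp only [add_sub_cancel_right]
    · left
      rw [mem_product, mem_Icc, hNG, mem_filter]
      exact ⟨⟨Finset.mem_univ _, hc1⟩, hs1, hs2⟩
  have c0 := Finset.card_le_card hsub
  have c1 := Finset.card_union_le (NG ×ˢ Finset.Icc 1 h)
    ((NG ×ˢ Finset.Icc 1 h).image (fun x => (x.1 - ((x.2 + 1 : ℕ) : ZMod n), x.2)) ∪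
        (G.biUnion (fun i => (RBt z P h i).image (fun s => (i, s))) ∪
        G.biUnion (fun i => (LBt z P h i).image (fun s => (i - ((s + 1 : ℕ) : ZMod n), s)))))
  have c2 := Finset.card_union_le
    ((NG ×ˢ Finset.Icc 1 h).image (fun x => (x.1 - ((x.2 + 1 : ℕ) : ZMod n), x.2)))
        (G.biUnion (fun i => (RBt z P h i).image (fun s => (i, s))) ∪
        G.biUnion (fun i => (LBt z P h i).image (fun s => (i - ((s + 1 : ℕ) : ZMod n), s))))
  have c3 := Finset.card_union_le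
        (G.biUnion (fun i => (RBt z P h i).image (fun s => (i, s))))
        (G.biUnion (fun i => (LBt z P h i).image (fun s => (i - ((s + 1 : ℕ) : ZMod n), s))))
  have c4 : (NG ×ˢ Finset.Icc 1 h).card = NG.card * h := by
    rw [Finset.card_product, Nat.card_Icc, Nat.add_sub_cancel]
  have c5 : ((NG ×ˢ Finset.Icc 1 h).image (fun x => (x.1 - ((x.2 + 1 : ℕ) : ZMod n), x.2))).card ≤ NG.card * h :=
    Finset.card_image_le.trans c4.le
  have c6 := card_biUnion_image_le (fun i => RBt z P h i) G (fun i s => (i, s))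
  have c7 := card_biUnion_image_le (fun i => LBt z P h i) G (fun i s => (i - ((s + 1 : ℕ) : ZMod n), s))
  have hκn : 0 ≤ 3 * κ * n := by positivity
  have c8 := sum_G_le (G := G) (fun i => RBt z P h i) hκn fun i hi => card_RBt hL hh hi
  have c9 := sum_G_le (G := G) (fun i => LBt z P h i) hκn fun i hi => card_LBt hL hh hi
  have ctot : (((Finset.univ : Finset (ZMod n)) ×ˢ Finset.Icc 1 h).filter
      (fun x : ZMod n × ℕ => cz z x.1 x.2 ≠ cz z (x.1 + 1) x.2)).card ≤
      2 * (NG.card * h) + (∑ i ∈ G, (RBt z P h i).card + ∑ i ∈ G, (LBt z P h i).card) := by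
    omega
  have ctr : ((((Finset.univ : Finset (ZMod n)) ×ˢ Finset.Icc 1 h).filter
      (fun x : ZMod n × ℕ => cz z x.1 x.2 ≠ cz z (x.1 + 1) x.2)).card : ℝ) ≤
      2 * (NG.card * h) + (((∑ i ∈ G, (RBt z P h i).card : ℕ) : ℝ) +
        ((∑ i ∈ G, (LBt z P h i).card : ℕ) : ℝ)) := by
    exact_mod_cast ctot
  have hhr : (h : ℝ) ≤ n := by exact_mod_cast (by omega : h ≤ n)
  have c11 : (NG.card : ℝ) * h ≤ κ * n * n :=
    mul_le_mul hcG hhr (Nat.cast_nonneg _) (by positivity)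
  nlinarith [c11, c8, c9, ctr]

/-- Proof: as `card_VB` in `MP_0d8f69_coZ/Shift3.lean`: exceptions `i ∉ G` (`≤ κ n h`), `s = 1` (`n`), the step `s`
or the step `s - 1` of `i` is bad (`≤ 3 κ n ^ 2` each, by `steps`). -/
theorem perfect_count (hL : Loc n z P G κ d b a) (hκ0 : 0 < κ) (hPn : 4 * P.card ≤ n) {h : ℕ}
    (hh : (h : ℝ) + 1 + κ * n ≤ P.card) :
    ((((Finset.univ : Finset (ZMod n)) ×ˢ Finset.Icc 1 h).filter
      (fun x : ZMod n × ℕ => ¬ (x.1 ∈ G ∧ 2 ≤ x.2 ∧ Nx P (cz z x.1 (x.2 - 1)) (cz z x.1 x.2) ∧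
        Nx P (cz z x.1 x.2) (cz z x.1 (x.2 + 1))))).card : ℝ) ≤ 7 * κ * n ^ 2 + n := by
  classical
  have hhn := h_lt hκ0 hPn hh
  set NG := (Finset.univ : Finset (ZMod n)).filter (fun i => i ∉ G) with hNG
  have hcG : (NG.card : ℝ) ≤ κ * n := hL.cG
  have hsub : ((Finset.univ : Finset (ZMod n)) ×ˢ Finset.Icc 1 h).filter
      (fun x : ZMod n × ℕ => ¬ (x.1 ∈ G ∧ 2 ≤ x.2 ∧ Nx P (cz z x.1 (x.2 - 1)) (cz z x.1 x.2) ∧
        Nx P (cz z x.1 x.2) (cz z x.1 (x.2 + 1)))) ⊆
      (NG ×ˢ Finset.Icc 1 h) ∪ (((Finset.univ : Finset (ZMod n)) ×ˢ ({1} : Finset ℕ)) ∪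
        (G.biUnion (fun i => (RBt z P h i).image (fun s => (i, s))) ∪
        G.biUnion (fun i => (RBt z P h i).image (fun s => (i, s + 1))))) := by
    rintro ⟨i, s⟩ hx
    rw [mem_filter, mem_product, mem_Icc] at hx
    obtain ⟨⟨_, hs1, hs2⟩, hne⟩ := hx
    simp only at hs1 hs2 hne
    rw [mem_union, mem_union, mem_union]
    by_cases hc1 : i ∈ G
    · by_cases hs2' : 2 ≤ s
      · by_cases hN1 : Nx P (cz z i s) (cz z i (s + 1))
        · by_cases hN2 : Nx P (cz z i (s - 1)) (cz z i s)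
          · exact absurd ⟨hc1, hs2', hN2, hN1⟩ hne
          · right; right; right
            refine Finset.mem_biUnion.2 ⟨i, hc1, ?_⟩
            refine Finset.mem_image.2 ⟨s - 1, ?_, ?_⟩
            · unfold RBt
              rw [mem_filter, mem_Icc]
              have e : s - 1 + 1 = s := by omega
              rw [e]
              exact ⟨⟨by omega, by omega⟩, hN2⟩
            · have e : s - 1 + 1 = s := by omega
              rw [e]
        · right; right; left
          refine Finset.mem_biUnion.2 ⟨i, hc1, ?_⟩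
          refine Finset.mem_image.2 ⟨s, ?_, rfl⟩
          unfold RBt
          rw [mem_filter, mem_Icc]
          exact ⟨⟨hs1, hs2⟩, hN1⟩
      · right; left
        rw [mem_product, mem_singleton]
        exact ⟨Finset.mem_univ _, by omega⟩
    · left
      rw [mem_product, mem_Icc, hNG, mem_filter]
      exact ⟨⟨Finset.mem_univ _, hc1⟩, hs1, hs2⟩
  have c0 := Finset.card_le_card hsub
  have c1 := Finset.card_union_le (NG ×ˢ Finset.Icc 1 h) (((Finset.univ : Finset (ZMod n)) ×ˢ ({1} : Finset ℕ)) ∪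
        (G.biUnion (fun i => (RBt z P h i).image (fun s => (i, s))) ∪
        G.biUnion (fun i => (RBt z P h i).image (fun s => (i, s + 1)))))
  have c2 := Finset.card_union_le ((Finset.univ : Finset (ZMod n)) ×ˢ ({1} : Finset ℕ))
        (G.biUnion (fun i => (RBt z P h i).image (fun s => (i, s))) ∪
        G.biUnion (fun i => (RBt z P h i).image (fun s => (i, s + 1))))
  have c3 := Finset.card_union_le
        (G.biUnion (fun i => (RBt z P h i).image (fun s => (i, s))))
        (G.biUnion (fun i => (RBt z P h i).image (fun s => (i, s + 1))))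
  have c4 : (NG ×ˢ Finset.Icc 1 h).card = NG.card * h := by
    rw [Finset.card_product, Nat.card_Icc, Nat.add_sub_cancel]
  have c5 : ((Finset.univ : Finset (ZMod n)) ×ˢ ({1} : Finset ℕ)).card = n := by
    rw [Finset.card_product, Finset.card_singleton, mul_one, Finset.card_univ, ZMod.card]
  have c6 := card_biUnion_image_le (fun i => RBt z P h i) G (fun i s => (i, s))
  have c7 := card_biUnion_image_le (fun i => RBt z P h i) G (fun i s => (i, s + 1))
  have hκn : 0 ≤ 3 * κ * n := by positivity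
  have c8 := sum_G_le (G := G) (fun i => RBt z P h i) hκn fun i hi => card_RBt hL hh hi
  have ctot : (((Finset.univ : Finset (ZMod n)) ×ˢ Finset.Icc 1 h).filter
      (fun x : ZMod n × ℕ => ¬ (x.1 ∈ G ∧ 2 ≤ x.2 ∧ Nx P (cz z x.1 (x.2 - 1)) (cz z x.1 x.2) ∧
        Nx P (cz z x.1 x.2) (cz z x.1 (x.2 + 1))))).card ≤
      NG.card * h + n + 2 * ∑ i ∈ G, (RBt z P h i).card := by
    omega
  have ctr : ((((Finset.univ : Finset (ZMod n)) ×ˢ Finset.Icc 1 h).filter
      (fun x : ZMod n × ℕ => ¬ (x.1 ∈ G ∧ 2 ≤ x.2 ∧ Nx P (cz z x.1 (x.2 - 1)) (cz z x.1 x.2) ∧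
        Nx P (cz z x.1 x.2) (cz z x.1 (x.2 + 1))))).card : ℝ) ≤
      NG.card * h + n + 2 * ((∑ i ∈ G, (RBt z P h i).card : ℕ) : ℝ) := by
    exact_mod_cast ctot
  have hhr : (h : ℝ) ≤ n := by exact_mod_cast (by omega : h ≤ n)
  have c11 : (NG.card : ℝ) * h ≤ κ * n * n :=
    mul_le_mul hcG hhr (Nat.cast_nonneg _) (by positivity)
  nlinarith [c11, c8, ctr]

end Pool.Agent.Lib.MP_0d8f69_coT
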