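import Pool.Agent.Lib.MP_0d8f69_coT.InjE
import Pool.Agent.Lib.MP_0d8f69_coT.HomF

/-!
MP_0d8f69_co, theorem T: on each side of a typical point every small popular distance is seen at most once.
-/

set_option autoImplicit false

namespace Pool.Agent.Lib.MP_0d8f69_coT

open Finset Pool.Agent.Lib.MP_0d8f69_co Pool.Agent.Lib.MP_0d8f69_coI Pool.Agent.Lib.MP_0d8f69_coZ

variable {S T : Finset ℂ} {P : Finset ℝ} {κ β ω : ℝ} {O : ℂ} {ρ r : ℝ}

private theorem sideA_abs {σ c : ℝ} (hσ : σ = 1 ∨ σ = -1) (h : 0 ≤ σ * c) : |c| = σ * c := by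
  rcases hσ with rfl | rfl
  · rw [one_mul] at h ⊢
    exact abs_of_nonneg h
  · rw [neg_one_mul] at h ⊢
    rw [abs_of_nonpos (by linarith)]

private theorem sideA_dp_neg (v a b : ℂ) : dp v (a - b) = -dp v (b - a) := by
  unfold dp
  simp only [Complex.sub_re, Complex.sub_im]
  ring

private theorem sideA_cr_neg (v a b : ℂ) : cr v (a - b) = -cr v (b - a) := by
  unfold cr
  simp only [Complex.sub_re, Complex.sub_im]
  ring

private theorem sideA_ne {v x y : ℂ} {σ : ℝ} (h : 0 < σ * cr v (y - x)) : x ≠ y := by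
  rintro rfl
  unfold cr at h
  simp at h

/-- Proof. `n = S.card`, `Y` the set on the left side, `Y'` the `y ∈ Y` with `400 r ≤ dist x y`. `Y \ Y'` has at most
`β n` elements (`Geo.few`). If `Y'` is empty we are done. Otherwise let `w ∈ Y'` with `dist x w` maximal and `Y''` the
`y ∈ Y'` with `400 r ≤ dist w y`; `Y' \ Y''` has at most `β n` elements. For `y ∈ Y'` we have `CC σ (x - O) (y - x)` by
`Geo.cone`. For `y ∈ Y''`: `CC σ (x - O) (w - y)`: by `Geo.cone` `|dp| ≤ 0.9 |cr|`, and if `σ * cr (x - O) (w - y) ≤ 0`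
then `CC σ (x - O) (y - w)`, and with `CC σ (x - O) (w - x)` this gives `dist x w < dist x y` (`CC.dp_pos`,
`dist_lt_of_dp`), a contradiction. By `Geo.inj4` the map `y ↦ dist x y` is injective on `Y''`. At most `κ n` of these
distances are unpopular, the others are in `P` and `≤ R`. -/
theorem Geo.side_le (g : Geo S T P κ β ω O ρ r) {σ : ℝ} (hσ : σ = 1 ∨ σ = -1) {x : ℂ} (hx : x ∈ T) {R : ℝ}
    (hR : R ≤ ρ / 100) :
    ((T.filter (fun y => 0 < σ * cr (x - O) (y - x) ∧ dist x y ≤ R)).card : ℝ) ≤ NP P R + 3 * β * S.card := by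
  classical
  have hNP : 0 ≤ NP P R := Nat.cast_nonneg _
  have hbig := g.big
  have hr0 := g.r0
  have hrho := g.rho
  have hv : x - O ≠ 0 := by
    intro h0
    have h1 := (g.rad x hx).1
    rw [h0, norm_zero] at h1
    linarith
  -- the cone condition for points at distance at least `400 r`
  have hcone : ∀ y ∈ T, dist x y ≤ R → 400 * r ≤ dist x y → 0 < σ * cr (x - O) (y - x) →
      CC σ (x - O) (y - x) := by
    intro y hy hyR hfar hpos
    have h1 := g.cone x hx x hx y hy (by rw [dist_self]; positivity) (by linarith) hfar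
    unfold CC
    rwa [sideA_abs hσ hpos.le] at h1
  set A := T.filter (fun y => 0 < σ * cr (x - O) (y - x) ∧ dist x y ≤ R) with hA
  set A' := A.filter (fun y => ¬ dist x y < 400 * r) with hA'
  have hAcard : (A.card : ℝ) = ((A.filter (fun y => dist x y < 400 * r)).card : ℝ) + A'.card := by
    have h1 := Finset.card_filter_add_card_filter_not (s := A) (fun y => dist x y < 400 * r)
    rw [hA']
    exact_mod_cast h1.symm
  have hA1 : ((A.filter (fun y => dist x y < 400 * r)).card : ℝ) ≤ β * S.card := by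
    refine le_trans ?_ (g.few x hx)
    have h1 : A.filter (fun y => dist x y < 400 * r) ⊆ T.filter (fun y => dist x y < 400 * r) :=
      Finset.filter_subset_filter _ (Finset.filter_subset _ _)
    exact_mod_cast Finset.card_le_card h1
  rcases Finset.eq_empty_or_nonempty A' with he | hne
  · rw [he, Finset.card_empty, Nat.cast_zero, add_zero] at hAcard
    rw [hAcard]
    nlinarith
  obtain ⟨w, hw, hmax⟩ := Finset.exists_max_image A' (fun y => dist x y) hne
  have hmemA' : ∀ y ∈ A', y ∈ T ∧ 0 < σ * cr (x - O) (y - x) ∧ dist x y ≤ R ∧ 400 * r ≤ dist x y := by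
    intro y hy
    rw [hA', Finset.mem_filter, hA, Finset.mem_filter] at hy
    exact ⟨hy.1.1, hy.1.2.1, hy.1.2.2, not_lt.1 hy.2⟩
  obtain ⟨hwT, hwpos, hwR, hwfar⟩ := hmemA' w hw
  have hcw := hcone w hwT hwR hwfar hwpos
  set B := A'.filter (fun y => ¬ dist w y < 400 * r) with hB
  have hBcard : (A'.card : ℝ) = ((A'.filter (fun y => dist w y < 400 * r)).card : ℝ) + B.card := by
    have h1 := Finset.card_filter_add_card_filter_not (s := A') (fun y => dist w y < 400 * r)
    rw [hB]
    exact_mod_cast h1.symm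
  have hB1 : ((A'.filter (fun y => dist w y < 400 * r)).card : ℝ) ≤ β * S.card := by
    refine le_trans ?_ (g.few w hwT)
    have h1 : A'.filter (fun y => dist w y < 400 * r) ⊆ T.filter (fun y => dist w y < 400 * r) := by
      intro y hy
      rw [Finset.mem_filter] at hy ⊢
      exact ⟨(hmemA' y hy.1).1, hy.2⟩
    exact_mod_cast Finset.card_le_card h1
  have hmemB : ∀ y ∈ B, y ∈ A' ∧ 400 * r ≤ dist w y := by
    intro y hy
    rw [hB, Finset.mem_filter] at hy
    exact ⟨hy.1, not_lt.1 hy.2⟩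
  -- the cone condition for `w - y`
  have hcwy : ∀ y ∈ B, y ≠ w ∧ CC σ (x - O) (w - y) := by
    intro y hy
    obtain ⟨hyA, hyfar⟩ := hmemB y hy
    obtain ⟨hyT, hypos, hyR, hyr⟩ := hmemA' y hyA
    have hyw : y ≠ w := by
      rintro rfl
      rw [dist_self] at hyfar
      linarith
    refine ⟨hyw, ?_⟩
    have h1 := g.cone x hx y hyT w hwT (by linarith) (by linarith) (by rw [dist_comm]; exact hyfar)
    by_cases hpos : 0 < σ * cr (x - O) (w - y)
    · unfold CC
      rwa [sideA_abs hσ hpos.le] at h1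
    · exfalso
      have hneg : 0 ≤ σ * cr (x - O) (y - w) := by
        rw [sideA_cr_neg, mul_neg]
        linarith
      have hc2 : CC σ (x - O) (y - w) := by
        unfold CC
        rw [sideA_dp_neg, abs_neg]
        have h2 : |cr (x - O) (w - y)| = |cr (x - O) (y - w)| := by
          rw [sideA_cr_neg, abs_neg]
        rwa [h2, sideA_abs hσ hneg] at h1
      have hwx : w - x ≠ 0 := sub_ne_zero.2 (sideA_ne hwpos).symm
      have h3 := CC.dp_pos hσ hv hwx (sub_ne_zero.2 hyw) hcw hc2
      have h4 := dist_lt_of_dp h3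
      have h5 := hmax y hyA
      linarith
  have hinj : Set.InjOn (fun y => dist x y) (B : Set ℂ) := by
    intro y hy z hz hyz
    by_contra hne'
    rw [Finset.mem_coe] at hy hz
    obtain ⟨hyw, cy⟩ := hcwy y hy
    obtain ⟨hzw, cz⟩ := hcwy z hz
    obtain ⟨hyT, hypos, hyR, hyr⟩ := hmemA' y (hmemB y hy).1
    obtain ⟨hzT, hzpos, hzR, hzr⟩ := hmemA' z (hmemB z hz).1
    exact g.inj4 hσ hx hyT hzT hwT (by linarith) (by linarith) (by linarith) (sideA_ne hypos)
      (sideA_ne hzpos) hne' hyw hzw (hcone y hyT hyR hyr hypos) (hcone z hzT hzR hzr hzpos) cy cz hyz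
  have hB2card : (B.card : ℝ) = ((B.filter (fun y => dist x y ∈ P)).card : ℝ) +
      ((B.filter (fun y => ¬ dist x y ∈ P)).card : ℝ) := by
    have h1 := Finset.card_filter_add_card_filter_not (s := B) (fun y => dist x y ∈ P)
    exact_mod_cast h1.symm
  have hP : ((B.filter (fun y => dist x y ∈ P)).card : ℝ) ≤ NP P R := by
    unfold NP
    have h1 : (B.filter (fun y => dist x y ∈ P)).card ≤ (P.filter (fun D => D ≤ R)).card := by
      refine Finset.card_le_card_of_injOn (fun y => dist x y) (fun y hy => ?_) (fun y hy z hz h => ?_)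
      · have hy' := Finset.mem_filter.1 (Finset.mem_coe.1 hy)
        rw [Finset.mem_coe, Finset.mem_filter]
        exact ⟨hy'.2, (hmemA' y (hmemB y hy'.1).1).2.2.1⟩
      · exact hinj (Finset.mem_filter.1 (Finset.mem_coe.1 hy)).1
          (Finset.mem_filter.1 (Finset.mem_coe.1 hz)).1 h
    exact_mod_cast h1
  have hU : ((B.filter (fun y => ¬ dist x y ∈ P)).card : ℝ) ≤ κ * S.card := by
    refine le_trans ?_ (g.hom.unp x hx)
    have h1 : B.filter (fun y => ¬ dist x y ∈ P) ⊆ S.filter (fun y => y ≠ x ∧ dist x y ∉ P) := by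
      intro y hy
      rw [Finset.mem_filter] at hy ⊢
      obtain ⟨hyT, hypos, _, _⟩ := hmemA' y (hmemB y hy.1).1
      exact ⟨g.hom.sub hyT, (sideA_ne hypos).symm, hy.2⟩
    exact_mod_cast Finset.card_le_card h1
  have hk : κ * S.card ≤ β * S.card := mul_le_mul_of_nonneg_right g.kb (Nat.cast_nonneg _)
  rw [hAcard, hBcard, hB2card]
  linarith

end Pool.Agent.Lib.MP_0d8f69_coT
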