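import Pool.Agent.Lib.MP_0d8f69_coT.SideA

/-!
MP_0d8f69_co, theorem T: there are no gaps.
-/

set_option autoImplicit false

namespace Pool.Agent.Lib.MP_0d8f69_coT

open Finset Pool.Agent.Lib.MP_0d8f69_co Pool.Agent.Lib.MP_0d8f69_coI Pool.Agent.Lib.MP_0d8f69_coZ

variable {S T : Finset ℂ} {P : Finset ℝ} {κ β ω : ℝ} {O : ℂ} {ρ r : ℝ}

private theorem SideE_NP_mono (P : Finset ℝ) {R R' : ℝ} (h : R ≤ R') : NP P R ≤ NP P R' := by
  unfold NP
  have h1 : (P.filter (fun D => D ≤ R)) ⊆ (P.filter (fun D => D ≤ R')) := by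
    intro D hD
    rw [Finset.mem_filter] at hD ⊢
    exact ⟨hD.1, hD.2.trans h⟩
  exact_mod_cast Finset.card_le_card h1

private theorem SideE_zero {v w : ℂ} (hv : v ≠ 0) (h1 : dp v w = 0) (h2 : cr v w = 0) : w = 0 := by
  unfold dp at h1
  unfold cr at h2
  have hN : 0 < v.re ^ 2 + v.im ^ 2 := by
    by_contra h
    have e1 : v.re = 0 := by nlinarith [sq_nonneg v.re, sq_nonneg v.im]
    have e2 : v.im = 0 := by nlinarith [sq_nonneg v.re, sq_nonneg v.im]
    exact hv (Complex.ext e1 e2)
  have h3 : (v.re ^ 2 + v.im ^ 2) * (w.re ^ 2 + w.im ^ 2) = 0 := by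
    have h4 : (v.re ^ 2 + v.im ^ 2) * (w.re ^ 2 + w.im ^ 2) =
        (v.re * w.re + v.im * w.im) ^ 2 + (v.re * w.im - v.im * w.re) ^ 2 := by ring
    rw [h4, h1, h2]
    ring
  have h5 : w.re ^ 2 + w.im ^ 2 = 0 := by
    rcases mul_eq_zero.1 h3 with h | h
    · exact absurd h hN.ne'
    · exact h
  have e1 : w.re = 0 := by nlinarith [sq_nonneg w.re, sq_nonneg w.im]
  have e2 : w.im = 0 := by nlinarith [sq_nonneg w.re, sq_nonneg w.im]
  exact Complex.ext e1 e2

private theorem Geo.SideE_ne (g : Geo S T P κ β ω O ρ r) {x : ℂ} (hx : x ∈ T) : x - O ≠ 0 := by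
  intro h
  have h1 := (g.rad x hx).1
  rw [h, norm_zero] at h1
  have h2 := g.rho
  linarith

/-- Proof. By `cntT_ge` at least `2 NP P R - 3 κ n` points `y ≠ x` of `T` have `dist x y ≤ R`; those with
`σ * cr (x - O) (y - x) < 0` are at most `NP P R + 3 β n` (`side_le` for `- σ`), those with `cr (x - O) (y - x) = 0`
have `dist x y < 400 r` (by `Geo.cone`; otherwise `y - x = 0`), so they are at most `β n`. -/
theorem Geo.side_ge (g : Geo S T P κ β ω O ρ r) {σ : ℝ} (hσ : σ = 1 ∨ σ = -1) {x : ℂ} (hx : x ∈ T) {R : ℝ}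
    (hR : R ≤ ρ / 100) :
    NP P R - 7 * β * S.card ≤ ((T.filter (fun y => 0 < σ * cr (x - O) (y - x) ∧ dist x y ≤ R)).card : ℝ) := by
  classical
  have hσ' : -σ = 1 ∨ -σ = -1 := by
    rcases hσ with h | h
    · exact Or.inr (by rw [h])
    · exact Or.inl (by rw [h, neg_neg])
  have h1 := g.hom.cntT_ge hx R
  have h2 := g.side_le hσ' hx hR
  have h3 := g.few x hx
  have hsub : (T.erase x).filter (fun y => dist x y ≤ R) ⊆
      (T.filter (fun y => 0 < σ * cr (x - O) (y - x) ∧ dist x y ≤ R) ∪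
        T.filter (fun y => 0 < -σ * cr (x - O) (y - x) ∧ dist x y ≤ R)) ∪
        T.filter (fun y => dist x y < 400 * r) := by
    intro y hy
    rw [Finset.mem_filter, Finset.mem_erase] at hy
    obtain ⟨⟨hyx, hyT⟩, hyR⟩ := hy
    rw [Finset.mem_union, Finset.mem_union, Finset.mem_filter, Finset.mem_filter, Finset.mem_filter]
    rcases lt_trichotomy 0 (σ * cr (x - O) (y - x)) with h | h | h
    · exact Or.inl (Or.inl ⟨hyT, h, hyR⟩)
    · refine Or.inr ⟨hyT, ?_⟩
      by_contra hcon
      have h4 : 400 * r ≤ dist x y := le_of_not_gt hcon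
      have hρ := g.rho
      have h5 : cr (x - O) (y - x) = 0 := by
        rcases mul_eq_zero.1 h.symm with h' | h'
        · rcases hσ with h'' | h''
          · rw [h''] at h'
            norm_num at h'
          · rw [h''] at h'
            norm_num at h'
        · exact h'
      have h6 := g.cone x hx x hx y hyT (by rw [dist_self]; positivity) (by linarith) h4
      rw [h5, abs_zero, mul_zero] at h6
      have h7 : dp (x - O) (y - x) = 0 := abs_eq_zero.1 (le_antisymm h6 (abs_nonneg _))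
      exact hyx (sub_eq_zero.1 (SideE_zero (Geo.SideE_ne g hx) h7 h5))
    · refine Or.inl (Or.inr ⟨hyT, ?_, hyR⟩)
      rw [neg_mul]
      linarith
  have h8 := (Finset.card_le_card hsub).trans ((Finset.card_union_le _ _).trans
    (Nat.add_le_add_right (Finset.card_union_le _ _) _))
  have h9 : (((T.erase x).filter (fun y => dist x y ≤ R)).card : ℝ) ≤
      ((T.filter (fun y => 0 < σ * cr (x - O) (y - x) ∧ dist x y ≤ R)).card : ℝ) +
      ((T.filter (fun y => 0 < -σ * cr (x - O) (y - x) ∧ dist x y ≤ R)).card : ℝ) +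
      ((T.filter (fun y => dist x y < 400 * r)).card : ℝ) := by exact_mod_cast h8
  have h10 : κ * S.card ≤ β * S.card := mul_le_mul_of_nonneg_right g.kb (Nat.cast_nonneg _)
  nlinarith

/-- Proof. `N R = NP P R`, `n = S.card`. Case A: `N (ρ / 200) - N (ρ / 2000) > 10 β n`: `side_ge` with `R = ρ / 200` and
`side_le` with `R = ρ / 2000` give a `y` as wanted. Case B: `N (ρ / 200) - N (ρ / 2000) ≤ 10 β n`. Let
`A = {y ∈ T : dist x y ≤ ρ / 400}` (contains `x`) and `z ∈ A` with `σ * cr (x - O) (z - x)` maximal. By `side_ge` at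
`z` with `R = ρ / 400` there are at least `N (ρ / 400) - 7 β n ≥ N (ρ / 3000) - 7 β n ≥ 93 β n` points `y ∈ T` with
`0 < σ * cr (z - O) (y - z)`, `dist z y ≤ ρ / 400`. At most `β n` of them have `dist z y < 400 r`. For the others
`Geo.cone` (with `p = x`) and `Geo.transfer` give `0 < σ * cr (x - O) (y - z)`, so `y ∉ A` and
`ρ / 400 < dist x y ≤ ρ / 200`; by `cntT_le`, `cntT_ge` there are at most
`2 N (ρ / 200) + 2 κ n - 2 N (ρ / 400) + 3 κ n ≤ 25 β n` such `y`. Contradiction. -/
theorem Geo.next (g : Geo S T P κ β ω O ρ r) (hβ : 0 < β) {σ : ℝ} (hσ : σ = 1 ∨ σ = -1) {x : ℂ} (hx : x ∈ T) :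
    ∃ y ∈ T, ρ / 2000 < dist x y ∧ dist x y ≤ ρ / 200 ∧ 0 < σ * cr (x - O) (y - x) := by
  classical
  have hρ := g.rho
  have hn : (0 : ℝ) ≤ S.card := Nat.cast_nonneg _
  have hκβ : κ * S.card ≤ β * S.card := mul_le_mul_of_nonneg_right g.kb hn
  by_cases hA : 10 * β * S.card < NP P (ρ / 200) - NP P (ρ / 2000)
  · have h1 := g.side_ge hσ hx (R := ρ / 200) (by linarith)
    have h2 := g.side_le hσ hx (R := ρ / 2000) (by linarith)
    have h3 : ((T.filter (fun y => 0 < σ * cr (x - O) (y - x) ∧ dist x y ≤ ρ / 2000)).card : ℝ) <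
        ((T.filter (fun y => 0 < σ * cr (x - O) (y - x) ∧ dist x y ≤ ρ / 200)).card : ℝ) := by nlinarith
    have h4 : (T.filter (fun y => 0 < σ * cr (x - O) (y - x) ∧ dist x y ≤ ρ / 2000)).card <
        (T.filter (fun y => 0 < σ * cr (x - O) (y - x) ∧ dist x y ≤ ρ / 200)).card := by exact_mod_cast h3
    obtain ⟨y, hy, hy'⟩ := Finset.exists_mem_notMem_of_card_lt_card h4
    rw [Finset.mem_filter] at hy hy'
    refine ⟨y, hy.1, ?_, hy.2.2, hy.2.1⟩
    by_contra hcon
    exact hy' ⟨hy.1, hy.2.1, le_of_not_gt hcon⟩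
  · exfalso
    have hA' : NP P (ρ / 200) - NP P (ρ / 2000) ≤ 10 * β * S.card := le_of_not_gt hA
    obtain ⟨z, hz, hzmax⟩ := Finset.exists_max_image (T.filter (fun y => dist x y ≤ ρ / 400))
      (fun y => σ * cr (x - O) (y - x)) ⟨x, by
        rw [Finset.mem_filter, dist_self]
        exact ⟨hx, by positivity⟩⟩
    rw [Finset.mem_filter] at hz
    obtain ⟨hzT, hxz⟩ := hz
    have h1 := g.side_ge hσ hzT (R := ρ / 400) (by linarith)
    have h2 := g.few z hzT
    have h3 := g.hom.cntT_le hx (ρ / 200)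
    have h4 := g.hom.cntT_ge hx (ρ / 400)
    have h5 := SideE_NP_mono P (R := ρ / 3000) (R' := ρ / 400) (by linarith)
    have h6 := SideE_NP_mono P (R := ρ / 2000) (R' := ρ / 400) (by linarith)
    have h7 := g.many
    have h8 : 100 * β * S.card ≤ ω * S.card := mul_le_mul_of_nonneg_right g.bo hn
    have hbig := g.big
    have hsub : T.filter (fun y => 0 < σ * cr (z - O) (y - z) ∧ dist z y ≤ ρ / 400) ⊆
        T.filter (fun y => dist z y < 400 * r) ∪
        ((T.erase x).filter (fun y => dist x y ≤ ρ / 200) \ (T.erase x).filter (fun y => dist x y ≤ ρ / 400)) := by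
      intro y hy
      rw [Finset.mem_filter] at hy
      obtain ⟨hyT, hy1, hy2⟩ := hy
      rw [Finset.mem_union]
      by_cases hr : dist z y < 400 * r
      · exact Or.inl (Finset.mem_filter.2 ⟨hyT, hr⟩)
      · right
        have hxy : dist x y ≤ ρ / 200 := by
          have := dist_triangle x z y
          linarith
        have hc := g.cone x hx z hzT y hyT (by linarith) (by linarith) (le_of_not_gt hr)
        have ht := g.transfer hx (q := z) (w := y - z) (by linarith) hc hσ hy1
        have hnot : ¬ dist x y ≤ ρ / 400 := by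
          intro hcon
          have hm := hzmax y (Finset.mem_filter.2 ⟨hyT, hcon⟩)
          have he : σ * cr (x - O) (y - x) = σ * cr (x - O) (y - z) + σ * cr (x - O) (z - x) := by
            unfold cr
            simp only [Complex.sub_re, Complex.sub_im]
            ring
          linarith
        have hyx : y ≠ x := by
          rintro rfl
          exact hnot (by rw [dist_self]; positivity)
        rw [Finset.mem_sdiff, Finset.mem_filter, Finset.mem_filter]
        exact ⟨⟨Finset.mem_erase.2 ⟨hyx, hyT⟩, hxy⟩, fun h => hnot h.2⟩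
    have hsub2 : (T.erase x).filter (fun y => dist x y ≤ ρ / 400) ⊆
        (T.erase x).filter (fun y => dist x y ≤ ρ / 200) := by
      intro y hy
      rw [Finset.mem_filter] at hy ⊢
      exact ⟨hy.1, hy.2.trans (by linarith)⟩
    have h9 := (Finset.card_le_card hsub).trans (Finset.card_union_le _ _)
    have h10 := Finset.card_sdiff_add_card_eq_card hsub2
    have h9' : ((T.filter (fun y => 0 < σ * cr (z - O) (y - z) ∧ dist z y ≤ ρ / 400)).card : ℝ) ≤
        ((T.filter (fun y => dist z y < 400 * r)).card : ℝ) +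
        (((T.erase x).filter (fun y => dist x y ≤ ρ / 200) \
          (T.erase x).filter (fun y => dist x y ≤ ρ / 400)).card : ℝ) := by exact_mod_cast h9
    have h10' : (((T.erase x).filter (fun y => dist x y ≤ ρ / 200) \
          (T.erase x).filter (fun y => dist x y ≤ ρ / 400)).card : ℝ) +
        (((T.erase x).filter (fun y => dist x y ≤ ρ / 400)).card : ℝ) =
        (((T.erase x).filter (fun y => dist x y ≤ ρ / 200)).card : ℝ) := by exact_mod_cast h10
    nlinarith

end Pool.Agent.Lib.MP_0d8f69_coT
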