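import Pool.Agent.Lib.MP_0d8f69_coZ.Fin

/-!
MP_0d8f69_co, theorem T: perfect steps of one increasing sequence.
-/

set_option autoImplicit false

namespace Pool.Agent.Lib.MP_0d8f69_coT

open Finset Pool.Agent.Lib.MP_0d8f69_co Pool.Agent.Lib.MP_0d8f69_coI Pool.Agent.Lib.MP_0d8f69_coZ

private theorem steps_mono {c : ℕ → ℝ} {b : ℕ} (hinc : ∀ s t, 1 ≤ s → s < t → t ≤ b → c s < c t)
    {s t : ℕ} (hs : 1 ≤ s) (hst : s ≤ t) (ht : t ≤ b) : c s ≤ c t := by
  rcases Nat.lt_or_ge s t with h | h
  · exact (hinc s t hs h ht).le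
  · have : s = t := le_antisymm hst h
    rw [this]

private theorem steps_low {c : ℕ → ℝ} {b : ℕ} {d : ℝ}
    (hinc : ∀ s t, 1 ≤ s → s < t → t ≤ b → c s < c t) {s : ℕ} (hs1 : 1 ≤ s) (hsb : s ≤ b)
    (hs : ¬ c s < d) : ((Icc 1 b).filter (fun s => c s < d)).card < s := by
  have hsub : (Icc 1 b).filter (fun s => c s < d) ⊆ Icc 1 (s - 1) := by
    intro t ht
    rw [mem_filter, mem_Icc] at ht
    rw [mem_Icc]
    refine ⟨ht.1.1, ?_⟩
    by_contra hc
    have h1 : s ≤ t := by omega
    have h2 := steps_mono hinc hs1 h1 ht.1.2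
    exact hs (lt_of_le_of_lt h2 ht.2)
  have := card_le_card hsub
  rw [Nat.card_Icc] at this
  omega

/-- `c 1 < ... < c b`, `d ≤ c b`, all popular values are `< d`. If `m` popular values are missing among
`c 1, ..., c b`, then for `h + 1 + m ≤ P.card` we have `h < b` and among the steps `s → s + 1`, `1 ≤ s ≤ h`, at most
`2 * unp + m` are not steps between consecutive popular values (`Nx P` of `MP_0d8f69_coZ/Seq.lean`).

Proof: let `a` be the number of `s ∈ [1, b]` with `c s < d`; by monotonicity `c s < d` iff `s ≤ a`, and `a < b`.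
The popular values that are not missing are among `c 1, ..., c a`, so `P.card - m ≤ a`, hence `h + 1 ≤ a < b`. For a
bad step `s ≤ h` (so `s + 1 ≤ a`): `c s ∉ P`, or `c (s + 1) ∉ P`, or there is `F ∈ P` with `c s < F < c (s + 1)`, and
then `F` is missing; different `s` have different `F`. Compare `Uni.right_bad` in `MP_0d8f69_coZ/Seq.lean`. -/
theorem steps {c : ℕ → ℝ} {b : ℕ} {P : Finset ℝ} {d : ℝ}
    (hinc : ∀ s t, 1 ≤ s → s < t → t ≤ b → c s < c t) (hb : 1 ≤ b) (hd : d ≤ c b) (hP : ∀ D ∈ P, D < d)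
    {h : ℕ} (hh : h + 1 + (P.filter (fun D => D ∉ (Icc 1 b).image c)).card ≤ P.card) :
    h < b ∧ ((Icc 1 h).filter (fun s => ¬ Nx P (c s) (c (s + 1)))).card ≤
      2 * ((Icc 1 b).filter (fun s => c s < d ∧ c s ∉ P)).card +
        (P.filter (fun D => D ∉ (Icc 1 b).image c)).card := by
  classical
  have hab : ((Icc 1 b).filter (fun s => c s < d)).card < b :=
    steps_low hinc hb le_rfl (not_lt.2 hd)
  have hcard : P.card ≤ (P.filter (fun D => D ∉ (Icc 1 b).image c)).card +
      ((Icc 1 b).filter (fun s => c s < d)).card := by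
    have e := Finset.card_filter_add_card_filter_not (s := P) (fun D => D ∉ (Icc 1 b).image c)
    have h1 : (P.filter (fun D => ¬ (D ∉ (Icc 1 b).image c))) ⊆
        ((Icc 1 b).filter (fun s => c s < d)).image c := by
      intro D hD
      rw [mem_filter, not_not, mem_image] at hD
      obtain ⟨hDP, s, hs, hsD⟩ := hD
      rw [mem_image]
      refine ⟨s, ?_, hsD⟩
      rw [mem_filter]
      refine ⟨hs, ?_⟩
      rw [hsD]
      exact hP D hDP
    have h2 := (card_le_card h1).trans card_image_le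
    omega
  have hha : h + 1 ≤ ((Icc 1 b).filter (fun s => c s < d)).card := by omega
  have hhb : h < b := by omega
  refine ⟨hhb, ?_⟩
  have hlow : ∀ s, 1 ≤ s → s ≤ h + 1 → c s < d := by
    intro s h1 h2
    by_contra hc
    have := steps_low hinc h1 (by omega) hc
    omega
  -- the three kinds of bad steps
  have hsub : (Icc 1 h).filter (fun s => ¬ Nx P (c s) (c (s + 1))) ⊆
      (((Icc 1 h).filter (fun s => c s ∉ P)) ∪ ((Icc 1 h).filter (fun s => c (s + 1) ∉ P))) ∪
        ((Icc 1 h).filter (fun s => ∃ F ∈ P, c s < F ∧ F < c (s + 1))) := by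
    intro s hs
    rw [mem_filter, mem_Icc] at hs
    obtain ⟨hsI, hN⟩ := hs
    rw [mem_union, mem_union, mem_filter, mem_filter, mem_filter, mem_Icc]
    by_cases h1 : c s ∈ P
    · by_cases h2 : c (s + 1) ∈ P
      · right
        refine ⟨hsI, ?_⟩
        by_contra hc
        apply hN
        refine ⟨h1, h2, hinc s (s + 1) hsI.1 (by omega) (by omega), ?_⟩
        intro F hF hF2
        exact hc ⟨F, hF, hF2⟩
      · exact Or.inl (Or.inr ⟨hsI, h2⟩)
    · exact Or.inl (Or.inl ⟨hsI, h1⟩)
  have c1 : ((Icc 1 h).filter (fun s => c s ∉ P)).card ≤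
      ((Icc 1 b).filter (fun s => c s < d ∧ c s ∉ P)).card := by
    apply card_le_card
    intro s hs
    rw [mem_filter, mem_Icc] at hs
    rw [mem_filter, mem_Icc]
    exact ⟨⟨hs.1.1, by omega⟩, hlow s hs.1.1 (by omega), hs.2⟩
  have c2 : ((Icc 1 h).filter (fun s => c (s + 1) ∉ P)).card ≤
      ((Icc 1 b).filter (fun s => c s < d ∧ c s ∉ P)).card := by
    apply card_le_card_of_injOn (fun s => s + 1)
    · intro s hs
      simp only [Finset.coe_filter, Set.mem_setOf_eq, mem_Icc] at hs ⊢
      exact ⟨⟨by omega, by omega⟩, hlow (s + 1) (by omega) (by omega), hs.2⟩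
    · intro s _ t _ hst
      simpa using hst
  have c3 : ((Icc 1 h).filter (fun s => ∃ F ∈ P, c s < F ∧ F < c (s + 1))).card ≤
      (P.filter (fun D => D ∉ (Icc 1 b).image c)).card := by
    have hex : ∀ s : ℕ, ∃ F : ℝ, (∃ F ∈ P, c s < F ∧ F < c (s + 1)) →
        F ∈ P ∧ c s < F ∧ F < c (s + 1) := by
      intro s
      by_cases hc : ∃ F ∈ P, c s < F ∧ F < c (s + 1)
      · obtain ⟨F, hF, h1, h2⟩ := hc
        exact ⟨F, fun _ => ⟨hF, h1, h2⟩⟩
      · exact ⟨0, fun h0 => absurd h0 hc⟩
    choose f hf using hex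
    apply card_le_card_of_injOn f
    · intro s hs
      rw [Finset.mem_coe, mem_filter, mem_Icc] at hs
      rw [Finset.mem_coe, mem_filter]
      obtain ⟨hF, h1, h2⟩ := hf s hs.2
      refine ⟨hF, ?_⟩
      intro him
      rw [mem_image] at him
      obtain ⟨t, ht, hct⟩ := him
      rw [mem_Icc] at ht
      rw [← hct] at h1 h2
      rcases Nat.lt_or_ge s t with h3 | h3
      · have := steps_mono hinc (s := s + 1) (t := t) (by omega) (by omega) ht.2
        exact absurd h2 (not_lt.2 this)
      · have := steps_mono hinc (s := t) (t := s) ht.1 h3 (by omega)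
        exact absurd h1 (not_lt.2 this)
    · intro s hs t ht hst
      rw [Finset.mem_coe, mem_filter, mem_Icc] at hs ht
      obtain ⟨_, h1, h2⟩ := hf s hs.2
      obtain ⟨_, h3, h4⟩ := hf t ht.2
      rcases lt_trichotomy s t with h5 | h5 | h5
      · exfalso
        have := steps_mono hinc (s := s + 1) (t := t) (by omega) (by omega) (by omega)
        have h6 : f s < f t := lt_of_lt_of_le h2 (this.trans h3.le)
        rw [hst] at h6
        exact lt_irrefl _ h6
      · exact h5
      · exfalso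
        have := steps_mono hinc (s := t + 1) (t := s) (by omega) (by omega) (by omega)
        have h6 : f t < f s := lt_of_lt_of_le h4 (this.trans h1.le)
        rw [hst] at h6
        exact lt_irrefl _ h6
  have h1 := card_le_card hsub
  have h2 := card_union_le (((Icc 1 h).filter (fun s => c s ∉ P)) ∪
    ((Icc 1 h).filter (fun s => c (s + 1) ∉ P)))
    ((Icc 1 h).filter (fun s => ∃ F ∈ P, c s < F ∧ F < c (s + 1)))
  have h3 := card_union_le ((Icc 1 h).filter (fun s => c s ∉ P))
    ((Icc 1 h).filter (fun s => c (s + 1) ∉ P))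
  omega

end Pool.Agent.Lib.MP_0d8f69_coT
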